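import Mathlib
import Pool.Agent.Lib.EU59.Ribbon

set_option autoImplicit false

open Set Function

namespace Pool.Agent.Lib.OG59

open Pool.Agent.Lib.MP_15a8b6_co Pool.Agent.Lib.EU59

variable {S : Type*} [TopologicalSpace S] {X Y : Type*}

/-- The graph on the ports is embedded, for any system of chords without crossings. -/
theorem ports_em [Fintype X] {H : SimpleGraph X} [Fintype H.Dart] (p : Ports S H)
    {rk : H.Dart → ℕ} (Al : X → ℕ → ℕ → Prop) (hlt0 : ∀ x i k, Al x i k → i < k)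
    (hnc : ∀ x i k i' k', Al x i k → Al x i' k' → ¬ (i < i' ∧ i' < k ∧ k < k'))
    (h2 : ∀ d d', d.fst = d'.fst → rk d < rk d' → p.key d < p.key d')
    (h3 : ∀ d d', d.fst = d'.fst → rk d = rk d' → d = d') :
    Em S (Finset.univ : Finset (H.Dart × Fin 5)) fun a b =>
      (p.P a.1 ∧ b = (a.1.symm, tw (p.τ a.1) a.2)) ∨
      (a.1.fst = b.1.fst ∧ Al a.1.fst (5 * rk a.1 + a.2) (5 * rk b.1 + b.2)) := by
  classical
  have hlt : ∀ a b : H.Dart × Fin 5, a.1.fst = b.1.fst → 5 * rk a.1 + a.2 < 5 * rk b.1 + b.2 →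
      p.θ a.1.fst (p.pt a.1 a.2) < p.θ a.1.fst (p.pt b.1 b.2) := by
    rintro ⟨d, j⟩ ⟨d', j'⟩ hdd h
    have hj := j.2
    have hj' := j'.2
    by_cases h4 : rk d = rk d'
    · obtain rfl := h3 d d' hdd h4
      exact p.mono d (show j < j' by simp only at h; omega)
    · exact p.key_lt d d' hdd (h2 d d' hdd (by simp only at h; omega)) j j'
  have hidx : ∀ a b : H.Dart × Fin 5, a.1.fst = b.1.fst → 5 * rk a.1 + a.2 = 5 * rk b.1 + b.2 →
      a = b := by
    rintro ⟨d, j⟩ ⟨d', j'⟩ hdd h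
    have hj := j.2
    have hj' := j'.2
    simp only at h
    obtain rfl := h3 d d' hdd (by omega)
    rw [Fin.ext (show (j : ℕ) = j' by omega)]
  have hlt' : ∀ a b : H.Dart × Fin 5, a.1.fst = b.1.fst →
      p.θ a.1.fst (p.pt a.1 a.2) < p.θ a.1.fst (p.pt b.1 b.2) →
      5 * rk a.1 + a.2 < 5 * rk b.1 + b.2 := by
    intro a b hab h
    rcases lt_trichotomy (5 * rk a.1 + a.2) (5 * rk b.1 + b.2) with h4 | h4 | h4
    · exact h4
    · rw [hidx a b hab h4] at h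
      exact absurd h (lt_irrefl _)
    · have := hlt b a hab.symm h4
      rw [← hab] at this
      exact absurd h (lt_asymm this)
  have hK : ∀ a : H.Dart × Fin 5, p.pt a.1 a.2 ∈ p.K a.1.fst ∧ p.pt a.1 a.2 ∉ p.U a.1.fst :=
    fun a => p.BK a.1 (p.ptB a.1 a.2)
  have hinj : Injective fun a : H.Dart × Fin 5 => p.pt a.1 a.2 := by
    intro a b h
    simp only at h
    have hab : a.1.fst = b.1.fst := by
      by_contra hab
      exact disjoint_left.1 (p.disj _ _ hab) (hK a).1 (h ▸ (hK b).1)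
    rcases lt_trichotomy (5 * rk a.1 + a.2) (5 * rk b.1 + b.2) with h4 | h4 | h4
    · exact absurd (congrArg _ h) (hlt a b hab h4).ne
    · exact hidx a b hab h4
    · exact absurd (congrArg _ h.symm) (hlt b a hab.symm h4).ne
  have hB : ∀ a b : H.Dart × Fin 5, a.1.fst = b.1.fst → p.pt b.1 b.2 ∈ p.B a.1.fst :=
    fun a b h => h ▸ p.ptB b.1 b.2
  have hne : ∀ a b : H.Dart × Fin 5, Al a.1.fst (5 * rk a.1 + a.2) (5 * rk b.1 + b.2) →
      p.pt a.1 a.2 ≠ p.pt b.1 b.2 := fun a b h e => by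
    rw [hinj e] at h
    exact lt_irrefl _ (hlt0 _ _ _ h)
  have hsgK : ∀ a b : H.Dart × Fin 5, a.1.fst = b.1.fst →
      Al a.1.fst (5 * rk a.1 + a.2) (5 * rk b.1 + b.2) →
      p.sg a.1.fst (p.pt a.1 a.2) (p.pt b.1 b.2) ⊆ p.K a.1.fst := by
    intro a b hab h x hx
    rcases (p.ch a.1).sub _ (hB a a rfl) _ (hB a b hab) (hne a b h) hx with h4 | rfl | rfl
    · exact p.UK _ h4
    · exact (hK a).1
    · exact hab ▸ (hK b).1
  have hl : ∀ a : H.Dart × Fin 5, a.1.fst ≠ a.1.symm.fst := fun a => a.1.adj.ne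
  refine em_of_arcs (fun a => p.pt a.1 a.2) (fun a b => if a.1.fst = b.1.fst then
    p.sg a.1.fst (p.pt a.1 a.2) (p.pt b.1 b.2) else p.L a.1 a.2) hinj.injOn ?_ ?_ ?_
  · rintro a - b - (⟨h4, rfl⟩ | ⟨h4, h5⟩)
    · simp only [if_neg (hl a)]
      exact p.arc _ h4 _
    · simp only [if_pos h4]
      exact (p.ch a.1).arc _ (hB a a rfl) _ (hB a b h4) (hne a b h5)
  · rintro a - b - (⟨h4, rfl⟩ | ⟨h4, h5⟩) w - hw
    · simp only [if_neg (hl a)] at hw
      rcases p.LK _ h4 _ w.1 ⟨hw, (hK w).1⟩ with h6 | h6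
      · exact Or.inl (hinj h6)
      · exact Or.inr (hinj h6)
    · simp only [if_pos h4] at hw
      rcases (p.ch a.1).sub _ (hB a a rfl) _ (hB a b h4) (hne a b h5) hw with h6 | h6 | h6
      · exfalso
        by_cases h7 : a.1.fst = w.1.fst
        · exact (hK w).2 (h7 ▸ h6)
        · exact disjoint_left.1 (p.disj _ _ h7) (p.UK _ h6) (hK w).1
      · exact Or.inl (hinj h6)
      · exact Or.inr (hinj h6)
  · rintro a - b - (⟨h4, rfl⟩ | ⟨h4, h5⟩) c - d - (⟨h6, rfl⟩ | ⟨h6, h7⟩) hne' x ⟨hx, hx'⟩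
    · simp only [if_neg (hl a), if_neg (hl c)] at hx hx'
      exact absurd hx' (disjoint_left.1 (p.LL _ h4 _ h6 _ _ fun e => hne' (by
        rw [show a = c from e])) hx)
    · simp only [if_neg (hl a), if_pos h6] at hx hx'
      rcases p.LK _ h4 _ c.1 ⟨hx, hsgK c d h6 h7 hx'⟩ with rfl | rfl
      · exact ⟨a, by simp, rfl⟩
      · exact ⟨(_, _), by simp, rfl⟩
    · simp only [if_neg (hl c), if_pos h4] at hx hx'
      rcases p.LK _ h6 _ a.1 ⟨hx', hsgK a b h4 h5 hx⟩ with rfl | rfl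
      · exact ⟨c, by simp, rfl⟩
      · exact ⟨(_, _), by simp, rfl⟩
    · simp only [if_pos h4, if_pos h6] at hx hx'
      have hac : a.1.fst = c.1.fst := by
        by_contra hac
        exact disjoint_left.1 (p.disj _ _ hac) (hsgK a b h4 h5 hx) (hsgK c d h6 h7 hx')
      have h8 := hlt c d h6 (hlt0 _ _ _ h7)
      rw [← hac] at hx' h8 h7
      have hcr : ∀ u v w z : H.Dart × Fin 5, a.1.fst = u.1.fst → a.1.fst = v.1.fst →
          a.1.fst = w.1.fst → a.1.fst = z.1.fst →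
          Al a.1.fst (5 * rk u.1 + u.2) (5 * rk v.1 + v.2) →
          Al a.1.fst (5 * rk w.1 + w.2) (5 * rk z.1 + z.2) →
          ¬ (p.θ a.1.fst (p.pt u.1 u.2) < p.θ a.1.fst (p.pt w.1 w.2) ∧
            p.θ a.1.fst (p.pt w.1 w.2) < p.θ a.1.fst (p.pt v.1 v.2) ∧
            p.θ a.1.fst (p.pt v.1 v.2) < p.θ a.1.fst (p.pt z.1 z.2)) := by
        rintro u v w z hu hv hw hz g1 g2 ⟨g3, g4, g5⟩
        refine hnc _ _ _ _ _ g1 g2 ⟨hlt' u w (hu.symm.trans hw) (hu ▸ g3),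
          hlt' w v (hw.symm.trans hv) (hw ▸ g4), hlt' v z (hv.symm.trans hz) (hv ▸ g5)⟩
      rcases (p.ch a.1).cross _ (hB a a rfl) _ (hB a b h4) _ (hB a c hac) _
        (hB a d (hac.trans h6)) (hlt a b h4 (hlt0 _ _ _ h5)) h8 (fun e => hne' (by
          rw [hinj (Prod.mk.inj e).1, hinj (Prod.mk.inj e).2]))
        (hcr a b c d rfl h4 hac (hac.trans h6) h5 h7)
        (hcr c d a b hac (hac.trans h6) rfl h4 h7 h5) ⟨hx, hx'⟩ with rfl | rfl
      · exact ⟨a, by simp, rfl⟩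
      · exact ⟨b, by simp, rfl⟩

/-- Isolated vertices can be added to an embedded graph with an edge. -/
theorem em_univ [T2Space S] [ChartedSpace E2 S] [Fintype X] {W : Finset X} {R : X → X → Prop}
    (h : Em S W R) (hW : ∀ a b, a ≠ b → R a b → a ∈ W ∧ b ∈ W)
    (hne : ∃ a b, a ≠ b ∧ R a b) : Em S Finset.univ R := by
  classical
  obtain ⟨a₀, b₀, hab₀, hr₀⟩ := hne
  have : Nonempty S := by
    obtain ⟨F, ends, pos, A, -⟩ := h
    exact ⟨pos a₀⟩
  set H : SimpleGraph X := SimpleGraph.fromRel R with hH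
  have hadj : ∀ a b, H.Adj a b ↔ a ≠ b ∧ (R a b ∨ R b a) := fun a b => by
    rw [hH, SimpleGraph.fromRel_adj]
  set W' : Finset X := Finset.univ.filter fun x => ∃ y, H.Adj x y with hW'
  have hsub : W' ⊆ W := by
    intro x hx
    obtain ⟨y, hy⟩ := (Finset.mem_filter.1 hx).2
    obtain ⟨h1, h2 | h2⟩ := (hadj x y).1 hy
    · exact (hW _ _ h1 h2).1
    · exact (hW _ _ h1.symm h2).2
  obtain ⟨M⟩ := exists_rm (S := S) H (W := W') (fun x y h => by simpa [hW'] using ⟨y, h⟩)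
    (fun x hx => by simpa [hW'] using hx)
    (h.symm_closure.mono hsub fun a _ b _ _ h1 => ((hadj a b).1 h1).2)
  have d₀ : H.Dart := ⟨(a₀, b₀), (hadj _ _).2 ⟨hab₀, Or.inl hr₀⟩⟩
  obtain ⟨F, ends, pos, A, hF, h1, h2⟩ := M.em5
  set q : X ⊕ (H.Dart × Bool) × Bool := .inr ((d₀, true), true) with hq
  have hqW : q ∈ W'.disjSum (Finset.univ : Finset ((H.Dart × Bool) × Bool)) := by simp [hq]
  set Z : Set (X ⊕ (H.Dart × Bool) × Bool) := range Sum.inr with hZ
  have hO := h1.isOpen_free (Finset.finite_toSet _) hF Z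
  obtain ⟨K, U, hK, -, hKO⟩ := exists_cdisc (p := pos q) hO
    ⟨fun w hw hwZ e => hwZ (h1.inj hqW hw e ▸ ⟨_, rfl⟩),
      fun e he hz hp => hz q (h1.avoid e he q hqW hp) ⟨_, rfl⟩⟩
  obtain ⟨g, hg⟩ : ∃ g : X → S, Injective g ∧ ∀ x, g x ∈ K := by
    let j := (hK.inf.mono sdiff_subset).natEmbedding
    exact ⟨fun x => j (Fintype.equivFin X x), fun x y e =>
      (Fintype.equivFin X).injective (Fin.ext (j.injective (Subtype.ext e))), fun x => (j _).2⟩
  have hinl : ∀ x ∈ W', Sum.inl x ∈ W'.disjSum (Finset.univ : Finset ((H.Dart × Bool) × Bool)) :=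
    fun x hx => by simpa using hx
  have hnZ : ∀ x : X, Sum.inl x ∉ Z := fun x => by simp [hZ]
  have hmem : ∀ a b, H.Adj a b → a ∈ W' := fun a b h => by simpa [hW'] using ⟨b, h⟩
  choose e he he' using fun (a b : X) (h : H.Adj a b) =>
    h2 _ (hinl a (hmem a b h)) _ (hinl b (hmem b a h.symm)) (fun e => h.ne (Sum.inl.inj e))
      (Or.inl (T5.edge h))
  set P : X → S := fun x => if x ∈ W' then pos (.inl x) else g x with hP
  have hP1 : ∀ x ∈ W', P x = pos (.inl x) := fun x hx => if_pos hx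
  have hP2 : ∀ x, x ∉ W' → P x = g x := fun x hx => if_neg hx
  refine em_of_emb (E := Sym2 (X ⊕ (H.Dart × Bool) × Bool))
    ⟨{z | ∃ a b h, z = e a b h}, fun z => (ends z).map (Sum.elim id fun _ => a₀), P, A,
      hF.subset (by
        rintro _ ⟨a, b, h, rfl⟩
        exact he a b h), ⟨?_, ?_, ?_, ?_⟩, ?_⟩
  · intro x _ y _ hxy
    by_cases hx : x ∈ W' <;> by_cases hy : y ∈ W'
    · rw [hP1 x hx, hP1 y hy] at hxy
      exact Sum.inl.inj (h1.inj (hinl x hx) (hinl y hy) hxy)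
    · rw [hP1 x hx, hP2 y hy] at hxy
      exact absurd hxy.symm ((hKO (hg.2 y)).1 _ (hinl x hx) (hnZ x))
    · rw [hP2 x hx, hP1 y hy] at hxy
      exact absurd hxy ((hKO (hg.2 x)).1 _ (hinl y hy) (hnZ y))
    · rw [hP2 x hx, hP2 y hy] at hxy
      exact hg.1 hxy
  · rintro _ ⟨a, b, h, rfl⟩
    refine ⟨a, by simp, b, by simp, by simp [he' a b h], ?_⟩
    rw [hP1 a (hmem a b h), hP1 b (hmem b a h.symm)]
    exact (h1.arc' (he a b h) (he' a b h)).2.2
  · rintro _ ⟨a, b, h, rfl⟩ w - hw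
    by_cases hw' : w ∈ W'
    · rw [hP1 w hw'] at hw
      exact Sym2.mem_map.2 ⟨_, h1.avoid _ (he a b h) _ (hinl w hw') hw, rfl⟩
    · rw [hP2 w hw'] at hw
      refine absurd hw ((hKO (hg.2 w)).2 _ (he a b h) fun z hz => ?_)
      rw [he' a b h, Sym2.mem_iff] at hz
      rcases hz with rfl | rfl <;> exact hnZ _
  · rintro _ ⟨a, b, h, rfl⟩ _ ⟨c, d, h', rfl⟩ hne p hp
    obtain ⟨w, hw, rfl⟩ := h1.cross _ (he a b h) _ (he c d h') hne hp
    have h3 := h1.avoid _ (he a b h) w hw hp.1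
    rw [he' a b h, Sym2.mem_iff] at h3
    rcases h3 with rfl | rfl
    · exact ⟨a, by simp, hP1 a (hmem a b h)⟩
    · exact ⟨b, by simp, hP1 b (hmem b a h.symm)⟩
  · intro a _ b _ hab hr
    have h3 : H.Adj a b := (hadj a b).2 ⟨hab, Or.inl hr⟩
    exact ⟨e a b h3, ⟨a, b, h3, rfl⟩, by simp [he' a b h3]⟩

/-- Minor given by branch sets. -/
theorem em_sets [T2Space S] [ChartedSpace E2 S] [Fintype X] [Fintype Y]
    {R : X → X → Prop} (h : Em S Finset.univ R) (B : Y → Set X)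
    (hd : ∀ y y' x, x ∈ B y → x ∈ B y' → y = y')
    (hc : ∀ y, ∀ a ∈ B y, ∀ b ∈ B y, ConnIn R (B y) a b) {R' : Y → Y → Prop}
    (hR : ∀ y y', y ≠ y' → R' y y' → ∃ a ∈ B y, ∃ b ∈ B y', R a b)
    (hne : ∃ y y', y ≠ y' ∧ R' y y') : Em S Finset.univ R' := by
  classical
  have hS : HD S := fun _ _ hO hp => exists_disc (E := E2) hO hp
  obtain ⟨y₀, y₁, h01, hr01⟩ := hne
  obtain ⟨a₀, -⟩ := hR y₀ y₁ h01 hr01
  have : Nonempty S := by
    obtain ⟨F, ends, pos, A, -⟩ := h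
    exact ⟨pos a₀⟩
  obtain ⟨f, hf⟩ : ∃ f : X → Y, ∀ y, ∀ x ∈ B y, f x = y :=
    ⟨fun x => if h : ∃ y, x ∈ B y then h.choose else y₀, fun y x hx => by
      have h1 : ∃ y, x ∈ B y := ⟨y, hx⟩
      simp only [dif_pos h1]
      exact hd _ _ x h1.choose_spec hx⟩
  refine em_univ (W := Finset.univ.filter fun y => (B y).Nonempty)
    (h.minor hS (Finset.univ.filter fun x => ∃ y, x ∈ B y) (Finset.subset_univ _) f ?_ ?_ ?_)
    (fun y y' hne hr => ?_) ⟨y₀, y₁, h01, hr01⟩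
  · intro a ha b hb hab
    obtain ⟨y, hy⟩ := (Finset.mem_filter.1 ha).2
    obtain ⟨y', hy'⟩ := (Finset.mem_filter.1 hb).2
    obtain rfl : y = y' := by rw [← hf y a hy, ← hf y' b hy', hab]
    refine (hc y a hy b hy').mono ?_
    intro x hx
    refine ⟨Finset.mem_filter.2 ⟨Finset.mem_univ _, y, hx⟩, ?_⟩
    rw [hf y x hx, hf y a hy]
  · intro y hy
    obtain ⟨a, ha⟩ := (Finset.mem_filter.1 hy).2
    exact ⟨a, by simpa using ⟨y, ha⟩, hf y a ha⟩
  · intro y _ y' _ hne hr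
    obtain ⟨a, ha, b, hb, hab⟩ := hR y y' hne hr
    exact ⟨a, by simpa using ⟨y, ha⟩, b, by simpa using ⟨y', hb⟩, hab, hf y a ha, hf y' b hb⟩
  · obtain ⟨a, ha, b, hb, -⟩ := hR y y' hne hr
    exact ⟨Finset.mem_filter.2 ⟨Finset.mem_univ _, a, ha⟩,
      Finset.mem_filter.2 ⟨Finset.mem_univ _, b, hb⟩⟩

/-- Connectivity along a sequence of adjacent points. -/
theorem conn_seq {R : X → X → Prop} {T : Set X} (p : ℕ → X) {i j : ℕ} (hij : i ≤ j)
    (hT : ∀ r, i ≤ r → r ≤ j → p r ∈ T) (hR : ∀ r, i ≤ r → r < j → R (p r) (p (r + 1))) :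
    ConnIn R T (p i) (p j) := by
  induction j, hij using Nat.le_induction with
  | base => exact .refl
  | succ j hij ih =>
    exact (ih (fun r a b => hT r a (by omega)) fun r a b => hR r a (by omega)).tail
      ⟨hR j hij (by omega), hT j hij (by omega), hT (j + 1) (by omega) le_rfl⟩

end Pool.Agent.Lib.OG59
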