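import Mathlib
import Pool.Agent.Lib.OG59.Gen

set_option autoImplicit false

open Set Function

namespace Pool.Agent.Lib.OG59

open Pool.Agent.Lib.MP_15a8b6_co

/-- The kinds of nodes over a vertex: the whole vertex, a side block, a lane, the middle lane. -/
inductive Kd
  | vx
  | bk (b : Bool)
  | ln (b : Bool)
  | md
  deriving DecidableEq, Fintype

/-- The chords at a vertex with a passage through the darts of ranks `a < b`. -/
def LA (d a b i k : ℕ) : Prop :=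
  i < k ∧ k < 5 * d ∧ ((i = 5 * a + 3 ∧ k = 5 * b + 1) ∨ (i = 5 * a + 1 ∧ k = 5 * b + 3) ∨
    (i = 5 * a + 2 ∧ k = 5 * b + 2) ∨ (k = i + 1 ∧ (i = 5 * b + 1 ∨ i = 5 * b + 2)) ∨
    (k = i + 1 ∧ (i = 5 * a + 1 ∨ i = 5 * a + 2)) ∨
    (k = i + 5 ∧ i % 5 = 2 ∧ i / 5 ≠ a ∧ i / 5 ≠ b ∧ i / 5 + 1 ≠ a ∧ i / 5 + 1 ≠ b) ∨
    (i = 2 ∧ k + 3 = 5 * d ∧ 0 < a ∧ b + 1 < d) ∨ (i = 5 * a + 3 ∧ k = 5 * a + 7 ∧ a + 1 ≠ b) ∨
    (i = 5 * b + 3 ∧ k = 5 * b + 7) ∨ (i + 3 = 5 * a ∧ k = 5 * a + 1))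

theorem la1 {d a b i k : ℕ} (h1 : i < k) (h2 : k < 5 * d)
    (h : i = 5 * a + 3 ∧ k = 5 * b + 1) :
    LA d a b i k :=
  ⟨h1, h2, Or.inl h⟩

theorem la2 {d a b i k : ℕ} (h1 : i < k) (h2 : k < 5 * d)
    (h : i = 5 * a + 1 ∧ k = 5 * b + 3) :
    LA d a b i k :=
  ⟨h1, h2, Or.inr (Or.inl h)⟩

theorem la3 {d a b i k : ℕ} (h1 : i < k) (h2 : k < 5 * d)
    (h : i = 5 * a + 2 ∧ k = 5 * b + 2) :
    LA d a b i k :=
  ⟨h1, h2, Or.inr (Or.inr (Or.inl h))⟩

theorem la4 {d a b i k : ℕ} (h1 : i < k) (h2 : k < 5 * d)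
    (h : k = i + 1 ∧ (i = 5 * b + 1 ∨ i = 5 * b + 2)) :
    LA d a b i k :=
  ⟨h1, h2, Or.inr (Or.inr (Or.inr (Or.inl h)))⟩

theorem la5 {d a b i k : ℕ} (h1 : i < k) (h2 : k < 5 * d)
    (h : k = i + 1 ∧ (i = 5 * a + 1 ∨ i = 5 * a + 2)) :
    LA d a b i k :=
  ⟨h1, h2, Or.inr (Or.inr (Or.inr (Or.inr (Or.inl h))))⟩

theorem la6 {d a b i k : ℕ} (h1 : i < k) (h2 : k < 5 * d)
    (h : k = i + 5 ∧ i % 5 = 2 ∧ i / 5 ≠ a ∧ i / 5 ≠ b ∧ i / 5 + 1 ≠ a ∧ i / 5 + 1 ≠ b) :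
    LA d a b i k :=
  ⟨h1, h2, Or.inr (Or.inr (Or.inr (Or.inr (Or.inr (Or.inl h)))))⟩

theorem la7 {d a b i k : ℕ} (h1 : i < k) (h2 : k < 5 * d)
    (h : i = 2 ∧ k + 3 = 5 * d ∧ 0 < a ∧ b + 1 < d) :
    LA d a b i k :=
  ⟨h1, h2, Or.inr (Or.inr (Or.inr (Or.inr (Or.inr (Or.inr (Or.inl h))))))⟩

theorem la8 {d a b i k : ℕ} (h1 : i < k) (h2 : k < 5 * d)
    (h : i = 5 * a + 3 ∧ k = 5 * a + 7 ∧ a + 1 ≠ b) :
    LA d a b i k :=
  ⟨h1, h2, Or.inr (Or.inr (Or.inr (Or.inr (Or.inr (Or.inr (Or.inr (Or.inl h)))))))⟩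

theorem la9 {d a b i k : ℕ} (h1 : i < k) (h2 : k < 5 * d)
    (h : i = 5 * b + 3 ∧ k = 5 * b + 7) :
    LA d a b i k :=
  ⟨h1, h2, Or.inr (Or.inr (Or.inr (Or.inr (Or.inr (Or.inr (Or.inr (Or.inr (Or.inl h))))))))⟩

theorem la10 {d a b i k : ℕ} (h1 : i < k) (h2 : k < 5 * d)
    (h : i + 3 = 5 * a ∧ k = 5 * a + 1) :
    LA d a b i k :=
  ⟨h1, h2, Or.inr (Or.inr (Or.inr (Or.inr (Or.inr (Or.inr (Or.inr (Or.inr (Or.inr h))))))))⟩

theorem LA.not_cross {d a b i k i' k' : ℕ} (hab : a < b) (h : LA d a b i k) (h' : LA d a b i' k') :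
    ¬ (i < i' ∧ i' < k ∧ k < k') := by
  obtain ⟨h1, h2, h3⟩ := h
  obtain ⟨h1', h2', h3'⟩ := h'
  rintro ⟨g1, g2, g3⟩
  rcases h3 with h | h | h | h | h | h | h | h | h | h <;> omega

/-- The side of the dart of rank `r` with respect to a passage from rank `a` to rank `b`. -/
def sdr (a b r : ℕ) : Bool := xor (decide (min a b < r ∧ r < max a b)) (decide (a < b))

/-- The chords at a vertex. -/
def Al (z : Prop) (d a b i k : ℕ) : Prop :=
  (z ∧ LA d (min a b) (max a b) i k) ∨ (¬ z ∧ k = i + 1)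

theorem Al.lt {z : Prop} {d a b i k : ℕ} (h : Al z d a b i k) : i < k := by
  rcases h with h | h
  · exact h.2.1
  · omega

theorem Al.not_cross {z : Prop} {d a b i k i' k' : ℕ} (hab : z → a ≠ b) (h : Al z d a b i k)
    (h' : Al z d a b i' k') : ¬ (i < i' ∧ i' < k ∧ k < k') := by
  rcases h with h | h <;> rcases h' with h' | h'
  · exact h.2.not_cross (by have := hab h.1; omega) h'.2
  · exact absurd h.1 h'.1
  · exact absurd h'.1 h.1
  · omega

/-- The port of index `i` belongs to the node of the given kind. -/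
def Cd (z : Prop) (a b i : ℕ) : Kd → Prop
  | .vx => ¬ z
  | .bk s => z ∧ i % 5 = 2 ∧ i / 5 ≠ a ∧ i / 5 ≠ b ∧ sdr a b (i / 5) = s
  | .ln s => z ∧ (i = 5 * b + (if s then 3 else 1) ∨ i = 5 * a + (if s then 1 else 3))
  | .md => z ∧ (i = 5 * a + 2 ∨ i = 5 * b + 2)

theorem Cd.uniq {z : Prop} {a b i : ℕ} (hab : z → a ≠ b) {k k' : Kd} (h : Cd z a b i k)
    (h' : Cd z a b i k') : k = k' := by
  rcases k with _ | s | s | _ <;> rcases k' with _ | s' | s' | _ <;> simp only [Cd] at h h'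
  all_goals first
    | rfl
    | exact absurd h'.1 h
    | exact absurd h.1 h'
    | (rw [← h.2.2.2.2, ← h'.2.2.2.2])
    | (have := hab h.1
       obtain ⟨-, h⟩ := h
       obtain ⟨-, h'⟩ := h'
       first
        | omega
        | (cases s <;> simp at h <;> omega)
        | (cases s' <;> simp at h' <;> omega)
        | (cases s <;> cases s' <;> simp at h h' ⊢ <;> omega))

theorem sdr_in {a b r : ℕ} (h : min a b < r ∧ r < max a b) : sdr a b r = !decide (a < b) := by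
  simp [sdr, h]

theorem sdr_out {a b r : ℕ} (h : ¬ (min a b < r ∧ r < max a b)) : sdr a b r = decide (a < b) := by
  simp only [sdr, decide_eq_false h, Bool.false_xor]

theorem cd_conn {z : Prop} {d a b : ℕ} (hab : z → a ≠ b ∧ a < d ∧ b < d) (k : Kd) {i i' : ℕ}
    (hi : i < 5 * d) (hi' : i' < 5 * d) (h : Cd z a b i k) (h' : Cd z a b i' k) :
    ConnIn (fun s t => Al z d a b s t ∨ Al z d a b t s) {t | t < 5 * d ∧ Cd z a b t k} i i' := by
  have hs : ∀ s t, (Al z d a b s t ∨ Al z d a b t s) → (Al z d a b t s ∨ Al z d a b s t) :=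
    fun _ _ h => h.symm
  have one : ∀ s t, s < 5 * d → t < 5 * d → Cd z a b s k → Cd z a b t k →
      (s = t ∨ Al z d a b s t ∨ Al z d a b t s) →
      ConnIn (fun s t => Al z d a b s t ∨ Al z d a b t s) {t | t < 5 * d ∧ Cd z a b t k} s t := by
    rintro s t h1 h2 h3 h4 (rfl | h5)
    · exact .refl
    · exact .single ⟨h5, ⟨h1, h3⟩, ⟨h2, h4⟩⟩
  rcases k with _ | s | s | _
  · wlog hle : i ≤ i' generalizing i i'
    · exact (this hi' hi h' h (by omega)).symm hs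
    exact conn_seq id hle (fun r _ h2 => ⟨by simp only [id]; omega, h⟩)
      fun r _ _ => Or.inl (Or.inr ⟨h, rfl⟩)
  · obtain ⟨hz, g1, g2, g3, g4⟩ := h
    obtain ⟨-, g1', g2', g3', g4'⟩ := h'
    obtain ⟨n1, n2, n3⟩ := hab hz
    have ch : ∀ r r', r ≤ r' → r' < d → (∀ t, r ≤ t → t ≤ r' → t ≠ a ∧ t ≠ b ∧ sdr a b t = s) →
        ConnIn (fun s t => Al z d a b s t ∨ Al z d a b t s)
          {t | t < 5 * d ∧ Cd z a b t (.bk s)} (5 * r + 2) (5 * r' + 2) := by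
      intro r r' h1 h2 h3
      refine conn_seq (fun t => 5 * t + 2) h1 (fun t e1 e2 => ⟨by omega, hz, by omega, ?_⟩)
        fun t e1 e2 => Or.inl (Or.inl ⟨hz, la6 (by omega) (by omega) ?_⟩)
      · rw [show (5 * t + 2) / 5 = t by omega]
        exact h3 t e1 e2
      · have := h3 t e1 (by omega)
        have := h3 (t + 1) (by omega) (by omega)
        omega
    obtain ⟨r, rfl⟩ : ∃ r, i = 5 * r + 2 := ⟨i / 5, by omega⟩
    obtain ⟨r', rfl⟩ : ∃ r, i' = 5 * r + 2 := ⟨i' / 5, by omega⟩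
    rw [show (5 * r + 2) / 5 = r by omega] at g2 g3 g4
    rw [show (5 * r' + 2) / 5 = r' by omega] at g2' g3' g4'
    wlog hle : r ≤ r' generalizing r r'
    · exact (this r' hi' g1' g2' g3' g4' r hi g1 g2 g3 g4 (by omega)).symm hs
    by_cases c1 : min a b < r ∧ r < max a b <;> by_cases c2 : min a b < r' ∧ r' < max a b
    · exact ch r r' hle (by omega) fun t e1 e2 =>
        ⟨by omega, by omega, by rw [← g4, sdr_in c1, sdr_in (by omega)]⟩
    · rw [sdr_in c1] at g4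
      rw [sdr_out c2, ← g4] at g4'
      simp at g4'
    · rw [sdr_in c2] at g4'
      rw [sdr_out c1, ← g4'] at g4
      simp at g4
    rw [sdr_out c1] at g4
    by_cases c3 : r < min a b ∧ max a b < r'
    · have e1 := ch 0 r (by omega) (by omega) fun t e1 e2 =>
        ⟨by omega, by omega, by rw [← g4, sdr_out (by omega)]⟩
      have e2 := ch r' (d - 1) (by omega) (by omega) fun t e1 e2 =>
        ⟨by omega, by omega, by rw [← g4, sdr_out (by omega)]⟩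
      refine ((e1.symm hs).tail (c := 5 * (d - 1) + 2) ⟨Or.inl (Or.inl ⟨hz, la7 (by omega) (by omega)
        (by omega)⟩), (e1.symm hs).mem ⟨hi, hz, g1, ?_⟩, e2.mem ⟨hi', hz, g1', ?_⟩⟩).trans
        (e2.symm hs)
      · rw [show (5 * r + 2) / 5 = r by omega]
        exact ⟨g2, g3, by rw [← g4, sdr_out c1]⟩
      · rw [show (5 * r' + 2) / 5 = r' by omega]
        exact ⟨g2', g3', g4'⟩
    · exact ch r r' hle (by omega) fun t e1 e2 =>
        ⟨by omega, by omega, by rw [← g4, sdr_out (by omega)]⟩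
  · refine one _ _ hi hi' h h' ?_
    obtain ⟨hz, h⟩ := h
    obtain ⟨-, h'⟩ := h'
    obtain ⟨n1, n2, n3⟩ := hab hz
    have k1 : Al z d a b (5 * min a b + 3) (5 * max a b + 1) :=
      Or.inl ⟨hz, la1 (by omega) (by omega) ⟨rfl, rfl⟩⟩
    have k2 : Al z d a b (5 * min a b + 1) (5 * max a b + 3) :=
      Or.inl ⟨hz, la2 (by omega) (by omega) ⟨rfl, rfl⟩⟩
    rcases lt_or_gt_of_ne n1 with c | c
    · rw [min_eq_left c.le, max_eq_right c.le] at k1 k2
      cases s <;> rcases h with rfl | rfl <;> rcases h' with rfl | rfl <;> simp [k1, k2]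
    · rw [min_eq_right c.le, max_eq_left c.le] at k1 k2
      cases s <;> rcases h with rfl | rfl <;> rcases h' with rfl | rfl <;> simp [k1, k2]
  · refine one _ _ hi hi' h h' ?_
    obtain ⟨hz, h⟩ := h
    obtain ⟨-, h'⟩ := h'
    obtain ⟨n1, n2, n3⟩ := hab hz
    have k1 : Al z d a b (5 * min a b + 2) (5 * max a b + 2) :=
      Or.inl ⟨hz, la3 (by omega) (by omega) ⟨rfl, rfl⟩⟩
    rcases lt_or_gt_of_ne n1 with c | c
    · rw [min_eq_left c.le, max_eq_right c.le] at k1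
      rcases h with rfl | rfl <;> rcases h' with rfl | rfl <;> simp [k1]
    · rw [min_eq_right c.le, max_eq_left c.le] at k1
      rcases h with rfl | rfl <;> rcases h' with rfl | rfl <;> simp [k1]

theorem cd_rung {z : Prop} {d a b : ℕ} (hz : z) (hab : a ≠ b ∧ a < d ∧ b < d) (s : Bool) :
    ∃ i < 5 * d, ∃ k < 5 * d, Cd z a b i (.ln s) ∧ Cd z a b k .md ∧
      (Al z d a b i k ∨ Al z d a b k i) := by
  refine ⟨5 * b + (if s then 3 else 1), by split_ifs <;> omega, 5 * b + 2, by omega,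
    ⟨hz, Or.inl rfl⟩, ⟨hz, Or.inr rfl⟩, ?_⟩
  have k : ∀ i, i = 5 * b + 1 ∨ i = 5 * b + 2 → Al z d a b i (i + 1) := by
    intro i hi
    rcases lt_or_gt_of_ne hab.1 with c | c
    · exact Or.inl ⟨hz, la4 (by omega) (by omega) ⟨rfl, by omega⟩⟩
    · exact Or.inl ⟨hz, la5 (by omega) (by omega) ⟨rfl, by omega⟩⟩
  cases s
  · exact Or.inl (k _ (Or.inl rfl))
  · exact Or.inr (k _ (Or.inr rfl))

theorem cd_blk {z : Prop} {d a b r : ℕ} (hz : z) (hab : a ≠ b ∧ a < d ∧ b < d) (hr : r < d)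
    (h1 : r ≠ a) (h2 : r ≠ b) :
    ∃ i < 5 * d, ∃ k < 5 * d, Cd z a b i (.ln (sdr a b r)) ∧ Cd z a b k (.bk (sdr a b r)) ∧
      (Al z d a b i k ∨ Al z d a b k i) := by
  by_cases c1 : min a b < r ∧ r < max a b
  · refine ⟨5 * min a b + 3, by omega, 5 * (min a b + 1) + 2, by omega, ⟨hz, ?_⟩,
      ⟨hz, by omega, by omega, by omega, ?_⟩,
      Or.inl (Or.inl ⟨hz, la8 (by omega) (by omega) (by omega)⟩)⟩
    · rw [sdr_in c1]
      by_cases c : a < b <;> simp [c] <;> omega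
    · rw [sdr_in c1, sdr_in (by omega)]
  by_cases c2 : r < min a b
  · refine ⟨5 * min a b + 1, by omega, 5 * (min a b - 1) + 2, by omega, ⟨hz, ?_⟩,
      ⟨hz, by omega, by omega, by omega, ?_⟩,
      Or.inr (Or.inl ⟨hz, la10 (by omega) (by omega) (by omega)⟩)⟩
    · rw [sdr_out c1]
      by_cases c : a < b <;> simp [c] <;> omega
    · rw [sdr_out c1, sdr_out (by omega)]
  · refine ⟨5 * max a b + 3, by omega, 5 * (max a b + 1) + 2, by omega, ⟨hz, ?_⟩,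
      ⟨hz, by omega, by omega, by omega, ?_⟩,
      Or.inl (Or.inl ⟨hz, la9 (by omega) (by omega) (by omega)⟩)⟩
    · rw [sdr_out c1]
      by_cases c : a < b <;> simp [c] <;> omega
    · rw [sdr_out c1, sdr_out (by omega)]

end Pool.Agent.Lib.OG59
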