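import Mathlib
import Pool.Agent.Lib.OG59.Idx

set_option autoImplicit false

open Set Function

namespace Pool.Agent.Lib.OG59

open Pool.Agent.Lib.MP_15a8b6_co Pool.Agent.Lib.EU59

variable {S : Type*} [TopologicalSpace S] {X : Type*}

theorem conn_map {Y : Type*} {R : X → X → Prop} {R' : Y → Y → Prop} {T : Set X} {T' : Set Y}
    (f : X → Y) (h : ∀ a b, R a b → a ∈ T → b ∈ T → R' (f a) (f b) ∧ f a ∈ T' ∧ f b ∈ T')
    {a b : X} (hab : ConnIn R T a b) : ConnIn R' T' (f a) (f b) := by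
  induction hab with
  | refl => exact .refl
  | tail _ h1 ih => exact ih.tail (h _ _ h1.1 h1.2.1 h1.2.2)

/-- Vertices with a chosen passage. -/
structure Thr (H : SimpleGraph X) where
  Z : Set X
  pv : X → X
  nx : X → X
  apv : ∀ z ∈ Z, H.Adj z (pv z)
  anx : ∀ z ∈ Z, H.Adj z (nx z)
  ne : ∀ z ∈ Z, pv z ≠ nx z

variable {H : SimpleGraph X}

/-- `n` is the node over `x` at which the edge `x y` arrives. -/
def Thr.At (T : Thr H) (sd : X → X → X → X → Bool) (x y : X) (n : X × Kd) : Prop :=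
  (x ∉ T.Z ∧ n = (x, .vx)) ∨
    (x ∈ T.Z ∧ y ≠ T.pv x ∧ y ≠ T.nx x ∧ n = (x, .bk (sd x (T.pv x) (T.nx x) y)))

/-- The ladder graph: three lanes along the passages, two side blocks at their vertices. -/
inductive Lad (T : Thr H) (τ : X → X → Bool) (sd : X → X → X → X → Bool) :
    X × Kd → X × Kd → Prop
  | out {x y : X} {n m : X × Kd} : H.Adj x y → T.At sd x y n → T.At sd y x m → Lad T τ sd n m
  | lane {x y : X} (b : Bool) : x ∈ T.Z → y ∈ T.Z → T.nx x = y → T.pv y = x →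
      Lad T τ sd (x, .ln b) (y, .ln (xor b (τ x y)))
  | mid {x y : X} : x ∈ T.Z → y ∈ T.Z → T.nx x = y → T.pv y = x → Lad T τ sd (x, .md) (y, .md)
  | endn {x : X} (b : Bool) : x ∈ T.Z → T.nx x ∉ T.Z → Lad T τ sd (x, .ln b) (T.nx x, .vx)
  | endp {x : X} (b : Bool) : x ∈ T.Z → T.pv x ∉ T.Z → Lad T τ sd (x, .ln b) (T.pv x, .vx)
  | rung {x : X} (b : Bool) : x ∈ T.Z → Lad T τ sd (x, .ln b) (x, .md)
  | blk {x y : X} : x ∈ T.Z → H.Adj x y → y ≠ T.pv x → y ≠ T.nx x →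
      Lad T τ sd (x, .ln (sd x (T.pv x) (T.nx x) y)) (x, .bk (sd x (T.pv x) (T.nx x) y))

theorem exists_lad [T2Space S] [ChartedSpace E2 S] [Fintype X] (H : SimpleGraph X)
    (h : Em S Finset.univ H.Adj) : ∃ (τ : X → X → Bool) (sd : X → X → X → X → Bool),
      ∀ T : Thr H, T.Z.Nonempty →
        Em S Finset.univ fun a b => Lad T τ sd a b ∨ Lad T τ sd b a := by
  classical
  obtain ⟨p⟩ := exists_ports (S := S) H (fun _ _ _ => Finset.mem_univ _) h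
  obtain ⟨rk, dg, h1, h2, h3, h4⟩ := exists_rank p.key p.key_inj
  obtain ⟨r, hr⟩ : ∃ r : X → X → ℕ, ∀ d : H.Dart, r d.fst d.snd = rk d :=
    ⟨fun x y => if h : H.Adj x y then rk ⟨(x, y), h⟩ else 0, fun d => dif_pos d.adj⟩
  obtain ⟨τ, hτ⟩ : ∃ τ : X → X → Bool, ∀ d : H.Dart, τ d.fst d.snd = p.τ d :=
    ⟨fun x y => if h : H.Adj x y then p.τ ⟨(x, y), h⟩ else true, fun d => dif_pos d.adj⟩
  have hrlt : ∀ x y, H.Adj x y → r x y < dg x := fun x y h => by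
    have := h1 ⟨(x, y), h⟩
    rwa [← hr] at this
  have hrinj : ∀ x y y', H.Adj x y → H.Adj x y' → r x y = r x y' → y = y' := fun x y y' h h' e =>
    congrArg (fun d : H.Dart => d.snd) (h3 ⟨(x, y), h⟩ ⟨(x, y'), h'⟩ rfl
      ((hr ⟨(x, y), h⟩).symm.trans (e.trans (hr ⟨(x, y'), h'⟩))))
  refine ⟨τ, fun x a b y => sdr (r x a) (r x b) (r x y), fun T hT => ?_⟩
  set a : X → ℕ := fun x => r x (T.pv x) with ha
  set b : X → ℕ := fun x => r x (T.nx x) with hb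
  have hab : ∀ x, x ∈ T.Z → a x ≠ b x ∧ a x < dg x ∧ b x < dg x := fun x hx =>
    ⟨fun e => T.ne x hx (hrinj x _ _ (T.apv x hx) (T.anx x hx) e), hrlt _ _ (T.apv x hx),
      hrlt _ _ (T.anx x hx)⟩
  have hem := (ports_em p (rk := rk) (fun x => Al (x ∈ T.Z) (dg x) (a x) (b x))
    (fun _ _ _ h => h.lt) (fun x _ _ _ _ h h' => h.not_cross (fun hx => (hab x hx).1) h')
    h2 h3).symm_closure
  set R : H.Dart × Fin 5 → H.Dart × Fin 5 → Prop := fun c e =>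
    ((p.P c.1 ∧ e = (c.1.symm, tw (p.τ c.1) c.2)) ∨ (c.1.fst = e.1.fst ∧
      Al (c.1.fst ∈ T.Z) (dg c.1.fst) (a c.1.fst) (b c.1.fst) (5 * rk c.1 + c.2)
        (5 * rk e.1 + e.2))) ∨
    ((p.P e.1 ∧ c = (e.1.symm, tw (p.τ e.1) e.2)) ∨ (e.1.fst = c.1.fst ∧
      Al (e.1.fst ∈ T.Z) (dg e.1.fst) (a e.1.fst) (b e.1.fst) (5 * rk e.1 + e.2)
        (5 * rk c.1 + c.2))) with hR
  have hlane : ∀ (d : H.Dart) j, R (d, j) (d.symm, tw (p.τ d) j) := by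
    intro d j
    rcases p.P_or d with h | h
    · exact Or.inl (Or.inl ⟨h, rfl⟩)
    · refine Or.inr (Or.inl ⟨h, ?_⟩)
      simp only [SimpleGraph.Dart.symm_symm, p.τ_symm, tw_tw]
  obtain ⟨z₀, hz₀⟩ := hT
  have d₀ : H.Dart := ⟨(z₀, T.nx z₀), T.anx z₀ hz₀⟩
  obtain ⟨q, hq⟩ : ∃ q : X → ℕ → H.Dart × Fin 5, ∀ x i, i < 5 * dg x →
      (q x i).1.fst = x ∧ 5 * rk (q x i).1 + (q x i).2 = i := by
    have : ∀ x i, ∃ c : H.Dart × Fin 5, i < 5 * dg x → c.1.fst = x ∧ 5 * rk c.1 + c.2 = i := by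
      intro x i
      by_cases hi : i < 5 * dg x
      · obtain ⟨d, e1, e2⟩ := h4 x (i / 5) (by omega)
        exact ⟨(d, ⟨i % 5, by omega⟩), fun _ => ⟨e1, by simp only [e2]; omega⟩⟩
      · exact ⟨(d₀, 0), fun h => absurd h hi⟩
    choose q hq using this
    exact ⟨q, hq⟩
  have hbd : ∀ c : H.Dart × Fin 5, 5 * rk c.1 + c.2 < 5 * dg c.1.fst := fun c => by
    have := h1 c.1
    have := c.2.2
    omega
  have hqc : ∀ c : H.Dart × Fin 5, q c.1.fst (5 * rk c.1 + c.2) = c := by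
    intro c
    obtain ⟨e1, e2⟩ := hq _ _ (hbd c)
    have f1 := c.2.2
    have f2 := (q c.1.fst (5 * rk c.1 + c.2)).2.2
    exact Prod.ext (h3 _ _ e1 (by omega)) (Fin.ext (by omega))
  set B : X × Kd → Set (H.Dart × Fin 5) := fun n =>
    {c | c.1.fst = n.1 ∧ Cd (n.1 ∈ T.Z) (a n.1) (b n.1) (5 * rk c.1 + c.2) n.2} with hB
  have hqB : ∀ x i k, i < 5 * dg x → Cd (x ∈ T.Z) (a x) (b x) i k → q x i ∈ B (x, k) :=
    fun x i k hi hc => ⟨(hq x i hi).1, by rwa [(hq x i hi).2]⟩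
  have hqR : ∀ x i k, i < 5 * dg x → k < 5 * dg x →
      (Al (x ∈ T.Z) (dg x) (a x) (b x) i k ∨ Al (x ∈ T.Z) (dg x) (a x) (b x) k i) →
      R (q x i) (q x k) := by
    intro x i k hi hk hA
    obtain ⟨e1, e2⟩ := hq x i hi
    obtain ⟨e3, e4⟩ := hq x k hk
    rcases hA with hA | hA
    · exact Or.inl (Or.inr ⟨e1.trans e3.symm, by rwa [e1, e2, e4]⟩)
    · exact Or.inr (Or.inr ⟨e3.trans e1.symm, by rwa [e3, e2, e4]⟩)
  have hAt : ∀ (x y : X) (h : H.Adj x y) n,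
      T.At (fun x a b y => sdr (r x a) (r x b) (r x y)) x y n →
      ((⟨(x, y), h⟩ : H.Dart), (2 : Fin 5)) ∈ B n := by
    rintro x y h n (⟨h5, rfl⟩ | ⟨h5, h6, h7, rfl⟩)
    · exact ⟨rfl, h5⟩
    · have e : (5 * rk ⟨(x, y), h⟩ + ((2 : Fin 5) : ℕ)) / 5 = r x y := by
        rw [← hr]
        simp only [Fin.isValue, Fin.coe_ofNat_eq_mod]
        omega
      refine ⟨rfl, h5, ?_, ?_, ?_, ?_⟩
      · simp only [Fin.isValue, Fin.coe_ofNat_eq_mod]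
        omega
      · rw [e]
        exact fun e' => h6 (hrinj x _ _ h (T.apv x h5) e')
      · rw [e]
        exact fun e' => h7 (hrinj x _ _ h (T.anx x h5) e')
      · rw [e]
  have hN : ∀ x (hx : x ∈ T.Z) (s : Bool),
      ((⟨(x, T.nx x), T.anx x hx⟩ : H.Dart), (if s then 3 else 1 : Fin 5)) ∈ B (x, .ln s) := by
    intro x hx s
    refine ⟨rfl, hx, Or.inl ?_⟩
    rw [← hr]
    cases s <;> rfl
  have hP : ∀ x (hx : x ∈ T.Z) (s : Bool),
      ((⟨(x, T.pv x), T.apv x hx⟩ : H.Dart), (if s then 1 else 3 : Fin 5)) ∈ B (x, .ln s) := by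
    intro x hx s
    refine ⟨rfl, hx, Or.inr ?_⟩
    rw [← hr]
    cases s <;> rfl
  have key : ∀ n m, Lad T τ (fun x a b y => sdr (r x a) (r x b) (r x y)) n m →
      ∃ c ∈ B n, ∃ e ∈ B m, R c e := by
    intro n m hL
    cases hL with
    | @out x y _ _ h e1 e2 =>
      refine ⟨_, hAt _ _ h _ e1, _, hAt _ _ h.symm _ e2, ?_⟩
      have := hlane ⟨(x, y), h⟩ 2
      rwa [show ∀ t, tw t 2 = 2 from fun t => by cases t <;> rfl] at this
    | @lane x y s e1 e2 e3 e4 =>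
      subst e3
      refine ⟨_, hN x e1 s, _, ?_, hlane _ _⟩
      refine ⟨rfl, e2, Or.inr ?_⟩
      rw [← hr, ← hτ]
      simp only [ha, e4, SimpleGraph.Dart.symm_mk, Prod.swap_prod_mk]
      cases s <;> cases τ x (T.nx x) <;> rfl
    | @mid x y e1 e2 e3 e4 =>
      subst e3
      refine ⟨(⟨(x, T.nx x), T.anx x e1⟩, 2), ⟨rfl, e1, Or.inr ?_⟩, _, ?_, hlane _ _⟩
      · rw [← hr]
        rfl
      · refine ⟨rfl, e2, Or.inl ?_⟩
        rw [← hr, ← hτ]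
        simp only [ha, e4, SimpleGraph.Dart.symm_mk, Prod.swap_prod_mk]
        cases τ x (T.nx x) <;> rfl
    | endn s e1 e2 => exact ⟨_, hN _ e1 s, _, ⟨rfl, e2⟩, hlane _ _⟩
    | endp s e1 e2 => exact ⟨_, hP _ e1 s, _, ⟨rfl, e2⟩, hlane _ _⟩
    | @rung x s e1 =>
      obtain ⟨i, hi, k, hk, c1, c2, c3⟩ := cd_rung (z := x ∈ T.Z) e1 (hab x e1) s
      exact ⟨_, hqB x i _ hi c1, _, hqB x k _ hk c2, hqR x i k hi hk c3⟩
    | @blk x y e1 e2 e3 e4 =>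
      obtain ⟨i, hi, k, hk, c1, c2, c3⟩ := cd_blk (z := x ∈ T.Z) e1 (hab x e1) (hrlt x y e2)
        (fun e' => e3 (hrinj x _ _ e2 (T.apv x e1) e'))
        (fun e' => e4 (hrinj x _ _ e2 (T.anx x e1) e'))
      exact ⟨_, hqB x i _ hi c1, _, hqB x k _ hk c2, hqR x i k hi hk c3⟩
  refine em_sets (R := R) hem B ?_ ?_ ?_
    ⟨(z₀, .ln true), (z₀, .md), by simp, Or.inl (.rung true hz₀)⟩
  · rintro ⟨x, k⟩ ⟨x', k'⟩ c ⟨e1, e2⟩ ⟨e3, e4⟩
    obtain rfl : x = x' := e1.symm.trans e3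
    exact Prod.ext rfl (Cd.uniq (fun hx => (hab x hx).1) e2 e4)
  · rintro ⟨x, k⟩ c ⟨e1, e2⟩ e ⟨e3, e4⟩
    have f1 := hbd c
    have f2 := hbd e
    have g1 := hqc c
    have g2 := hqc e
    simp only at e1 e3
    rw [e1] at f1 g1
    rw [e3] at f2 g2
    rw [← g1, ← g2]
    exact conn_map (q x) (fun s t hA hs ht =>
      ⟨hqR x s t hs.1 ht.1 hA, hqB x s k hs.1 hs.2, hqB x t k ht.1 ht.2⟩)
      (cd_conn (hab x) k f1 f2 e2 e4)
  · rintro n m - (hL | hL)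
    · exact key n m hL
    · obtain ⟨c, hc, e, he, hce⟩ := key m n hL
      exact ⟨e, he, c, hc, hce.symm⟩

end Pool.Agent.Lib.OG59
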