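import Mathlib
import Pool.Agent.Lib.OG59.Lad

set_option autoImplicit false

open Set Function

namespace Pool.Agent.Lib.OG59

open Pool.Agent.Lib.MP_15a8b6_co Pool.Agent.Lib.EU59

variable {S : Type*} [TopologicalSpace S] {X V : Type*}

/-- A path of length `n` from `a` to `b`. -/
structure Pth (R : X → X → Prop) (a b : X) (n : ℕ) (p : ℕ → X) : Prop where
  zero : p 0 = a
  last : p n = b
  adj : ∀ i < n, R (p i) (p (i + 1))
  inj : ∀ i ≤ n, ∀ j ≤ n, p i = p j → i = j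

theorem Pth.rev {R : X → X → Prop} (hR : ∀ a b, R a b → R b a) {a b : X} {n : ℕ} {p : ℕ → X}
    (h : Pth R a b n p) : Pth R b a n fun i => p (n - i) where
  zero := h.last
  last := by simpa using h.zero
  adj := fun i hi => by
    have := h.adj (n - (i + 1)) (by omega)
    rw [show n - (i + 1) + 1 = n - i by omega] at this
    exact hR _ _ this
  inj := fun i hi j hj e => by
    have := h.inj _ (by omega) _ (by omega) e
    omega

theorem exists_pth {R : X → X → Prop} {T : Set X} {a b : X} (h : ConnIn R T a b) (ha : a ∈ T) :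
    ∃ n p, Pth R a b n p ∧ ∀ i ≤ n, p i ∈ T := by
  classical
  have h1 : ∃ n, ∃ p : ℕ → X, p 0 = a ∧ p n = b ∧ (∀ i < n, R (p i) (p (i + 1))) ∧
      ∀ i ≤ n, p i ∈ T := by
    induction h with
    | refl => exact ⟨0, fun _ => a, rfl, rfl, fun _ h => absurd h (by omega), fun _ _ => ha⟩
    | @tail x y _ h ih =>
      obtain ⟨n, p, e1, e2, e3, e4⟩ := ih
      refine ⟨n + 1, fun i => if i ≤ n then p i else y, by simpa using e1, by simp, fun i hi => ?_,
        fun i hi => ?_⟩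
      · by_cases c : i < n
        · simp only [if_pos c.le, if_pos (show i + 1 ≤ n from c)]
          exact e3 i c
        · obtain rfl : i = n := by omega
          simp only [if_pos le_rfl, if_neg (show ¬ i + 1 ≤ i by omega), e2]
          exact h.1
      · dsimp only
        split_ifs with c
        · exact e4 i c
        · exact h.2.2
  obtain ⟨p, e1, e2, e3, e4⟩ := Nat.find_spec h1
  refine ⟨_, p, ⟨e1, e2, e3, ?_⟩, e4⟩
  have key : ∀ i j, i < j → j ≤ Nat.find h1 → p i ≠ p j := by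
    intro i j hij hj e
    refine Nat.find_min h1 (m := Nat.find h1 - (j - i)) (by omega)
      ⟨fun k => if k ≤ i then p k else p (k + (j - i)), by simpa using e1, ?_, fun k hk => ?_,
        fun k hk => ?_⟩
    · dsimp only
      split_ifs with c
      · rw [show Nat.find h1 - (j - i) = i by omega, e, show j = Nat.find h1 by omega, e2]
      · rw [show Nat.find h1 - (j - i) + (j - i) = Nat.find h1 by omega, e2]
    · rcases lt_trichotomy k i with c | rfl | c
      · simp only [if_pos c.le, if_pos (show k + 1 ≤ i from c)]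
        exact e3 k (by omega)
      · simp only [if_pos le_rfl, if_neg (show ¬ k + 1 ≤ k by omega)]
        rw [e, show k + 1 + (j - k) = j + 1 by omega]
        exact e3 j (by omega)
      · simp only [if_neg (show ¬ k ≤ i by omega), if_neg (show ¬ k + 1 ≤ i by omega)]
        rw [show k + 1 + (j - i) = k + (j - i) + 1 by omega]
        exact e3 _ (by omega)
    · dsimp only
      split_ifs with c
      · exact e4 k (by omega)
      · exact e4 _ (by omega)
  intro i hi j hj e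
  rcases lt_trichotomy i j with c | c | c
  · exact absurd e (key i j c hj)
  · exact c
  · exact absurd e.symm (key j i c hi)

/-- The edges of `G` as paths in an embedded graph; independent edges have disjoint supports and
two supports have at most one common point. -/
structure PD (S : Type*) [TopologicalSpace S] (G : SimpleGraph V) (X : Type*) [Fintype X] where
  H : SimpleGraph X
  root : V → X
  n : Sym2 V → ℕ
  C : Sym2 V → Set X
  p : V → V → ℕ → X
  em : Em S Finset.univ H.Adj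
  rinj : Injective root
  pth : ∀ a b, G.Adj a b → Pth H.Adj (root a) (root b) (n s(a, b)) (p a b)
  sub : ∀ a b, G.Adj a b → ∀ i, 0 < i → i < n s(a, b) → p a b i ∈ C s(a, b)
  nr : ∀ e, ∀ x ∈ C e, x ∉ range root
  sh : ∀ e f x, x ∈ C e → x ∈ C f → ∃ v, v ∈ e ∧ v ∈ f
  one : ∀ e f, e ≠ f → ∀ x y, x ∈ C e → x ∈ C f → y ∈ C e → y ∈ C f → x = y

theorem exists_pd [Fintype X] {G : SimpleGraph V} (H : SimpleGraph X) (root : V → X)
    (C : Sym2 V → Set X) (Q : Sym2 V → ℕ → Prop) (em : Em S Finset.univ H.Adj)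
    (rinj : Injective root) (nr : ∀ e, ∀ x ∈ C e, x ∉ range root)
    (sh : ∀ e f x, x ∈ C e → x ∈ C f → ∃ v, v ∈ e ∧ v ∈ f)
    (one : ∀ e f, e ≠ f → ∀ x y, x ∈ C e → x ∈ C f → y ∈ C e → y ∈ C f → x = y)
    (h : ∀ e ∈ G.edgeSet, ∃ c d, s(c, d) = e ∧ ∃ n, Q e n ∧ ∃ p,
      Pth H.Adj (root c) (root d) n p ∧ ∀ i, 0 < i → i < n → p i ∈ C e) :
    ∃ D : PD S G X, D.C = C ∧ ∀ e ∈ G.edgeSet, Q e (D.n e) := by
  have h1 : ∀ e, ∃ n, e ∈ G.edgeSet → Q e n ∧ ∀ a b, s(a, b) = e → ∃ p,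
      Pth H.Adj (root a) (root b) n p ∧ ∀ i, 0 < i → i < n → p i ∈ C e := by
    intro e
    by_cases he : e ∈ G.edgeSet
    · obtain ⟨c, d, rfl, n, e1, p, e2, e3⟩ := h e he
      refine ⟨n, fun _ => ⟨e1, fun a b hab => ?_⟩⟩
      rcases Sym2.eq_iff.1 hab with ⟨rfl, rfl⟩ | ⟨rfl, rfl⟩
      · exact ⟨p, e2, e3⟩
      · exact ⟨_, e2.rev fun _ _ h => h.symm, fun i c1 c2 => e3 _ (by omega) (by omega)⟩
    · exact ⟨0, fun h => absurd h he⟩
  choose n hn using h1
  have h2 : ∀ a b, ∃ p, G.Adj a b → Pth H.Adj (root a) (root b) (n s(a, b)) p ∧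
      ∀ i, 0 < i → i < n s(a, b) → p i ∈ C s(a, b) := by
    intro a b
    by_cases hab : G.Adj a b
    · obtain ⟨p, hp⟩ := (hn s(a, b) hab).2 a b rfl
      exact ⟨p, fun _ => hp⟩
    · exact ⟨fun _ => root a, fun h => absurd h hab⟩
  choose p hp using h2
  exact ⟨⟨H, root, n, C, p, em, rinj, fun a b h => (hp a b h).1, fun a b h => (hp a b h).2, nr, sh,
    one⟩, rfl, fun e he => (hn e he).1⟩

variable {H : SimpleGraph X}

theorem exists_thr {ι : Type*} (n : ι → ℕ) (p : ι → ℕ → X) {a b : ι → X}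
    (hp : ∀ t, Pth H.Adj (a t) (b t) (n t) (p t))
    (hd : ∀ t t' i i', 0 < i → i < n t → 0 < i' → i' < n t' → p t i = p t' i' → t = t') :
    ∃ T : Thr H, (∀ x, x ∈ T.Z ↔ ∃ t i, 0 < i ∧ i < n t ∧ p t i = x) ∧
      ∀ t i, 0 < i → i < n t → T.pv (p t i) = p t (i - 1) ∧ T.nx (p t i) = p t (i + 1) := by
  have h1 : ∀ x, ∃ y z, ∀ t i, 0 < i → i < n t → p t i = x → y = p t (i - 1) ∧ z = p t (i + 1) := by
    intro x
    by_cases hx : ∃ t i, 0 < i ∧ i < n t ∧ p t i = x
    · obtain ⟨t, i, e1, e2, rfl⟩ := hx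
      refine ⟨p t (i - 1), p t (i + 1), fun t' i' c1 c2 e => ?_⟩
      obtain rfl := hd _ _ _ _ c1 c2 e1 e2 e
      obtain rfl := (hp t').inj _ c2.le _ e2.le e
      exact ⟨rfl, rfl⟩
    · exact ⟨x, x, fun t i c1 c2 e => absurd ⟨t, i, c1, c2, e⟩ hx⟩
  choose pv nx h1 using h1
  refine ⟨⟨{x | ∃ t i, 0 < i ∧ i < n t ∧ p t i = x}, pv, nx, ?_, ?_, ?_⟩, fun _ => Iff.rfl,
    fun t i c1 c2 => h1 _ t i c1 c2 rfl⟩
  · rintro _ ⟨t, i, c1, c2, rfl⟩
    rw [(h1 _ t i c1 c2 rfl).1]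
    have := (hp t).adj (i - 1) (by omega)
    rw [show i - 1 + 1 = i by omega] at this
    exact this.symm
  · rintro _ ⟨t, i, c1, c2, rfl⟩
    rw [(h1 _ t i c1 c2 rfl).2]
    exact (hp t).adj i c2
  · rintro _ ⟨t, i, c1, c2, rfl⟩ e
    rw [(h1 _ t i c1 c2 rfl).1, (h1 _ t i c1 c2 rfl).2] at e
    have := (hp t).inj _ (by omega) _ (by omega) e
    omega

/-- The accumulated twist along a path. -/
def cm (τ : X → X → Bool) (p : ℕ → X) : ℕ → Bool
  | 0 => false
  | i + 1 => xor (cm τ p i) (τ (p i) (p (i + 1)))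

/-- The lane of side `s` along a path. -/
def lane (τ : X → X → Bool) (n : ℕ) (p : ℕ → X) (s : Bool) (i : ℕ) : X × Kd :=
  (p i, if i = 0 ∨ i = n then .vx else .ln (xor s (cm τ p i)))

/-- The side of the edge from the point `p i` to `y`. -/
def gs (τ : X → X → Bool) (sd : X → X → X → X → Bool) (p : ℕ → X) (i : ℕ) (y : X) : Bool :=
  xor (sd (p i) (p (i - 1)) (p (i + 1)) y) (cm τ p i)

/-- The passages follow the path. -/
structure Cmp (T : Thr H) (n : ℕ) (p : ℕ → X) : Prop where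
  mem : ∀ i, 0 < i → i < n → p i ∈ T.Z
  pv : ∀ i, 0 < i → i < n → T.pv (p i) = p (i - 1)
  nx : ∀ i, 0 < i → i < n → T.nx (p i) = p (i + 1)
  zero : p 0 ∉ T.Z
  last : p n ∉ T.Z

/-- The symmetric ladder relation. -/
abbrev LS (T : Thr H) (τ : X → X → Bool) (sd : X → X → X → X → Bool) (a b : X × Kd) : Prop :=
  Lad T τ sd a b ∨ Lad T τ sd b a

variable {T : Thr H} {τ : X → X → Bool} {sd : X → X → X → X → Bool} {n : ℕ} {p : ℕ → X}

theorem lane_mid {i : ℕ} (h0 : 0 < i) (h1 : i < n) (s : Bool) :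
    lane τ n p s i = (p i, .ln (xor s (cm τ p i))) := by
  rw [lane, if_neg (by omega)]

theorem lane_zero (s : Bool) : lane τ n p s 0 = (p 0, .vx) := by simp [lane]

theorem lane_last (s : Bool) : lane τ n p s n = (p n, .vx) := by simp [lane]

theorem Cmp.lane_adj (h : Cmp T n p) (h2 : 2 ≤ n) (s : Bool) {i : ℕ} (hi : i < n) :
    LS T τ sd (lane τ n p s i) (lane τ n p s (i + 1)) := by
  rcases Nat.eq_zero_or_pos i with rfl | h0
  · rw [lane_zero, lane_mid (by omega) (by omega)]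
    have e := h.pv (0 + 1) (by omega) (by omega)
    have := Lad.endp (τ := τ) (sd := sd) (xor s (cm τ p (0 + 1))) (h.mem (0 + 1) (by omega)
      (by omega)) (by rw [e]; exact h.zero)
    rw [e] at this
    exact Or.inr this
  rw [lane_mid h0 hi]
  by_cases h1 : i + 1 = n
  · subst h1
    rw [lane_last]
    have e := h.nx i h0 hi
    have := Lad.endn (τ := τ) (sd := sd) (xor s (cm τ p i)) (h.mem i h0 hi)
      (by rw [e]; exact h.last)
    rw [e] at this
    exact Or.inl this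
  · rw [lane_mid (by omega) (by omega), cm, ← Bool.xor_assoc]
    exact Or.inl (.lane _ (h.mem i h0 hi) (h.mem _ (by omega) (by omega)) (h.nx i h0 hi)
      (h.pv (i + 1) (by omega) (by omega)))

theorem Cmp.mid_adj (h : Cmp T n p) {i : ℕ} (h0 : 0 < i) (hi : i + 1 < n) :
    LS T τ sd (p i, .md) (p (i + 1), .md) :=
  Or.inl (.mid (h.mem i h0 (by omega)) (h.mem _ (by omega) hi) (h.nx i h0 (by omega))
    (h.pv (i + 1) (by omega) hi))

theorem Cmp.rung (h : Cmp T n p) (s : Bool) {i : ℕ} (h0 : 0 < i) (hi : i < n) :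
    LS T τ sd (lane τ n p s i) (p i, .md) := by
  rw [lane_mid h0 hi]
  exact Or.inl (.rung _ (h.mem i h0 hi))

theorem Cmp.blk (h : Cmp T n p) {i : ℕ} (h0 : 0 < i) (hi : i < n) {y : X} (hy : H.Adj (p i) y)
    (h1 : y ≠ p (i - 1)) (h2 : y ≠ p (i + 1)) :
    LS T τ sd (lane τ n p (gs τ sd p i y) i) (p i, .bk (sd (p i) (p (i - 1)) (p (i + 1)) y)) := by
  rw [lane_mid h0 hi, gs, Bool.xor_assoc, Bool.xor_self, Bool.xor_false]
  have := Lad.blk (τ := τ) (sd := sd) (h.mem i h0 hi) hy (by rwa [h.pv i h0 hi])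
    (by rwa [h.nx i h0 hi])
  rw [h.pv i h0 hi, h.nx i h0 hi] at this
  exact Or.inl this

theorem Cmp.at (h : Cmp T n p) {i : ℕ} (h0 : 0 < i) (hi : i < n) {y : X}
    (h1 : y ≠ p (i - 1)) (h2 : y ≠ p (i + 1)) :
    T.At sd (p i) y (p i, .bk (sd (p i) (p (i - 1)) (p (i + 1)) y)) := by
  refine Or.inr ⟨h.mem i h0 hi, by rwa [h.pv i h0 hi], by rwa [h.nx i h0 hi], ?_⟩
  rw [h.pv i h0 hi, h.nx i h0 hi]

/-- A wrong pair on the path of the edge `u v`: an edge at `v` arrives before an edge at `u`,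
both from the same side. -/
structure Wr [Fintype X] {G : SimpleGraph V} (D : PD S G X) (τ : X → X → Bool)
    (sd : X → X → X → X → Bool) (u v : V) where
  i : ℕ
  j : ℕ
  w : V
  z : V
  mg : ℕ
  mf : ℕ
  hi : 0 < i
  hij : i < j
  hj : j < D.n s(u, v)
  hw : G.Adj v w
  hwu : w ≠ u
  hz : G.Adj u z
  hzv : z ≠ v
  g0 : 0 < mg
  g1 : mg < D.n s(v, w)
  ge : D.p v w mg = D.p u v i
  f0 : 0 < mf
  f1 : mf < D.n s(u, z)
  fe : D.p u z mf = D.p u v j
  gp : D.p v w (mg - 1) ≠ D.p u v (i - 1)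
  gn : D.p v w (mg - 1) ≠ D.p u v (i + 1)
  fp : D.p u z (mf - 1) ≠ D.p u v (j - 1)
  fn : D.p u z (mf - 1) ≠ D.p u v (j + 1)
  same : gs τ sd (D.p u v) i (D.p v w (mg - 1)) = gs τ sd (D.p u v) j (D.p u z (mf - 1))

end Pool.Agent.Lib.OG59
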