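import Mathlib
import Pool.Agent.Lib.OG59.Path

set_option autoImplicit false

open Set Function

namespace Pool.Agent.Lib.OG59

open Pool.Agent.Lib.MP_15a8b6_co Pool.Agent.Lib.EU59

variable {S : Type*} [TopologicalSpace S] {X V : Type*} [Fintype X] {G : SimpleGraph V}

theorem PD.end_of_root (D : PD S G X) {a b c : V} (h : G.Adj a b) {r : ℕ} (hr : r ≤ D.n s(a, b))
    (e : D.p a b r = D.root c) : (r = 0 ∧ c = a) ∨ (r = D.n s(a, b) ∧ c = b) := by
  rcases Nat.eq_zero_or_pos r with rfl | h0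
  · exact Or.inl ⟨rfl, D.rinj (e.symm.trans (D.pth a b h).zero)⟩
  rcases eq_or_lt_of_le hr with rfl | h1
  · exact Or.inr ⟨rfl, D.rinj (e.symm.trans (D.pth a b h).last)⟩
  · exact absurd ⟨c, e.symm⟩ (D.nr _ _ (D.sub a b h r h0 h1))

theorem PD.pos (D : PD S G X) {a b : V} (h : G.Adj a b) : 0 < D.n s(a, b) := by
  refine Nat.pos_of_ne_zero fun e => h.ne (D.rinj ?_)
  rw [← (D.pth a b h).zero, ← (D.pth a b h).last, e]

/-- A path that meets the path of `u v` in an inner point meets it only there and in the root. -/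
theorem PD.meet (D : PD S G X) {u v o w : V} (huv : G.Adj u v) (how : G.Adj o w)
    (ho : o ∈ s(u, v)) (hne : s(o, w) ≠ s(u, v)) {m i : ℕ} (m0 : 0 < m) (m1 : m < D.n s(o, w))
    (i0 : 0 < i) (i1 : i < D.n s(u, v)) (e : D.p o w m = D.p u v i) {k r : ℕ}
    (hk : k ≤ D.n s(o, w)) (hr : r ≤ D.n s(u, v)) (e' : D.p o w k = D.p u v r) :
    k = m ∨ k = 0 := by
  rcases Nat.eq_zero_or_pos k with rfl | k0
  · exact Or.inr rfl
  rcases eq_or_lt_of_le hk with rfl | k1
  · exfalso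
    rw [(D.pth o w how).last] at e'
    have h1 : w ∈ s(u, v) := by
      rcases D.end_of_root huv hr e'.symm with ⟨-, rfl⟩ | ⟨-, rfl⟩ <;> simp
    exact hne ((Sym2.mem_and_mem_iff how.ne).1 ⟨ho, h1⟩).symm
  have h1 := D.sub o w how k k0 k1
  have r0 : 0 < r := Nat.pos_of_ne_zero fun c =>
    D.nr _ _ h1 ⟨u, by rw [e', c, (D.pth u v huv).zero]⟩
  have r1 : r < D.n s(u, v) := lt_of_le_of_ne hr fun c =>
    D.nr _ _ h1 ⟨v, by rw [e', c, (D.pth u v huv).last]⟩
  exact Or.inl ((D.pth o w how).inj _ hk _ m1.le (D.one _ _ hne _ _ h1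
    (e' ▸ D.sub u v huv r r0 r1) (D.sub o w how m m0 m1) (e ▸ D.sub u v huv i i0 i1)))

/-- An edge at `o` crosses the path of `u v` at the point `i` and leaves it on the side `s`. -/
def Dm (D : PD S G X) (τ : X → X → Bool) (sd : X → X → X → X → Bool) (u v o : V) (i : ℕ)
    (s : Bool) : Prop :=
  0 < i ∧ i < D.n s(u, v) ∧ ∃ w m, G.Adj o w ∧ s(o, w) ≠ s(u, v) ∧ 0 < m ∧ m < D.n s(o, w) ∧
    D.p o w m = D.p u v i ∧ gs τ sd (D.p u v) i (D.p o w (m + 1)) = s ∧
    ¬ (D.p o w (m - 1) ≠ D.p u v (i - 1) ∧ D.p o w (m - 1) ≠ D.p u v (i + 1) ∧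
      gs τ sd (D.p u v) i (D.p o w (m - 1)) = s)

variable {τ : X → X → Bool} {sd : X → X → X → X → Bool}

theorem wr_of_dm (D : PD S G X)
    (htri : ∀ a b c, G.Adj a b → G.Adj b c → G.Adj c a → 2 ≤ D.n s(a, b) → 2 ≤ D.n s(b, c) →
      2 ≤ D.n s(c, a) → False) {u v : V} (huv : G.Adj u v) {i j : ℕ} {s : Bool}
    (h1 : Dm D τ sd u v v i s) (h2 : Dm D τ sd u v u j s) (hij : i ≤ j) :
    Nonempty (Wr D τ sd u v) := by
  obtain ⟨i0, i1, w, m, a1, a2, a3, a4, a5, -, a7⟩ := h1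
  obtain ⟨j0, j1, z, m', b1, b2, b3, b4, b5, -, b7⟩ := h2
  have hwu : w ≠ u := by
    rintro rfl
    exact a2 Sym2.eq_swap
  have hzv : z ≠ v := by
    rintro rfl
    exact b2 rfl
  have hlt : i < j := by
    refine lt_of_le_of_ne hij ?_
    rintro rfl
    obtain ⟨x, x1, x2⟩ := D.sh _ _ _ (D.sub v w a1 m a3 a4) (by
      rw [a5, ← b5]
      exact D.sub u z b1 m' b3 b4)
    rw [Sym2.mem_iff] at x1 x2
    rcases x1 with rfl | rfl <;> rcases x2 with x2 | x2
    · exact huv.ne x2.symm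
    · exact hzv x2.symm
    · exact hwu x2
    · subst x2
      exact htri u v x huv a1 b1.symm (by omega) (by omega) (by rw [Sym2.eq_swap]; omega)
  have c1 : ∀ r, r < D.n s(u, v) → D.p v w (m - 1) ≠ D.p u v r := by
    intro r hr e
    have := D.meet huv a1 (by simp) a2 a3 a4 i0 i1 a5 (by omega) hr.le e
    rw [show m - 1 = 0 by omega, (D.pth v w a1).zero] at e
    rcases D.end_of_root huv hr.le e.symm with ⟨-, h⟩ | ⟨h, -⟩
    · exact huv.ne h.symm
    · omega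
  have c2 : ∀ r, 0 < r → r ≤ D.n s(u, v) → D.p u z (m' - 1) ≠ D.p u v r := by
    intro r h0 hr e
    have := D.meet huv b1 (by simp) b2 b3 b4 j0 j1 b5 (by omega) hr e
    rw [show m' - 1 = 0 by omega, (D.pth u z b1).zero] at e
    rcases D.end_of_root huv hr e.symm with ⟨h, -⟩ | ⟨-, h⟩
    · omega
    · exact huv.ne h
  have d1 := c1 (i - 1) (by omega)
  have d2 := c1 (i + 1) (by omega)
  have d3 := c2 (j - 1) (by omega) (by omega)
  have d4 := c2 (j + 1) (by omega) (by omega)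
  refine ⟨⟨i, j, w, z, m, m', i0, hlt, j1, a1, hwu, b1, hzv, a3, a4, a5, b3, b4, b5, d1, d2, d3,
    d4, ?_⟩⟩
  rw [Bool.eq_not_iff.2 fun e => a7 ⟨d1, d2, e⟩, Bool.eq_not_iff.2 fun e => b7 ⟨d3, d4, e⟩]

theorem clear [T2Space S] [ChartedSpace E2 S] (D : PD S G X)
    (hlad : ∀ T : Thr D.H, T.Z.Nonempty → Em S Finset.univ (LS T τ sd)) {u v : V}
    (huv : G.Adj u v) (h2 : 2 ≤ D.n s(u, v))
    (hno : ∀ i j s, Dm D τ sd u v v i s → Dm D τ sd u v u j s → j < i) :
    ∃ D' : PD S G (X × Kd), ∀ e ∈ G.edgeSet, D'.n e ≤ D.n e ∧ (e = s(u, v) → D'.n e = 1) := by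
  classical
  set N := D.n s(u, v) with hN
  set P := D.p u v with hP
  have hPth := D.pth u v huv
  obtain ⟨T, hZ, hT⟩ := exists_thr (H := D.H) (ι := Unit) (fun _ => N) (fun _ => P)
    (fun _ => hPth) fun _ _ _ _ _ _ _ _ _ => rfl
  have hZC : ∀ x ∈ T.Z, x ∈ D.C s(u, v) := by
    intro x hx
    obtain ⟨-, i, e1, e2, rfl⟩ := (hZ x).1 hx
    exact D.sub u v huv i e1 e2
  have hrZ : ∀ a, D.root a ∉ T.Z := fun a h => D.nr _ _ (hZC _ h) ⟨a, rfl⟩
  have hC : Cmp T N P := ⟨fun i e1 e2 => (hZ _).2 ⟨(), i, e1, e2, rfl⟩,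
    fun i e1 e2 => (hT () i e1 e2).1, fun i e1 e2 => (hT () i e1 e2).2,
    by rw [hP, hPth.zero]; exact hrZ u, by rw [hP, hN, hPth.last]; exact hrZ v⟩
  have hem := hlad T ⟨_, hC.mem 1 (by omega) (by omega)⟩
  obtain ⟨th, t1, t2, t3⟩ : ∃ th : Bool → ℕ, (∀ s, th s < N) ∧
      (∀ s j, Dm D τ sd u v u j s → j ≤ th s) ∧ ∀ s i, Dm D τ sd u v v i s → th s < i := by
    have : ∀ s, ∃ t, t < N ∧ (∀ j, Dm D τ sd u v u j s → j ≤ t) ∧
        ∀ i, Dm D τ sd u v v i s → t < i := by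
      intro s
      by_cases c : ∃ j, Dm D τ sd u v u j s
      · obtain ⟨j, hj⟩ := c
        have e := Nat.findGreatest_spec (P := fun j => Dm D τ sd u v u j s) hj.2.1.le hj
        exact ⟨_, e.2.1, fun j hj => Nat.le_findGreatest hj.2.1.le hj, fun i hi => hno i _ s hi e⟩
      · exact ⟨0, by omega, fun j hj => absurd ⟨j, hj⟩ c, fun i hi => hi.1⟩
    choose th t1 t2 t3 using this
    exact ⟨th, t1, t2, t3⟩
  have l0 : ∀ s, lane τ N P s 0 = (D.root u, .vx) := fun s => by rw [lane_zero, hP, hPth.zero]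
  have lN : ∀ s, lane τ N P s N = (D.root v, .vx) := fun s => by
    rw [lane_last, hP, hN, hPth.last]
  set B : X × Kd → Set (X × Kd) := fun n => {c |
    (n = (D.root u, .vx) ∧ ∃ s i, i ≤ th s ∧ c = lane τ N P s i) ∨
    (n = (D.root v, .vx) ∧ ∃ s i, th s < i ∧ i ≤ N ∧ c = lane τ N P s i) ∨
    (c = n ∧ (n.2 = .vx ∨ ∃ b, n.2 = .bk b))} with hB
  have hs : ∀ a b, LS T τ sd a b → LS T τ sd b a := fun _ _ h => h.symm
  set H' : SimpleGraph (X × Kd) :=
    SimpleGraph.fromRel fun n m => ∃ a ∈ B n, ∃ b ∈ B m, LS T τ sd a b with hH'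
  have hadj : ∀ n m, n.1 ≠ m.1 → (∃ a ∈ B n, ∃ b ∈ B m, LS T τ sd a b) → H'.Adj n m :=
    fun n m e h => (SimpleGraph.fromRel_adj _ _ _).2 ⟨fun c => e (by rw [c]), Or.inl h⟩
  have huv' : H'.Adj (D.root u, .vx) (D.root v, .vx) :=
    hadj _ _ (fun e => huv.ne (D.rinj e)) ⟨_, Or.inl ⟨rfl, false, _, le_rfl, rfl⟩, _,
      Or.inr (Or.inl ⟨rfl, false, _, Nat.lt_succ_self _, t1 false, rfl⟩),
      hC.lane_adj h2 false (t1 false)⟩
  have hl3 : ∀ s i, i ≤ N → ((lane τ N P s i).2 = .vx ∨ ∃ b, (lane τ N P s i).2 = .bk b) →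
      i = 0 ∨ i = N := by
    intro s i hi h
    by_contra c
    rw [lane_mid (by omega) (by omega)] at h
    simp at h
  have hem' : Em S Finset.univ H'.Adj := by
    refine em_sets hem B ?_ ?_ ?_ ⟨_, _, huv'.ne, huv'⟩
    · have k12 : ∀ s i s' i', i ≤ th s → th s' < i' → i' ≤ N →
          lane τ N P s i ≠ lane τ N P s' i' := by
        intro s i s' i' e1 e2 e3 e
        have := t1 s
        obtain rfl := hPth.inj i (by omega) i' e3 (congrArg Prod.fst e)
        rw [lane_mid (by omega) (by omega), lane_mid (by omega) (by omega)] at e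
        obtain rfl : s = s' := by simpa using e
        omega
      rintro n n' c (⟨rfl, s, i, e1, rfl⟩ | ⟨rfl, s, i, e1, e2, rfl⟩ | ⟨rfl, e1⟩)
        (⟨rfl, s', i', f1, f3⟩ | ⟨rfl, s', i', f1, f2, f3⟩ | ⟨f3, f1⟩)
      · rfl
      · exact absurd f3 (k12 _ _ _ _ e1 f1 f2)
      · have := t1 s
        rw [← f3] at f1 ⊢
        rw [show i = 0 by have := hl3 s i (by omega) f1; omega, l0]
      · exact absurd f3.symm (k12 _ _ _ _ f1 e1 e2)
      · rfl
      · rw [← f3] at f1 ⊢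
        rw [show i = N by have := hl3 s i e2 f1; omega, lN]
      · have := t1 s'
        rw [f3] at e1 ⊢
        rw [show i' = 0 by have := hl3 s' i' (by omega) e1; omega, l0]
      · rw [f3] at e1 ⊢
        rw [show i' = N by have := hl3 s' i' f2 e1; omega, lN]
      · exact f3
    · have base : ∀ n, ∀ c ∈ B n, ConnIn (LS T τ sd) (B n) n c := by
        rintro n c (⟨rfl, s, i, e1, rfl⟩ | ⟨rfl, s, i, e1, e2, rfl⟩ | ⟨rfl, -⟩)
        · have := t1 s
          have := conn_seq (R := LS T τ sd) (T := B (D.root u, .vx)) (lane τ N P s) (Nat.zero_le i)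
            (fun r _ c => Or.inl ⟨rfl, s, r, by omega, rfl⟩)
            fun r _ c => hC.lane_adj h2 s (by omega)
          rwa [l0] at this
        · have := conn_seq (R := LS T τ sd) (T := B (D.root v, .vx)) (lane τ N P s) e2
            (fun r _ c => Or.inr (Or.inl ⟨rfl, s, r, by omega, c, rfl⟩))
            fun r _ c => hC.lane_adj h2 s c
          rw [lN] at this
          exact this.symm hs
        · exact .refl
      exact fun n a ha b hb => ((base n a ha).symm hs).trans (base n b hb)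
    · intro n m _ h
      rcases ((SimpleGraph.fromRel_adj _ _ _).1 h).2 with h | ⟨a, ha, b, hb, h⟩
      · exact h
      · exact ⟨b, hb, a, ha, h.symm⟩
  obtain ⟨lf, f1, f2, f3⟩ : ∃ lf : Bool → X → X × Kd, (∀ b x, (lf b x).1 = x) ∧
      (∀ b x, x ∉ T.Z → lf b x = (x, .vx)) ∧ ∀ b x, x ∈ T.Z → lf b x = (x, .bk b) :=
    ⟨fun b x => (x, if x ∈ T.Z then .bk b else .vx), fun _ _ => rfl,
      fun b x h => by simp only [if_neg h], fun b x h => by simp only [if_pos h]⟩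
  have hlB : ∀ b x, lf b x ∈ B (lf b x) := by
    intro b x
    refine Or.inr (Or.inr ⟨rfl, ?_⟩)
    by_cases c : x ∈ T.Z
    · exact Or.inr ⟨b, by rw [f3 b x c]⟩
    · exact Or.inl (by rw [f2 b x c])
  have hout : ∀ b x y, D.H.Adj x y → T.At sd x y (lf b x) → T.At sd y x (lf b y) →
      H'.Adj (lf b x) (lf b y) := fun b x y h e1 e2 =>
    hadj _ _ (by rw [f1, f1]; exact h.ne) ⟨_, hlB b x, _, hlB b y, Or.inl (.out h e1 e2)⟩
  have hat : ∀ b x y, x ∉ T.Z → T.At sd x y (lf b x) := fun b x y h => Or.inl ⟨h, f2 b x h⟩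
  have hlift : ∀ b c d, G.Adj c d →
      (∀ k < D.n s(c, d), H'.Adj (lf b (D.p c d k)) (lf b (D.p c d (k + 1)))) →
      Pth H'.Adj (D.root c, .vx) (D.root d, .vx) (D.n s(c, d)) fun k => lf b (D.p c d k) :=
    fun b c d h e => ⟨by rw [(D.pth c d h).zero, f2 _ _ (hrZ c)],
      by rw [(D.pth c d h).last, f2 _ _ (hrZ d)], e, fun i hi j hj e' =>
        (D.pth c d h).inj i hi j hj (by simpa only [f1] using congrArg Prod.fst e')⟩
  have main : ∀ e, ∃ b : Bool, e ∈ G.edgeSet → ∃ c d, s(c, d) = e ∧ ∃ n,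
      (n ≤ D.n e ∧ (e = s(u, v) → n = 1)) ∧ ∃ p, Pth H'.Adj (D.root c, .vx) (D.root d, .vx) n p ∧
        ∀ i, 0 < i → i < n → p i ∈ lf b '' D.C e := by
    intro e
    by_cases he : e ∈ G.edgeSet
    swap
    · exact ⟨true, fun h => absurd h he⟩
    by_cases heq : e = s(u, v)
    · refine ⟨true, fun _ => ⟨u, v, heq.symm, 1, ⟨by rw [heq]; omega, fun _ => rfl⟩,
        fun k => if k = 0 then (D.root u, .vx) else (D.root v, .vx), ⟨rfl, rfl, fun i hi => ?_,
          fun i hi j hj e' => ?_⟩, fun i _ _ => by omega⟩⟩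
      · obtain rfl : i = 0 := by omega
        exact huv'
      · by_contra c
        have : (i = 0 ∧ j = 1) ∨ (i = 1 ∧ j = 0) := by omega
        rcases this with ⟨rfl, rfl⟩ | ⟨rfl, rfl⟩
        · exact huv'.ne e'
        · exact huv'.ne e'.symm
    obtain ⟨o, w, rfl, ho⟩ : ∃ o w, s(o, w) = e ∧ (o ∈ s(u, v) ∨ ∀ x ∈ D.C e, x ∉ T.Z) := by
      by_cases c : ∃ x ∈ D.C e, x ∈ T.Z
      · obtain ⟨x, x1, x2⟩ := c
        obtain ⟨o, o1, o2⟩ := D.sh _ _ x x1 (hZC x x2)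
        exact ⟨o, _, Sym2.other_spec o1, Or.inl o2⟩
      · induction e using Sym2.ind with
        | _ a b => exact ⟨a, b, rfl, Or.inr fun x x1 x2 => c ⟨x, x1, x2⟩⟩
    have how : G.Adj o w := he
    have hp := D.pth o w how
    by_cases hm : ∃ m, 0 < m ∧ m < D.n s(o, w) ∧ D.p o w m ∈ T.Z
    swap
    · have hz : ∀ k ≤ D.n s(o, w), D.p o w k ∉ T.Z := by
        intro k hk c
        refine hm ⟨k, Nat.pos_of_ne_zero ?_, lt_of_le_of_ne hk ?_, c⟩ <;> rintro rfl
        · exact hrZ o (hp.zero ▸ c)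
        · exact hrZ w (hp.last ▸ c)
      exact ⟨true, fun _ => ⟨o, w, rfl, _, ⟨le_rfl, fun h => absurd h heq⟩, _,
        hlift true o w how fun k hk => hout _ _ _ (hp.adj k hk) (hat _ _ _ (hz k hk.le))
          (hat _ _ _ (hz _ hk)), fun i e1 e2 => ⟨_, D.sub o w how i e1 e2, rfl⟩⟩⟩
    obtain ⟨m, m0, m1, m2⟩ := hm
    replace ho := ho.resolve_right fun h => h _ (D.sub o w how m m0 m1) m2
    obtain ⟨-, i, i0, i1, hi⟩ := (hZ _).1 m2
    have hmeet := fun k r => D.meet huv how ho heq m0 m1 i0 i1 hi.symm (k := k) (r := r)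
    have hz : ∀ k ≤ D.n s(o, w), k ≠ m → D.p o w k ∉ T.Z := by
      intro k hk c h
      obtain ⟨-, r, -, r1, hr⟩ := (hZ _).1 h
      obtain rfl := (hmeet k r hk r1.le hr.symm).resolve_left c
      exact hrZ o (hp.zero ▸ h)
    have g1 : D.p o w (m + 1) ≠ P (i - 1) := fun c => by
      have := hmeet _ _ m1 (by omega) c
      omega
    have g2 : D.p o w (m + 1) ≠ P (i + 1) := fun c => by
      have := hmeet _ _ m1 i1 c
      omega
    set b := sd (P i) (P (i - 1)) (P (i + 1)) (D.p o w (m + 1)) with hb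
    have g3 : lf b (D.p o w m) = (P i, .bk b) := by rw [f3 _ _ m2, hi]
    have g4 : T.At sd (D.p o w m) (D.p o w (m + 1)) (lf b (D.p o w m)) := by
      rw [g3, ← hi]
      exact hC.at i0 i1 g1 g2
    have far : ∀ k < D.n s(o, w), k + 1 ≠ m →
        H'.Adj (lf b (D.p o w k)) (lf b (D.p o w (k + 1))) := by
      intro k hk c
      refine hout _ _ _ (hp.adj k hk) ?_ (hat _ _ _ (hz _ hk c))
      by_cases c' : k = m
      · rw [c']
        exact g4
      · exact hat _ _ _ (hz k hk.le c')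
    by_cases ht : D.p o w (m - 1) ≠ P (i - 1) ∧ D.p o w (m - 1) ≠ P (i + 1) ∧
        gs τ sd P i (D.p o w (m - 1)) = gs τ sd P i (D.p o w (m + 1))
    · refine ⟨b, fun _ => ⟨o, w, rfl, _, ⟨le_rfl, fun h => absurd h heq⟩, _,
        hlift b o w how fun k hk => ?_, fun i e1 e2 => ⟨_, D.sub o w how i e1 e2, rfl⟩⟩⟩
      by_cases c : k + 1 = m
      · refine hout _ _ _ (hp.adj k hk) (hat _ _ _ (hz k hk.le (by omega))) ?_
        have e1 : sd (P i) (P (i - 1)) (P (i + 1)) (D.p o w (m - 1)) = b := by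
          simpa [gs] using ht.2.2
        rw [c, g3, ← hi, show k = m - 1 by omega, ← e1]
        exact hC.at i0 i1 ht.1 ht.2.1
      · exact far k hk c
    have hdm : Dm D τ sd u v o i (gs τ sd P i (D.p o w (m + 1))) :=
      ⟨i0, i1, w, m, how, heq, m0, m1, hi.symm, rfl, ht⟩
    have g5 : H'.Adj (D.root o, .vx) (lf b (D.p o w m)) := by
      refine hadj _ _ ?_ ⟨lane τ N P (gs τ sd P i (D.p o w (m + 1))) i, ?_, _, hlB b _, ?_⟩
      · rw [f1]
        exact fun c => hrZ o (by rw [show D.root o = D.p o w m from c]; exact m2)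
      · rcases Sym2.mem_iff.1 ho with rfl | rfl
        · exact Or.inl ⟨rfl, _, _, t2 _ _ hdm, rfl⟩
        · exact Or.inr (Or.inl ⟨rfl, _, _, t3 _ _ hdm, i1.le, rfl⟩)
      · rw [g3]
        exact hC.blk i0 i1 (by rw [hi]; exact hp.adj m m1) g1 g2
    refine ⟨b, fun _ => ⟨o, w, rfl, D.n s(o, w) - m + 1, ⟨by omega, fun h => absurd h heq⟩,
      fun k => lf b (D.p o w (if k = 0 then 0 else m + k - 1)), ⟨?_, ?_, fun k hk => ?_,
        fun k hk k' hk' e' => ?_⟩, fun k e1 e2 => ⟨_, ?_, rfl⟩⟩⟩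
    · simp only [if_true, hp.zero, f2 _ _ (hrZ o)]
    · rw [if_neg (by omega), show m + (D.n s(o, w) - m + 1) - 1 = D.n s(o, w) by omega, hp.last,
        f2 _ _ (hrZ w)]
    · rcases Nat.eq_zero_or_pos k with rfl | k0
      · simpa [hp.zero, f2 _ _ (hrZ o)] using g5
      · rw [if_neg (by omega), if_neg (by omega), show m + (k + 1) - 1 = m + k - 1 + 1 by omega]
        exact far _ (by omega) (by omega)
    · have := hp.inj (if k = 0 then 0 else m + k - 1) (by split_ifs <;> omega)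
        (if k' = 0 then 0 else m + k' - 1) (by split_ifs <;> omega)
        (by simpa only [f1] using congrArg Prod.fst e')
      split_ifs at this <;> omega
    · rw [if_neg (by omega)]
      exact D.sub o w how _ (by omega) (by omega)
  choose bb hbb using main
  have hfst : ∀ e, ∀ x ∈ lf (bb e) '' D.C e, x.1 ∈ D.C e := by
    rintro e _ ⟨x, hx, rfl⟩
    rwa [f1]
  obtain ⟨D', -, hD⟩ := exists_pd (G := G) H' (fun a => (D.root a, .vx))
    (fun e => lf (bb e) '' D.C e) (fun e n => n ≤ D.n e ∧ (e = s(u, v) → n = 1)) hem'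
    (fun a b e => D.rinj (congrArg Prod.fst e))
    (fun e x hx ⟨a, ha⟩ => D.nr e _ (hfst e x hx) ⟨a, by rw [← ha]⟩)
    (fun e f x h1 h2 => D.sh e f _ (hfst e x h1) (hfst f x h2))
    (by
      rintro e f hef _ _ ⟨x, hx, rfl⟩ h2 ⟨y, hy, rfl⟩ h4
      have a1 := hfst f _ h2
      have a2 := hfst f _ h4
      rw [f1] at a1 a2
      rw [D.one e f hef x y hx a1 hy a2]) hbb
  exact ⟨D', hD⟩

end Pool.Agent.Lib.OG59
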