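import Mathlib
import Pool.Agent.Lib.OG59.Clear

set_option autoImplicit false

open Set Function

namespace Pool.Agent.Lib.OG59

open Pool.Agent.Lib.MP_15a8b6_co Pool.Agent.Lib.EU59

/-- The branch set of the node `r` of the lane `x`. -/
def Brs (i j x r a : ℕ) : Prop :=
  (a = 3 ∧ (r < i ∨ (x = 1 ∧ r = i))) ∨ (a = 1 ∧ x = 0 ∧ i ≤ r ∧ r < j) ∨
    (a = 2 ∧ x = 0 ∧ r = j) ∨ (a = 4 ∧ (j < r ∨ (x = 1 ∧ i < r)))

/-- Five branch sets in a ladder with two feeders. -/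
theorem five_local {Y : Type*} {R : Y → Y → Prop} (hs : ∀ a b, R a b → R b a) (L : ℕ → ℕ → Y)
    (M γ φ : ℕ → Y) {N i j mg mf : ℕ} (hi : 0 < i) (hij : i < j) (hj : j < N) (g0 : 0 < mg)
    (f0 : 0 < mf) (hL : ∀ x r, r < N → R (L x r) (L x (r + 1))) (hL0 : ∀ x, L x 0 = φ 0)
    (hLN : ∀ x, L x N = γ 0)
    (hLi : ∀ x x' r r', x ≤ 1 → x' ≤ 1 → r ≤ N → r' ≤ N → L x r = L x' r' →
      r = r' ∧ (x = x' ∨ r = 0 ∨ r = N))
    (hM : ∀ r, 0 < r → r + 1 < N → R (M r) (M (r + 1)))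
    (hML : ∀ x r, 0 < r → r < N → R (L x r) (M r))
    (hγ : ∀ k < mg, R (γ k) (γ (k + 1))) (hγL : R (L 0 i) (γ mg))
    (hφ : ∀ k < mf, R (φ k) (φ (k + 1))) (hφL : R (L 0 j) (φ mf))
    (d1 : ∀ r x r', M r ≠ L x r') (d2 : ∀ r k, M r ≠ γ k) (d3 : ∀ r k, M r ≠ φ k)
    (d4 : ∀ k x r, 0 < k → k ≤ mg → r ≤ N → γ k ≠ L x r)
    (d5 : ∀ k x r, 0 < k → k ≤ mf → r ≤ N → φ k ≠ L x r)
    (d6 : ∀ k k', 0 < k → k ≤ mg → 0 < k' → k' ≤ mf → γ k ≠ φ k') :
    ∃ B : Fin 5 → Set Y, (∀ a, ∀ c ∈ B a, (∃ r ≤ N, c = M r) ∨ (∃ x, ∃ r ≤ N, c = L x r) ∨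
        (∃ k ≤ mg, c = γ k) ∨ ∃ k ≤ mf, c = φ k) ∧
      (∀ a a' c, c ∈ B a → c ∈ B a' → a = a') ∧
      (∀ a, ∀ c ∈ B a, ∀ c' ∈ B a, ConnIn R (B a) c c') ∧
      ∀ a a', a ≠ a' → ∃ c ∈ B a, ∃ c' ∈ B a', R c c' := by
  set B : Fin 5 → Set Y := fun a => {c | (a.1 = 0 ∧ ∃ r, i ≤ r ∧ r ≤ j ∧ c = M r) ∨
    (∃ x r, x ≤ 1 ∧ r ≤ N ∧ Brs i j x r a.1 ∧ c = L x r) ∨
    (a.1 = 1 ∧ ∃ k, 0 < k ∧ k ≤ mg ∧ c = γ k) ∨ (a.1 = 2 ∧ ∃ k, 0 < k ∧ k ≤ mf ∧ c = φ k)} with hB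
  have bM : ∀ r, i ≤ r → r ≤ j → M r ∈ B 0 := fun r e1 e2 => Or.inl ⟨rfl, r, e1, e2, rfl⟩
  have bL : ∀ (a : Fin 5) x r, x ≤ 1 → r ≤ N → Brs i j x r a.1 → L x r ∈ B a :=
    fun a x r e1 e2 e3 => Or.inr (Or.inl ⟨x, r, e1, e2, e3, rfl⟩)
  have bγ : ∀ k, 0 < k → k ≤ mg → γ k ∈ B 1 :=
    fun k e1 e2 => Or.inr (Or.inr (Or.inl ⟨rfl, k, e1, e2, rfl⟩))
  have bφ : ∀ k, 0 < k → k ≤ mf → φ k ∈ B 2 :=
    fun k e1 e2 => Or.inr (Or.inr (Or.inr ⟨rfl, k, e1, e2, rfl⟩))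
  have v0 : (0 : Fin 5).1 = 0 := rfl
  have v1 : (1 : Fin 5).1 = 1 := rfl
  have v2 : (2 : Fin 5).1 = 2 := rfl
  have v3 : (3 : Fin 5).1 = 3 := rfl
  have v4 : (4 : Fin 5).1 = 4 := rfl
  have s1 : L 0 i ∈ B 1 := bL 1 0 i (by omega) (by omega) (by unfold Brs; omega)
  have s2 : L 0 j ∈ B 2 := bL 2 0 j (by omega) (by omega) (by unfold Brs; omega)
  refine ⟨B, ?_, ?_, ?_, ?_⟩
  · rintro a c (⟨-, r, -, e, rfl⟩ | ⟨x, r, -, e, -, rfl⟩ | ⟨-, k, -, e, rfl⟩ | ⟨-, k, -, e, rfl⟩)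
    · exact Or.inl ⟨r, by omega, rfl⟩
    · exact Or.inr (Or.inl ⟨x, r, e, rfl⟩)
    · exact Or.inr (Or.inr (Or.inl ⟨k, e, rfl⟩))
    · exact Or.inr (Or.inr (Or.inr ⟨k, e, rfl⟩))
  · rintro a a' c
      (⟨a1, r, -, -, rfl⟩ | ⟨x, r, a1, a2, a3, rfl⟩ | ⟨a1, k, a2, a3, rfl⟩ | ⟨a1, k, a2, a3, rfl⟩)
      (⟨b1, r', -, -, e⟩ | ⟨x', r', b1, b2, b3, e⟩ | ⟨b1, k', b2, b3, e⟩ | ⟨b1, k', b2, b3, e⟩)
    · omega
    · exact absurd e (d1 _ _ _)
    · exact absurd e (d2 _ _)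
    · exact absurd e (d3 _ _)
    · exact absurd e.symm (d1 _ _ _)
    · have := hLi x x' r r' a1 b1 a2 b2 e
      unfold Brs at a3 b3
      omega
    · exact absurd e.symm (d4 _ _ _ b2 b3 a2)
    · exact absurd e.symm (d5 _ _ _ b2 b3 a2)
    · exact absurd e.symm (d2 _ _)
    · exact absurd e (d4 _ _ _ a2 a3 b2)
    · omega
    · exact absurd e (d6 _ _ a2 a3 b2 b3)
    · exact absurd e.symm (d3 _ _)
    · exact absurd e (d5 _ _ _ a2 a3 b2)
    · exact absurd e.symm (d6 _ _ b2 b3 a2 a3)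
    · omega
  · have base : ∀ a, ∃ b, ∀ c ∈ B a, ConnIn R (B a) b c := by
      intro a
      refine ⟨if a.1 = 0 then M i else if a.1 = 1 then L 0 i else if a.1 = 2 then L 0 j else
        if a.1 = 3 then φ 0 else γ 0, ?_⟩
      rintro c (⟨a1, r, a2, a3, rfl⟩ | ⟨x, r, a1, a2, a3, rfl⟩ | ⟨a1, k, a2, a3, rfl⟩ |
        ⟨a1, k, a2, a3, rfl⟩)
      · obtain rfl : a = 0 := Fin.ext a1
        exact conn_seq M a2 (fun r e1 e2 => bM r e1 (by omega)) fun r e1 e2 =>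
          hM r (by omega) (by omega)
      · rcases a3 with ⟨e, a3⟩ | ⟨e, rfl, a3⟩ | ⟨e, rfl, rfl⟩ | ⟨e, a3⟩
        · obtain rfl : a = 3 := Fin.ext e
          have := conn_seq (R := R) (T := B 3) (L x) (Nat.zero_le r)
            (fun r' _ e2 => bL 3 x r' a1 (by omega) (by unfold Brs; omega))
            fun r' _ e2 => hL x r' (by omega)
          rwa [hL0] at this
        · obtain rfl : a = 1 := Fin.ext e
          exact conn_seq (L 0) a3.1 (fun r' _ e2 => bL 1 0 r' a1 (by omega) (by unfold Brs; omega))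
            fun r' _ e2 => hL 0 r' (by omega)
        · obtain rfl : a = 2 := Fin.ext e
          exact .refl
        · obtain rfl : a = 4 := Fin.ext e
          have := conn_seq (R := R) (T := B 4) (L x) a2
            (fun r' _ e2 => bL 4 x r' a1 e2 (by unfold Brs; omega))
            fun r' _ e2 => hL x r' e2
          rw [hLN] at this
          exact this.symm hs
      · obtain rfl : a = 1 := Fin.ext a1
        exact .head ⟨hγL, s1, bγ mg g0 le_rfl⟩ ((conn_seq γ a3 (fun r e1 e2 => bγ r (by omega) e2)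
          fun r _ e2 => hγ r e2).symm hs)
      · obtain rfl : a = 2 := Fin.ext a1
        exact .head ⟨hφL, s2, bφ mf f0 le_rfl⟩ ((conn_seq φ a3 (fun r e1 e2 => bφ r (by omega) e2)
          fun r _ e2 => hφ r e2).symm hs)
    intro a c hc c' hc'
    obtain ⟨b, hb⟩ := base a
    exact ((hb c hc).symm hs).trans (hb c' hc')
  · have key : ∀ a a' : Fin 5, a < a' → ∃ c ∈ B a', ∃ c' ∈ B a, R c c' := by
      have step : ∀ (a a' : Fin 5) x r, x ≤ 1 → r < N → Brs i j x r a.1 → Brs i j x (r + 1) a'.1 →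
          ∃ c ∈ B a, ∃ c' ∈ B a', R c c' := fun a a' x r e1 e2 e3 e4 =>
        ⟨_, bL a x r e1 e2.le e3, _, bL a' x _ e1 e2 e4, hL x r e2⟩
      have sw : ∀ a a' : Fin 5, (∃ c ∈ B a, ∃ c' ∈ B a', R c c') →
          ∃ c ∈ B a', ∃ c' ∈ B a, R c c' := fun a a' ⟨c, e1, c', e2, e3⟩ =>
        ⟨c', e2, c, e1, hs _ _ e3⟩
      intro a a' h
      fin_cases a <;> fin_cases a' <;> simp only [Fin.lt_def] at h <;> try omega
      · exact ⟨_, s1, _, bM i le_rfl hij.le, hML 0 i hi (by omega)⟩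
      · exact ⟨_, s2, _, bM j hij.le le_rfl, hML 0 j (by omega) hj⟩
      · exact ⟨_, bL 3 1 i le_rfl (by omega) (by unfold Brs; omega), _, bM i le_rfl hij.le,
          hML 1 i hi (by omega)⟩
      · exact ⟨_, bL 4 1 j le_rfl (by omega) (by unfold Brs; omega), _, bM j hij.le le_rfl,
          hML 1 j (by omega) hj⟩
      · exact sw _ _ (step 1 2 0 (j - 1) (by omega) (by omega) (by unfold Brs; omega)
          (by unfold Brs; omega))
      · exact step 3 1 0 (i - 1) (by omega) (by omega) (by unfold Brs; omega)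
          (by unfold Brs; omega)
      · exact ⟨_, hLN 0 ▸ bL 4 0 N (by omega) le_rfl (by unfold Brs; omega), _, bγ 1 one_pos g0,
          hγ 0 g0⟩
      · exact ⟨_, hL0 0 ▸ bL 3 0 0 (by omega) (by omega) (by unfold Brs; omega), _,
          bφ 1 one_pos f0, hφ 0 f0⟩
      · exact sw _ _ (step 2 4 0 j (by omega) hj (by unfold Brs; omega) (by unfold Brs; omega))
      · exact sw _ _ (step 3 4 1 i le_rfl (by omega) (by unfold Brs; omega) (by unfold Brs; omega))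
    intro a a' h
    rcases lt_or_gt_of_ne h with h | h
    · obtain ⟨c, e1, c', e2, e3⟩ := key a a' h
      exact ⟨c', e2, c, e1, hs _ _ e3⟩
    · exact key a' a h

variable {S : Type*} [TopologicalSpace S] {X V : Type*}

/-- A path that arrives at an inner point of a passage, as a path in the ladder. -/
theorem feeder {H : SimpleGraph X} {T : Thr H} (τ : X → X → Bool) (sd : X → X → X → X → Bool)
    {N m i : ℕ} {P q : ℕ → X} (hC : Cmp T N P) (i0 : 0 < i) (i1 : i < N) (m0 : 0 < m)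
    (hq : ∀ k < m, H.Adj (q k) (q (k + 1))) (he : q m = P i) (hZ : ∀ k < m, q k ∉ T.Z)
    (hr : ∀ k, 0 < k → k < m → q k ≠ P 0 ∧ q k ≠ P N) (h1 : q (m - 1) ≠ P (i - 1))
    (h2 : q (m - 1) ≠ P (i + 1)) :
    ∃ γ : ℕ → X × Kd, γ 0 = (q 0, .vx) ∧ (∀ k, (γ k).1 = q k ∧ (γ k).2 ≠ .md) ∧
      (∀ k < m, LS T τ sd (γ k) (γ (k + 1))) ∧
      LS T τ sd (lane τ N P (gs τ sd P i (q (m - 1))) i) (γ m) ∧
      ∀ k s r, 0 < k → k ≤ m → γ k ≠ lane τ N P s r := by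
  refine ⟨fun k => (q k, if k = m then .bk (sd (P i) (P (i - 1)) (P (i + 1)) (q (m - 1)))
    else .vx), by simp only [if_neg m0.ne], fun k => ⟨rfl, by dsimp only; split_ifs <;> simp⟩,
    fun k hk => Or.inl (.out (hq k hk) (Or.inl ⟨hZ k hk, by simp only [if_neg hk.ne]⟩) ?_), ?_,
    fun k s r k0 k1 e => ?_⟩
  · by_cases c : k + 1 = m
    · dsimp only
      rw [if_pos c, c, he, show k = m - 1 by omega]
      exact hC.at i0 i1 h1 h2
    · exact Or.inl ⟨hZ _ (by omega), by simp only [if_neg c]⟩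
  · dsimp only
    rw [if_pos rfl, he]
    refine hC.blk i0 i1 ?_ h1 h2
    have := hq (m - 1) (by omega)
    rw [show m - 1 + 1 = m by omega, he] at this
    exact this.symm
  · rw [lane, Prod.mk.injEq] at e
    obtain ⟨e1, e2⟩ := e
    by_cases c : k = m
    · rw [if_pos c] at e2
      split_ifs at e2
    · rw [if_neg c] at e2
      split_ifs at e2 with c'
      rcases c' with rfl | rfl
      · exact (hr k k0 (by omega)).1 e1
      · exact (hr k k0 (by omega)).2 e1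

variable [Fintype X] {G : SimpleGraph V} {τ : X → X → Bool} {sd : X → X → X → X → Bool}

theorem five [T2Space S] [ChartedSpace E2 S] (D : PD S G X)
    (hlad : ∀ T : Thr D.H, T.Z.Nonempty → Em S Finset.univ (LS T τ sd))
    (htri : ∀ a b c, G.Adj a b → G.Adj b c → G.Adj c a → 2 ≤ D.n s(a, b) → 2 ≤ D.n s(b, c) →
      2 ≤ D.n s(c, a) → False) {ι : Type*} [Fintype ι] [Nonempty ι] (u v : ι → V)
    (huv : ∀ t, G.Adj (u t) (v t)) (W : ∀ t, Wr D τ sd (u t) (v t))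
    (hd : ∀ t t', ∀ a ∈ ({(W t).z, u t, v t, (W t).w} : Set V),
      a ∈ ({(W t').z, u t', v t', (W t').w} : Set V) → t = t') :
    Em S Finset.univ fun a b : ι × Fin 5 => a.1 = b.1 := by
  set vs : ι → Set V := fun t => {(W t).z, u t, v t, (W t).w} with hvs
  set Sup : ι → X → Prop := fun t x => ∃ a ∈ vs t, x = D.root a ∨ ∃ b ∈ vs t, x ∈ D.C s(a, b)
    with hSup
  have hsd : ∀ t t' x, Sup t x → Sup t' x → t = t' := by
    rintro t t' x ⟨a, a1, rfl | ⟨b, a2, a3⟩⟩ ⟨a', b1, e | ⟨b', b2, b3⟩⟩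
    · exact hd t t' a a1 (D.rinj e ▸ b1)
    · exact absurd ⟨a, rfl⟩ (D.nr _ _ b3)
    · exact absurd ⟨a', e.symm⟩ (D.nr _ _ a3)
    · obtain ⟨c, c1, c2⟩ := D.sh _ _ x a3 b3
      refine hd t t' c ?_ ?_
      · rcases Sym2.mem_iff.1 c1 with rfl | rfl
        exacts [a1, a2]
      · rcases Sym2.mem_iff.1 c2 with rfl | rfl
        exacts [b1, b2]
  have hsp : ∀ t a b, a ∈ vs t → b ∈ vs t → G.Adj a b → ∀ r ≤ D.n s(a, b), Sup t (D.p a b r) := by
    intro t a b ha hb h r hr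
    rcases Nat.eq_zero_or_pos r with rfl | h0
    · exact ⟨a, ha, Or.inl (D.pth a b h).zero⟩
    rcases eq_or_lt_of_le hr with rfl | h1
    · exact ⟨b, hb, Or.inl (D.pth a b h).last⟩
    · exact ⟨a, ha, Or.inr ⟨b, hb, D.sub a b h r h0 h1⟩⟩
  have mu : ∀ t, u t ∈ vs t := fun t => by simp [hvs]
  have mv : ∀ t, v t ∈ vs t := fun t => by simp [hvs]
  have mz : ∀ t, (W t).z ∈ vs t := fun t => by simp [hvs]
  have mw : ∀ t, (W t).w ∈ vs t := fun t => by simp [hvs]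
  obtain ⟨T, hZ, hT⟩ := exists_thr (H := D.H) (fun t => D.n s(u t, v t))
    (fun t => D.p (u t) (v t)) (fun t => D.pth _ _ (huv t)) fun t t' i i' _ e1 _ e2 e =>
      hsd t t' _ (hsp t _ _ (mu t) (mv t) (huv t) i e1.le)
        (e ▸ hsp t' _ _ (mu t') (mv t') (huv t') i' e2.le)
  have hrZ : ∀ a, D.root a ∉ T.Z := fun a h => by
    obtain ⟨t, i, e1, e2, e3⟩ := (hZ _).1 h
    exact D.nr _ _ (D.sub _ _ (huv t) i e1 e2) ⟨a, e3.symm⟩
  have hC : ∀ t, Cmp T (D.n s(u t, v t)) (D.p (u t) (v t)) := fun t =>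
    ⟨fun i e1 e2 => (hZ _).2 ⟨t, i, e1, e2, rfl⟩, fun i e1 e2 => (hT t i e1 e2).1,
      fun i e1 e2 => (hT t i e1 e2).2, by rw [(D.pth _ _ (huv t)).zero]; exact hrZ _,
      by rw [(D.pth _ _ (huv t)).last]; exact hrZ _⟩
  have hs : ∀ a b, LS T τ sd a b → LS T τ sd b a := fun _ _ h => h.symm
  have feed : ∀ t o w m i, o ∈ s(u t, v t) → w ∈ vs t → G.Adj o w → s(o, w) ≠ s(u t, v t) →
      0 < m → m < D.n s(o, w) → 0 < i → i < D.n s(u t, v t) → D.p o w m = D.p (u t) (v t) i →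
      D.p o w (m - 1) ≠ D.p (u t) (v t) (i - 1) → D.p o w (m - 1) ≠ D.p (u t) (v t) (i + 1) →
      ∃ γ : ℕ → X × Kd, γ 0 = (D.p o w 0, .vx) ∧ (∀ k, (γ k).1 = D.p o w k ∧ (γ k).2 ≠ .md) ∧
        (∀ k < m, LS T τ sd (γ k) (γ (k + 1))) ∧
        LS T τ sd (lane τ (D.n s(u t, v t)) (D.p (u t) (v t))
          (gs τ sd (D.p (u t) (v t)) i (D.p o w (m - 1))) i) (γ m) ∧
        ∀ k s r, 0 < k → k ≤ m → γ k ≠ lane τ (D.n s(u t, v t)) (D.p (u t) (v t)) s r := by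
    intro t o w m i ho hw how hne m0 m1 i0 i1 e e1 e2
    have ho' : o ∈ vs t := by
      rcases Sym2.mem_iff.1 ho with rfl | rfl
      exacts [mu t, mv t]
    refine feeder τ sd (hC t) i0 i1 m0 (fun k hk => (D.pth o w how).adj k (by omega)) e
      (fun k hk h => ?_) (fun k k0 k1 => ?_) e1 e2
    · obtain ⟨t', r, r0, r1, hr⟩ := (hZ _).1 h
      obtain rfl := hsd t t' _ (hsp t o w ho' hw how k (by omega))
        (hr ▸ hsp t' _ _ (mu t') (mv t') (huv t') r r1.le)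
      obtain rfl := (D.meet (huv t) how ho hne m0 m1 i0 i1 e (by omega) r1.le hr.symm).resolve_left
        hk.ne
      exact hrZ o ((D.pth o w how).zero ▸ h)
    · have := D.nr _ _ (D.sub o w how k k0 (by omega))
      rw [(D.pth _ _ (huv t)).zero, (D.pth _ _ (huv t)).last]
      exact ⟨fun c => this ⟨_, c.symm⟩, fun c => this ⟨_, c.symm⟩⟩
  have loc : ∀ t, ∃ B : Fin 5 → Set (X × Kd), (∀ a, ∀ c ∈ B a, Sup t c.1) ∧
      (∀ a a' c, c ∈ B a → c ∈ B a' → a = a') ∧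
      (∀ a, ∀ c ∈ B a, ∀ c' ∈ B a, ConnIn (LS T τ sd) (B a) c c') ∧
      ∀ a a', a ≠ a' → ∃ c ∈ B a, ∃ c' ∈ B a', LS T τ sd c c' := by
    intro t
    have hP := D.pth _ _ (huv t)
    have hi := (W t).hi
    have hij := (W t).hij
    have hj := (W t).hj
    have g1 := (W t).g1
    have f1 := (W t).f1
    have g0 := (W t).g0
    have f0 := (W t).f0
    obtain ⟨γ, c0, c1, c2, c3, c4⟩ := feed t (v t) (W t).w _ _ (by simp) (mw t) (W t).hw
      (fun e => by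
        rcases Sym2.eq_iff.1 e with ⟨e, -⟩ | ⟨-, e⟩
        exacts [(huv t).ne e.symm, (W t).hwu e]) g0 g1 hi (by omega) (W t).ge
      (W t).gp (W t).gn
    obtain ⟨φ, e0, e1, e2, e3, e4⟩ := feed t (u t) (W t).z _ _ (by simp) (mz t) (W t).hz
      (fun e => by
        rcases Sym2.eq_iff.1 e with ⟨-, e⟩ | ⟨e, -⟩
        exacts [(W t).hzv e, (huv t).ne e]) f0 f1 (by omega) hj (W t).fe
      (W t).fp (W t).fn
    rw [← (W t).same] at e3
    set σ := gs τ sd (D.p (u t) (v t)) (W t).i (D.p (v t) (W t).w ((W t).mg - 1)) with hσ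
    obtain ⟨B, b1, b2⟩ := five_local hs
      (fun x r => lane τ (D.n s(u t, v t)) (D.p (u t) (v t)) (if x = 0 then σ else !σ) r)
      (fun r => (D.p (u t) (v t) r, .md)) γ φ hi hij hj g0 f0
      (fun x r hr => (hC t).lane_adj (by omega) _ hr)
      (fun x => by rw [lane_zero, e0, hP.zero, (D.pth _ _ (W t).hz).zero])
      (fun x => by rw [lane_last, c0, hP.last, (D.pth _ _ (W t).hw).zero])
      (fun x x' r r' a1 a2 a3 a4 e => by
        obtain rfl := hP.inj r a3 r' a4 (congrArg Prod.fst e)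
        refine ⟨rfl, ?_⟩
        by_contra c
        rw [lane_mid (by omega) (by omega), lane_mid (by omega) (by omega)] at e
        have : (x = 0 ∧ x' = 1) ∨ (x = 1 ∧ x' = 0) := by omega
        rcases this with ⟨rfl, rfl⟩ | ⟨rfl, rfl⟩ <;> simp at e)
      (fun r a1 a2 => (hC t).mid_adj a1 a2) (fun x r a1 a2 => (hC t).rung _ a1 a2) c2 c3 e2 e3
      (fun r x r' e => by
        have := congrArg Prod.snd e
        simp only [lane] at this
        split_ifs at this)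
      (fun r k e => (c1 k).2 (congrArg Prod.snd e).symm)
      (fun r k e => (e1 k).2 (congrArg Prod.snd e).symm)
      (fun k x r a1 a2 _ => c4 k _ r a1 a2) (fun k x r a1 a2 _ => e4 k _ r a1 a2)
      (fun k k' a1 a2 a3 a4 e => by
        have e' := congrArg Prod.fst e
        rw [(c1 k).1, (e1 k').1] at e'
        obtain ⟨x, x1, x2⟩ := D.sh _ _ _ (D.sub _ _ (W t).hw k a1 (by omega))
          (e' ▸ D.sub _ _ (W t).hz k' a3 (by omega))
        rw [Sym2.mem_iff] at x1 x2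
        rcases x1 with rfl | rfl <;> rcases x2 with x2 | x2
        · exact (huv t).ne x2.symm
        · exact (W t).hzv x2.symm
        · exact (W t).hwu x2
        · exact htri _ _ _ (huv t) (W t).hw (x2 ▸ (W t).hz.symm) (by omega) (by omega)
            (by rw [Sym2.eq_swap, x2]; omega))
    refine ⟨B, fun a c hc => ?_, b2⟩
    rcases b1 a c hc with ⟨r, a1, rfl⟩ | ⟨x, r, a1, rfl⟩ | ⟨k, a1, rfl⟩ | ⟨k, a1, rfl⟩
    · exact hsp t _ _ (mu t) (mv t) (huv t) r a1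
    · exact hsp t _ _ (mu t) (mv t) (huv t) r a1
    · rw [(c1 k).1]
      exact hsp t _ _ (mv t) (mw t) (W t).hw k (by omega)
    · rw [(e1 k).1]
      exact hsp t _ _ (mu t) (mz t) (W t).hz k (by omega)
  choose B b1 b2 b3 b4 using loc
  obtain ⟨t⟩ := ‹Nonempty ι›
  refine em_sets (hlad T ⟨_, (hC t).mem (W t).i (W t).hi ((W t).hij.trans (W t).hj)⟩)
    (fun y => B y.1 y.2) ?_ (fun y => b3 y.1 y.2) ?_ ⟨(t, 0), (t, 1), by simp, rfl⟩
  · rintro ⟨s, a⟩ ⟨s', a'⟩ c e1 e2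
    obtain rfl := hsd s s' _ (b1 _ _ _ e1) (b1 _ _ _ e2)
    exact Prod.ext rfl (b2 s a a' c e1 e2)
  · rintro ⟨s, a⟩ ⟨s', a'⟩ e1 e2
    obtain rfl : s = s' := e2
    exact b4 s a a' fun c => e1 (by rw [c])

end Pool.Agent.Lib.OG59
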