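import Mathlib
import Pool.Agent.Lib.EU59.Final
import Pool.Agent.Lib.OG59.Five

set_option autoImplicit false

open Set Function unitInterval

namespace Pool.Agent.Lib.OG59

open Pool.Agent.Lib.MP_15a8b6_co Pool.Agent.Lib.EU59

universe u

variable {S : Type u} [TopologicalSpace S] {V : Type*} {G : SimpleGraph V}

theorem exists_ends (χ : V → Bool) : ∃ c : G.edgeSet → Bool → V, ∀ e : G.edgeSet,
    (e : Sym2 V) = s(c e false, c e true) ∧
      (χ (c e false) ≠ χ (c e true) → ∀ b, χ (c e b) = b) := by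
  have : ∀ e : G.edgeSet, ∃ c : Bool → V, (e : Sym2 V) = s(c false, c true) ∧
      (χ (c false) ≠ χ (c true) → ∀ b, χ (c b) = b) := by
    rintro ⟨e, he⟩
    induction e using Sym2.ind with
    | _ a b =>
      cases h : χ a
      · exact ⟨fun x => if x then b else a, rfl, fun c x => by cases x <;> simp_all⟩
      · exact ⟨fun x => if x then a else b, Sym2.eq_swap, fun c x => by cases x <;> simp_all⟩
  choose c hc using this
  exact ⟨c, hc⟩

theorem drawing_univ {Y : Type*} [Fintype Y] {R : Y → Y → Prop} (h : Em S Finset.univ R) :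
    ∃ D : Drawing (SimpleGraph.fromRel R) S, ∀ e f, e ≠ f → ¬ D.Meet e f := by
  classical
  obtain ⟨c, hc⟩ := exists_ends (G := SimpleGraph.fromRel R) fun _ => true
  refine drawing_of_emb (S := S) injective_id c (fun e => (hc e).1)
    (Emb.mono h.symm_closure (Finset.subset_univ _) ?_)
  rintro _ - _ - - ⟨e, rfl, rfl⟩
  have h1 : s(c e false, c e true) ∈ (SimpleGraph.fromRel R).edgeSet := (hc e).1 ▸ e.2
  exact ((SimpleGraph.fromRel_adj _ _ _).1 h1).2

/-- The case of a bipartite graph of crossed edges. -/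
theorem bip [Fintype V] [T2Space S] [ChartedSpace E2 S] {X : Type*} [Fintype X] (D : PD S G X)
    (χ : V → Bool) (hχ : ∀ a b, G.Adj a b → 2 ≤ D.n s(a, b) → χ a ≠ χ b) [Nonempty V] :
    ∃ D' : Drawing G S, ∀ e f, e ≠ f → ¬ D'.Meet e f := by
  classical
  obtain ⟨c, hc⟩ := exists_ends (G := G) χ
  have hadj : ∀ e, G.Adj (c e false) (c e true) := fun e => by
    have := e.2
    rwa [(hc e).1] at this
  have hb : ∀ e : G.edgeSet, 2 ≤ D.n e → ∀ b, χ (c e b) = b := fun e h =>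
    (hc e).2 (hχ _ _ (hadj e) ((hc e).1 ▸ h))
  have hcol : ∀ x : X, ∃ k : V × Bool, ∀ e : G.edgeSet, 2 ≤ D.n e → x ∈ D.C e →
      ∃ b, k = (c e b, b) := by
    intro x
    have hm : ∀ e f : G.edgeSet, 2 ≤ D.n e ∧ x ∈ D.C e → 2 ≤ D.n f ∧ x ∈ D.C f →
        ∃ b, c e b = c f b := by
      intro e f he hf
      obtain ⟨v, h1, h2⟩ := D.sh _ _ x he.2 hf.2
      have key : ∀ g : G.edgeSet, 2 ≤ D.n g → v ∈ (g : Sym2 V) → c g (χ v) = v := by
        intro g h3 h4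
        rw [(hc g).1, Sym2.mem_iff] at h4
        rcases h4 with rfl | rfl <;> rw [hb g h3]
      exact ⟨χ v, (key e he.1 h1).trans (key f hf.1 h2).symm⟩
    by_cases h1 : ∃ e f : G.edgeSet, (2 ≤ D.n e ∧ x ∈ D.C e) ∧ (2 ≤ D.n f ∧ x ∈ D.C f) ∧ e ≠ f
    · obtain ⟨e, f, he, hf, hef⟩ := h1
      obtain ⟨b, hb⟩ := hm e f he hf
      refine ⟨(c e b, b), fun g g1 g2 => ⟨b, ?_⟩⟩
      by_contra hne
      have h2 : c e b ≠ c g b := fun h => hne (by rw [h])
      obtain ⟨b1, h3⟩ := hm e g he ⟨g1, g2⟩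
      obtain ⟨b2, h4⟩ := hm f g hf ⟨g1, g2⟩
      have h5 : b1 = !b := Bool.eq_not_iff.2 (by rintro rfl; exact h2 h3)
      have h6 : b2 = !b := Bool.eq_not_iff.2 (by rintro rfl; exact h2 (hb.trans h4))
      subst h5 h6
      apply hef
      apply Subtype.ext
      rw [(hc e).1, (hc f).1]
      have h7 := h3.trans h4.symm
      cases b
      · exact congrArg₂ (fun a b => s(a, b)) hb h7
      · exact congrArg₂ (fun a b => s(a, b)) h7 hb
    by_cases h2 : ∃ e : G.edgeSet, 2 ≤ D.n e ∧ x ∈ D.C e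
    · obtain ⟨e, he⟩ := h2
      refine ⟨(c e true, true), fun g g1 g2 => ⟨true, ?_⟩⟩
      rw [show e = g from by_contra fun c => h1 ⟨e, g, he, ⟨g1, g2⟩, c⟩]
    · exact ⟨(Classical.arbitrary V, true), fun g g1 g2 => absurd ⟨g, g1, g2⟩ h2⟩
  choose col hcol using hcol
  refine drawing_of_emb D.rinj c (fun e => (hc e).1) (Linked.minor (Emb S (Sym2 X))
    (fun _ _ _ _ h => h.mono) (fun _ _ _ _ h => h.contract fun _ _ hO hp => exists_disc
      (E := E2) hO hp) D.rinj c _ _ _ col (Nat.lt_succ_self _) D.em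
    ⟨fun _ => Finset.mem_univ _, fun _ _ h => h.symm, fun e => ?_⟩)
  have hp := D.pth _ _ (hadj e)
  have := conn_seq (R := D.H.Adj) (T := {w | ∃ b, w ∈ Cl D.root Finset.univ col (c e b, b)})
    (D.p (c e false) (c e true)) (Nat.zero_le (D.n s(c e false, c e true))) (fun r _ hr => ?_)
    fun r _ hr => hp.adj r hr
  · rwa [hp.zero, hp.last] at this
  rcases Nat.eq_zero_or_pos r with rfl | h0
  · exact ⟨false, Finset.mem_univ _, Or.inl hp.zero⟩
  rcases eq_or_lt_of_le hr with rfl | h1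
  · exact ⟨true, Finset.mem_univ _, Or.inl hp.last⟩
  have h2 := D.sub _ _ (hadj e) r h0 h1
  obtain ⟨b, h3⟩ := hcol _ e (by rw [(hc e).1]; omega) (by rw [(hc e).1]; exact h2)
  exact ⟨b, Finset.mem_univ _, Or.inr ⟨D.nr _ _ h2, h3⟩⟩

/-- There is a walk of length `n` from `a` to `b`. -/
def Wk (K : SimpleGraph V) (n : ℕ) (a b : V) : Prop := ∃ w : K.Walk a b, w.length = n

theorem Wk.trans {K : SimpleGraph V} {n m : ℕ} {a b c : V} (h : Wk K n a b) (h' : Wk K m b c) :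
    Wk K (n + m) a c := by
  obtain ⟨w, rfl⟩ := h
  obtain ⟨w', rfl⟩ := h'
  exact ⟨w.append w', w.length_append w'⟩

theorem Wk.symm {K : SimpleGraph V} {n : ℕ} {a b : V} (h : Wk K n a b) : Wk K n b a := by
  obtain ⟨w, rfl⟩ := h
  exact ⟨w.reverse, w.length_reverse⟩

theorem Wk.one {K : SimpleGraph V} {a b : V} (h : K.Adj a b) : Wk K 1 a b := ⟨h.toWalk, rfl⟩

theorem Wk.zero {K : SimpleGraph V} {a : V} : Wk K 0 a a := ⟨.nil, rfl⟩

/-- A shortest odd closed walk has no short chord walks. -/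
theorem exists_geo (K : SimpleGraph V) (h : ¬ K.Colorable 2) : ∃ (l : ℕ) (c : ℕ → V), Odd l ∧
    Wk K l (c 0) (c 0) ∧ (∀ i < l, K.Adj (c i) (c (i + 1))) ∧
    ∀ a b d, a ≤ b → b ≤ l → Wk K d (c a) (c b) → b ≤ a + d ∨ l + a ≤ b + d := by
  classical
  have h1 : ∃ l, Odd l ∧ ∃ x, Wk K l x x := by
    rw [SimpleGraph.two_colorable_iff_forall_loop_even] at h
    push Not at h
    obtain ⟨x, w, hw⟩ := h
    exact ⟨_, Nat.not_even_iff_odd.1 hw, x, w, rfl⟩
  obtain ⟨ho, x, w, hw⟩ := Nat.find_spec h1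
  have hmin : ∀ n y, Odd n → Wk K n y y → Nat.find h1 ≤ n := fun n y e1 e2 =>
    Nat.find_min' h1 ⟨e1, y, e2⟩
  rw [← hw] at hmin ho
  have hseg : ∀ a n, a + n ≤ w.length → Wk K n (w.getVert a) (w.getVert (a + n)) := by
    intro a n
    induction n with
    | zero => exact fun _ => .zero
    | succ n ih => exact fun hn => (ih (by omega)).trans (.one (w.adj_getVert_succ (by omega)))
  refine ⟨w.length, w.getVert, ho, by rw [w.getVert_zero]; exact ⟨w, rfl⟩,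
    fun i hi => w.adj_getVert_succ hi, fun a b d h2 h3 h4 => ?_⟩
  obtain ⟨n, rfl⟩ := Nat.exists_eq_add_of_le h2
  obtain ⟨m, hm⟩ := Nat.exists_eq_add_of_le h3
  have e1 := fun h => hmin _ _ h ((hseg a n h3).trans h4.symm)
  have e2 := hseg (a + n) m hm.ge
  have e3 := hseg 0 a (by omega)
  rw [← hm, w.getVert_length] at e2
  rw [w.getVert_zero, Nat.zero_add] at e3
  have e4 := fun h => hmin _ _ h ((h4.trans e2).trans e3)
  rw [Nat.odd_iff] at e1 e4 ho
  omega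

theorem main_ind [Fintype V] [Nonempty V] [T2Space S] [ChartedSpace E2 S] (k : ℕ)
    (h5 : ¬ Em S Finset.univ fun a b : Fin (k + 1) × Fin 5 => a.1 = b.1) (K : SimpleGraph V)
    (hK : ∀ (x : V) (w : K.Walk x x), Odd w.length → 4 * k + 5 ≤ w.length) (N : ℕ) :
    ∀ (X : Type u) [Fintype X] (D : PD S G X), ∑ e ∈ G.edgeSet.toFinite.toFinset, D.n e = N →
      (∀ e ∈ G.edgeSet, 2 ≤ D.n e → e ∈ K.edgeSet) →
      ∃ D' : Drawing G S, ∀ e f, e ≠ f → ¬ D'.Meet e f := by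
  induction N using Nat.strong_induction_on with
  | _ N ih =>
  intro X _ D hN hD
  set Kn : SimpleGraph V := ⟨fun a b => G.Adj a b ∧ 2 ≤ D.n s(a, b),
    ⟨fun a b h => ⟨h.1.symm, by rw [Sym2.eq_swap]; exact h.2⟩⟩, ⟨fun a h => h.1.ne rfl⟩⟩ with hKn
  have hle : Kn ≤ K := fun a b h => hD s(a, b) h.1 h.2
  have hodd : ∀ n x, Odd n → Wk Kn n x x → 4 * k + 5 ≤ n := by
    rintro _ x h1 ⟨w, rfl⟩
    have := hK x (w.mapLe hle)
    rw [SimpleGraph.Walk.length_map] at this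
    exact this h1
  have htri : ∀ a b c, G.Adj a b → G.Adj b c → G.Adj c a → 2 ≤ D.n s(a, b) → 2 ≤ D.n s(b, c) →
      2 ≤ D.n s(c, a) → False := fun a b c a1 a2 a3 b1 b2 b3 => by
    have := hodd _ a (by decide) (((Wk.one (K := Kn) ⟨a1, b1⟩).trans (.one ⟨a2, b2⟩)).trans
      (.one ⟨a3, b3⟩))
    omega
  obtain ⟨τ, sd, hlad⟩ := exists_lad D.H D.em
  by_cases hall : ∀ u v, Kn.Adj u v → Nonempty (Wr D τ sd u v)
  swap
  · push Not at hall
    obtain ⟨u, v, huv, hno⟩ := hall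
    obtain ⟨D', hD'⟩ := clear D hlad huv.1 huv.2 fun i j s h1 h2 =>
      not_le.1 fun c => (wr_of_dm D htri huv.1 h1 h2 c).elim hno.false
    refine ih _ ?_ _ D' rfl fun e he h => hD e he (h.trans (hD' e he).1)
    rw [← hN]
    refine Finset.sum_lt_sum (fun e he => (hD' e (by simpa using he)).1) ⟨s(u, v), ?_, ?_⟩
    · simpa using huv.1
    · rw [(hD' _ huv.1).2 rfl]
      exact huv.2
  by_cases hc : Kn.Colorable 2
  · obtain ⟨χ⟩ := hc
    exact bip D (fun a => decide (χ a = 0)) fun a b h1 h2 e => by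
      have := χ.valid (show Kn.Adj a b from ⟨h1, h2⟩)
      have e' : χ a = 0 ↔ χ b = 0 := by simpa using e
      omega
  obtain ⟨l, c, l1, l2, l3, l4⟩ := exists_geo Kn hc
  have hl := hodd _ _ l1 l2
  have hadj : ∀ t : Fin (k + 1), Kn.Adj (c (4 * t)) (c (4 * t + 1)) := fun t => l3 _ (by omega)
  have W := fun t => (hall _ _ (hadj t)).some
  have near : ∀ t, ∀ a ∈ ({(W t).z, c (4 * t), c (4 * t + 1), (W t).w} : Set V),
      ∃ i d, 4 * t.1 ≤ i ∧ i ≤ 4 * t.1 + 1 ∧ d ≤ 1 ∧ Wk Kn d (c i) a := by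
    rintro t a (rfl | rfl | rfl | rfl)
    · have := (W t).f0
      have := (W t).f1
      exact ⟨_, 1, le_rfl, by omega, le_rfl, .one ⟨(W t).hz, by omega⟩⟩
    · exact ⟨_, 0, le_rfl, by omega, by omega, .zero⟩
    · exact ⟨_, 0, by omega, le_rfl, by omega, .zero⟩
    · have := (W t).g0
      have := (W t).g1
      exact ⟨_, 1, by omega, le_rfl, le_rfl, .one ⟨(W t).hw, by omega⟩⟩
  refine absurd (five D hlad htri _ _ (fun t => (hadj t).1) W fun t t' a h1 h2 => ?_) h5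
  obtain ⟨i, d, a1, a2, a3, a4⟩ := near t a h1
  obtain ⟨i', d', b1, b2, b3, b4⟩ := near t' a h2
  rcases le_total i i' with h | h
  · have := l4 i i' _ h (by omega) (a4.trans b4.symm)
    omega
  · have := l4 i' i _ h (by omega) (b4.trans a4.symm)
    omega

theorem odd_girth [Finite V] [T2Space S] [ChartedSpace E2 S] (k : ℕ)
    (h5 : ¬ ∃ D₀ : Drawing (SimpleGraph.fromRel fun a b : Fin (k + 1) × Fin 5 => a.1 = b.1) S,
      ∀ e f, e ≠ f → ¬ D₀.Meet e f) (D : Drawing G S)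
    (h : ∀ e f : G.edgeSet, e ≠ f → D.Meet e f → ∃ v, v ∈ (e : Sym2 V) ∧ v ∈ (f : Sym2 V))
    (h1 : ∀ e f : G.edgeSet, e ≠ f →
      ((range (D.arc e) ∩ range (D.arc f)) \ range D.pos).Subsingleton)
    (K : SimpleGraph V) (hK : ∀ e f : G.edgeSet, e ≠ f → D.Meet e f → (e : Sym2 V) ∈ K.edgeSet)
    (hg : ∀ (x : V) (w : K.Walk x x), Odd w.length → 4 * k + 5 ≤ w.length) :
    ∃ D' : Drawing G S, ∀ e f, e ≠ f → ¬ D'.Meet e f := by
  classical
  have := Fintype.ofFinite V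
  rcases isEmpty_or_nonempty V with hV | hV
  · exact ⟨D, fun e => (hV.false (e : Sym2 V).out.1).elim⟩
  have hS : HD S := fun _ _ hO hp => exists_disc (E := E2) hO hp
  obtain ⟨v₀⟩ := id hV
  have : Nonempty S := ⟨D.pos v₀⟩
  have hfin : (range D.pos ∪ ⋃ e, ⋃ f, ⋃ (_ : e ≠ f), range (D.arc e) ∩ range (D.arc f)).Finite :=
    (finite_range _).union (finite_iUnion fun e => finite_iUnion fun f => finite_iUnion fun h =>
      D.finite_inter e f h)
  set W := hfin.toFinset with hW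
  have hpos : ∀ v, D.pos v ∈ W := fun v => hfin.mem_toFinset.2 (Or.inl ⟨v, rfl⟩)
  have hcr : ∀ e f, e ≠ f → ∀ p ∈ range (D.arc e) ∩ range (D.arc f), p ∈ W := fun e f h p hp =>
    hfin.mem_toFinset.2 (Or.inr (mem_iUnion.2 ⟨e, mem_iUnion.2 ⟨f, mem_iUnion.2 ⟨h, hp⟩⟩⟩))
  have hmeet : ∀ e f p, p ∉ range D.pos → p ∈ range (D.arc e) → p ∈ range (D.arc f) →
      D.Meet e f := by
    rintro e f p hp ⟨s, hs⟩ ⟨t, ht⟩
    obtain ⟨u, v, -, h0, h1⟩ := D.ends e
    obtain ⟨u', v', -, h0', h1'⟩ := D.ends f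
    refine ⟨s, t, ?_, ?_, ?_, ?_, hs.trans ht.symm⟩ <;> rintro rfl
    · exact hp ⟨u, h0.symm.trans hs⟩
    · exact hp ⟨v, h1.symm.trans hs⟩
    · exact hp ⟨u', h0'.symm.trans ht⟩
    · exact hp ⟨v', h1'.symm.trans ht⟩
  set H : SimpleGraph W := SimpleGraph.fromRel fun x y =>
    ∃ e s t, Cons D W e s t ∧ D.arc e s = x ∧ D.arc e t = y with hH
  refine (exists_pd (S := S) (G := G) H (fun v => ⟨D.pos v, hpos v⟩)
    (fun e => {x | x.1 ∉ range D.pos ∧ ∃ he : e ∈ G.edgeSet, x.1 ∈ range (D.arc ⟨e, he⟩)})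
    (fun e n => 2 ≤ n → e ∈ K.edgeSet) ?_ (fun u v huv => D.pos_inj (congrArg Subtype.val huv))
    (fun e x hx ⟨v, hv⟩ => hx.1 ⟨v, congrArg Subtype.val hv⟩) ?_ ?_ ?_).elim
    fun D' hD' => main_ind k (fun c => h5 (drawing_univ c)) K hg _ W D' rfl hD'.2
  · refine (em_cons D W hcr).symm_closure.minor hS W (Finset.Subset.refl _)
      (fun p => if hp : p ∈ W then (⟨p, hp⟩ : W) else ⟨_, hpos v₀⟩) (fun a ha b hb hab => ?_)
      (fun u _ => ⟨u, u.2, by simp⟩) ?_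
    · simp only [dif_pos ha, dif_pos hb, Subtype.mk.injEq] at hab
      rw [hab]
      exact .refl
    · rintro u - v - - huv
      exact ⟨u, u.2, v, v.2, ((SimpleGraph.fromRel_adj _ _ _).1 huv).2, by simp, by simp⟩
  · rintro e f x ⟨hx, he, a1⟩ ⟨-, hf, a2⟩
    by_cases hef : e = f
    · exact ⟨e.out.1, e.out_fst_mem, hef ▸ e.out_fst_mem⟩
    exact h ⟨e, he⟩ ⟨f, hf⟩ (fun c => hef (congrArg Subtype.val c)) (hmeet _ _ _ hx a1 a2)
  · rintro e f hef x y ⟨hx, he, a1⟩ ⟨-, hf, a2⟩ ⟨hy, _, b1⟩ ⟨-, _, b2⟩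
    exact Subtype.ext (h1 ⟨e, he⟩ ⟨f, hf⟩ (fun c => hef (congrArg Subtype.val c))
      ⟨⟨a1, a2⟩, hx⟩ ⟨⟨b1, b2⟩, hy⟩)
  · intro e he
    obtain ⟨u, v, a1, a2, a3⟩ := D.ends ⟨e, he⟩
    have hT : (D.arc ⟨e, he⟩ ⁻¹' (W : Set S)).Finite :=
      W.finite_toSet.preimage (D.arc_inj _).injOn
    have key : ∀ t, Relation.ReflTransGen (Cons D W ⟨e, he⟩) 0 t → ∀ y : W,
        D.arc ⟨e, he⟩ t = y →
        ConnIn H.Adj {x | x.1 ∈ range (D.arc ⟨e, he⟩)} ⟨_, hpos u⟩ y := by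
      intro t ht
      induction ht with
      | refl =>
        intro y hy
        rw [show y = ⟨_, hpos u⟩ from Subtype.ext (hy.symm.trans a2)]
        exact .refl
      | tail _ c ih =>
        refine fun y hy => (ih ⟨_, c.1⟩ rfl).tail ⟨?_, ⟨_, rfl⟩, ⟨_, hy⟩⟩
        refine (SimpleGraph.fromRel_adj _ _ _).2 ⟨fun c' => c.2.2.1.ne (D.arc_inj ⟨e, he⟩ ?_),
          Or.inl ⟨_, _, _, c, rfl, hy⟩⟩
        exact (congrArg Subtype.val c').trans hy.symm
    obtain ⟨n, p, b1, b2⟩ := exists_pth (key 1 (chain hT (by simpa [a2] using hpos u) 1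
      (by simpa [a3] using hpos v)) ⟨_, hpos v⟩ a3) ⟨0, a2⟩
    have inner : ∀ i, 0 < i → i < n → (p i).1 ∉ range D.pos := by
      rintro i i0 i1 ⟨w, hw⟩
      obtain ⟨t, ht⟩ := b2 i i1.le
      rcases D.avoid _ t w (ht.trans hw.symm) with rfl | rfl
      · have := b1.inj i i1.le 0 (by omega) (by
          rw [b1.zero]
          exact Subtype.ext (ht.symm.trans a2))
        omega
      · have := b1.inj i i1.le n le_rfl (by
          rw [b1.last]
          exact Subtype.ext (ht.symm.trans a3))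
        omega
    refine ⟨u, v, a1.symm, n, fun hn => ?_, p, b1, fun i i0 i1 => ⟨inner i i0 i1, he, b2 i i1.le⟩⟩
    have c1 := inner 1 one_pos hn
    have c2 := (hfin.mem_toFinset.1 (p 1).2).resolve_left c1
    simp only [mem_iUnion] at c2
    obtain ⟨f, g, hfg, c3, c4⟩ := c2
    have c5 := b2 1 (by omega)
    by_cases c : (⟨e, he⟩ : G.edgeSet) = f
    · exact hK ⟨e, he⟩ g (c ▸ hfg) (hmeet _ _ _ c1 c5 c4)
    · exact hK ⟨e, he⟩ f c (hmeet _ _ _ c1 c5 c3)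

end Pool.Agent.Lib.OG59
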