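import Mathlib

set_option autoImplicit false

open Set Function unitInterval Metric

namespace Pool.Agent.Lib.OG59

theorem exists_sqrt {A : Type*} [TopologicalSpace A] (h : I × A → ℂ) (hc : Continuous h)
    (h0 : ∀ x, h x ≠ 0) : ∃ g : I × A → ℂ, Continuous g ∧ (∀ a, g (0, a) = 1) ∧
      ∀ t a, g (t, a) ^ 2 * h (0, a) = h (t, a) := by
  set H : C(I × A, {z : ℂ // z ≠ 0}) := ⟨fun x => ⟨h x / h (0, x.2), div_ne_zero (h0 _) (h0 _)⟩,
    (hc.div (hc.comp (by fun_prop)) fun x => h0 _).subtype_mk _⟩ with hH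
  have H0 : ∀ a, H (0, a) = (fun z : ℂ => (⟨_, z.exp_ne_zero⟩ : {z : ℂ // z ≠ 0}))
      ((ContinuousMap.const A (0 : ℂ)) a) := fun a => Subtype.ext (by simp [hH, div_self (h0 _)])
  set L := Complex.isCoveringMap_exp.liftHomotopy H _ H0 with hL
  have h1 : ∀ x, Complex.exp (L x) = h x / h (0, x.2) := fun x =>
    congrArg Subtype.val (congrFun (Complex.isCoveringMap_exp.liftHomotopy_lifts H _ H0) x)
  have h2 : ∀ a, L (0, a) = 0 := fun a => Complex.isCoveringMap_exp.liftHomotopy_zero H _ H0 a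
  refine ⟨fun x => Complex.exp (L x / 2), by fun_prop, fun a => by simp only [h2, zero_div,
    Complex.exp_zero], fun t a => ?_⟩
  rw [sq, ← Complex.exp_add, add_halves, h1, div_mul_cancel₀ _ (h0 _)]

/-- The end value of the continuous square root of `f t / f 0` that starts at `1`. -/
noncomputable def eps (f : I → ℂ) : ℂ :=
  Classical.epsilon fun c => ∃ g : I → ℂ, Continuous g ∧ g 0 = 1 ∧ g 1 = c ∧
    ∀ t, g t ^ 2 * f 0 = f t

theorem eps_eq {f u : I → ℂ} {k : ℂ} (hu : Continuous u) (h0 : ∀ t, f t ≠ 0)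
    (h : ∀ t, u t ^ 2 * k = f t) : eps f = u 1 / u 0 := by
  have hu0 : ∀ t, u t ≠ 0 := fun t e => h0 t (by rw [← h, e]; simp)
  have h1 : ∀ t, (u t / u 0) ^ 2 * f 0 = f t := fun t => by
    rw [← h, ← h]
    field_simp [hu0 0]
  obtain ⟨g, g1, g2, g3, g4⟩ := Classical.epsilon_spec (p := fun c => ∃ g : I → ℂ, Continuous g ∧
    g 0 = 1 ∧ g 1 = c ∧ ∀ t, g t ^ 2 * f 0 = f t)
    ⟨_, fun t => u t / u 0, hu.div_const _, div_self (hu0 0), rfl, h1⟩
  rw [eps, ← g3]
  exact isPreconnected_univ.eq_of_sq_eq g1.continuousOn (hu.div_const (u 0)).continuousOn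
    (fun t _ => mul_right_cancel₀ (h0 0) ((g4 t).trans (h1 t).symm))
    (fun _ => div_ne_zero (hu0 _) (hu0 0)) (mem_univ 0) (g2.trans (div_self (hu0 0)).symm)
    (mem_univ 1)

theorem eps_par {A : Type*} [TopologicalSpace A] (h : I × A → ℂ) (hc : Continuous h)
    (h0 : ∀ x, h x ≠ 0) : Continuous fun a => eps fun t => h (t, a) := by
  obtain ⟨g, g1, g2, g3⟩ := exists_sqrt h hc h0
  have : (fun a => eps fun t => h (t, a)) = fun a => g (1, a) := funext fun a => by
    rw [eps_eq (u := fun t => g (t, a)) (by fun_prop) (fun t => h0 _) fun t => g3 t a, g2, div_one]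
  rw [this]
  fun_prop

theorem exists_sqrt' {f : I → ℂ} (hf : Continuous f) (h0 : ∀ t, f t ≠ 0) :
    ∃ g : I → ℂ, Continuous g ∧ g 0 = 1 ∧ ∀ t, g t ^ 2 * f 0 = f t := by
  obtain ⟨g, g1, g2, g3⟩ := exists_sqrt (A := Unit) (fun x => f x.1) (by fun_prop) fun _ => h0 _
  exact ⟨fun t => g (t, ()), by fun_prop, g2 (), fun t => g3 t ()⟩

theorem eps_sq {f : I → ℂ} (hf : Continuous f) (h0 : ∀ t, f t ≠ 0) : eps f ^ 2 * f 0 = f 1 := by
  obtain ⟨g, g1, g2, g3⟩ := exists_sqrt' hf h0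
  rw [eps_eq g1 h0 g3, g2, div_one, g3]

theorem eps_mul {f f' F : I → ℂ} (hf : Continuous f) (h0 : ∀ t, f t ≠ 0) (hf' : Continuous f')
    (h0' : ∀ t, f' t ≠ 0) (hF : ∀ t, f t * f' t = F t) : eps F = eps f * eps f' := by
  obtain ⟨g, g1, g2, g3⟩ := exists_sqrt' hf h0
  obtain ⟨g', g1', g2', g3'⟩ := exists_sqrt' hf' h0'
  rw [eps_eq g1 h0 g3, eps_eq g1' h0' g3', eps_eq (u := fun t => g t * g' t) (k := f 0 * f' 0)
    (g1.mul g1') (fun t => hF t ▸ mul_ne_zero (h0 t) (h0' t)) fun t => by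
      rw [← hF t, ← g3 t, ← g3' t]
      ring, mul_div_mul_comm]

theorem descend {k : ℂ → ℂ} {ρ : ℝ} (hρ : 0 < ρ) (hk : ContinuousOn k {w | w.re < Real.log ρ})
    (hp : ∀ w : ℂ, w.re < Real.log ρ → k (w + 2 * Real.pi * Complex.I) = k w) :
    ContinuousOn (fun z => k (Complex.log z)) (ball 0 ρ \ {0}) := by
  classical
  have h1 : Periodic (fun w : ℂ => if w.re < Real.log ρ then k w else 0)
      (2 * Real.pi * Complex.I) := fun w => by
    have : (w + 2 * Real.pi * Complex.I).re = w.re := by simp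
    simp only [this]
    split_ifs with c
    · exact hp w c
    · rfl
  have h2 : ∀ w : ℂ, w.re < Real.log ρ → k (Complex.log (Complex.exp w)) = k w := by
    intro w hw
    obtain ⟨n, hn⟩ := Complex.exp_eq_exp_iff_exists_int.1
      (Complex.exp_log (Complex.exp_ne_zero w))
    have := h1.int_mul n w
    have e : (w + n * (2 * Real.pi * Complex.I)).re = w.re := by simp
    simp only [e, if_pos hw] at this
    rw [hn, this]
  have h3 : IsOpen {w : ℂ | w.re < Real.log ρ} := isOpen_lt (by fun_prop) (by fun_prop)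
  refine (continuousOn_open_iff (isOpen_ball.sdiff isClosed_singleton)).2 fun U hU => ?_
  have : (ball 0 ρ \ {0}) ∩ (fun z => k (Complex.log z)) ⁻¹' U =
      Complex.exp '' ({w : ℂ | w.re < Real.log ρ} ∩ k ⁻¹' U) := by
    ext z
    constructor
    · rintro ⟨⟨a1, a2⟩, a3⟩
      refine ⟨Complex.log z, ⟨?_, a3⟩, Complex.exp_log a2⟩
      rw [mem_ofPred_eq, Complex.log_re]
      exact Real.log_lt_log (norm_pos_iff.2 a2) (mem_ball_zero_iff.1 a1)
    · rintro ⟨w, ⟨a1, a2⟩, rfl⟩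
      refine ⟨⟨?_, Complex.exp_ne_zero w⟩, ?_⟩
      · rw [mem_ball_zero_iff, Complex.norm_exp]
        exact (Real.lt_log_iff_exp_lt hρ).1 a1
      · rw [mem_preimage, h2 w a1]
        exact a2
  rw [this]
  exact Complex.isOpenMap_exp _ (hk.isOpen_inter_preimage h3 hU)

theorem punct_sqrt (h : OpenPartialHomeomorph ℂ ℂ) {o : ℂ} {ρ : ℝ} (hρ : 0 < ρ)
    (hb : ball o ρ ⊆ h.source) : ∃ m : ℂ → ℂ, ContinuousOn m (ball 0 ρ \ {0}) ∧
      ∀ z ∈ ball (0 : ℂ) ρ \ {0}, m z ^ 2 * z = h (o + z) - h o := by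
  classical
  set P : Set ℂ := {w | w.re < Real.log ρ} with hP
  have ho : o ∈ h.source := hb (mem_ball_self hρ)
  have hmem : ∀ w ∈ P, o + Complex.exp w ∈ h.source := fun w hw => hb (by
    rw [mem_ball_iff_norm, add_sub_cancel_left, Complex.norm_exp]
    exact (Real.lt_log_iff_exp_lt hρ).1 hw)
  set F : ℂ → ℂ := fun w => h (o + Complex.exp w) - h o with hF
  have hFc : ContinuousOn F P :=
    (h.continuousOn.comp (f := fun w => o + Complex.exp w) (by fun_prop) hmem).sub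
      continuousOn_const
  have hF0 : ∀ w ∈ P, F w ≠ 0 := fun w hw e => Complex.exp_ne_zero w (by
    simpa using h.injOn (hmem w hw) ho (sub_eq_zero.1 e))
  have hconv : Convex ℝ P := convex_halfSpace_re_lt _
  set w₀ : ℂ := ((Real.log ρ - 1 : ℝ) : ℂ) with hw₀
  have hw : w₀ ∈ P := by simp [hP, hw₀]
  have hseg : ∀ x : I × P, w₀ + (x.1 : ℝ) • (x.2.1 - w₀) ∈ P := fun x =>
    hconv.add_smul_sub_mem hw x.2.2 x.1.2
  obtain ⟨g, g1, -, g3⟩ := exists_sqrt (A := P) (fun x => F (w₀ + (x.1 : ℝ) • (x.2.1 - w₀)))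
    (hFc.comp_continuous (by fun_prop) hseg) fun x => hF0 _ (hseg x)
  obtain ⟨c, hc⟩ := IsAlgClosed.exists_pow_nat_eq (F w₀) two_pos
  set k : ℂ → ℂ := fun w => if hw : w ∈ P then g (1, ⟨w, hw⟩) * c else 0 with hk
  have k1 : ContinuousOn k P := by
    rw [continuousOn_iff_continuous_domRestrict]
    have : P.domRestrict k = fun w => g (1, w) * c := funext fun w => dif_pos w.2
    rw [this]
    fun_prop
  have k2 : ∀ w ∈ P, k w ^ 2 = F w := fun w hw => by
    have := g3 1 ⟨w, hw⟩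
    simp only [Icc.coe_zero, zero_smul, add_zero, Icc.coe_one, one_smul, add_sub_cancel] at this
    rw [hk]
    simp only [dif_pos hw]
    rw [mul_pow, hc, this]
  have hsh : ∀ w ∈ P, w + 2 * Real.pi * Complex.I ∈ P := fun w hw => by simpa [hP] using hw
  have hlog : ∀ z ∈ ball (0 : ℂ) ρ \ {0}, Complex.log z ∈ P := fun z hz => by
    rw [hP, mem_ofPred_eq, Complex.log_re]
    exact Real.log_lt_log (norm_pos_iff.2 hz.2) (mem_ball_zero_iff.1 hz.1)
  rcases hconv.isPreconnected.eq_or_eq_neg_of_sq_eq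
    (f := fun w => k (w + 2 * Real.pi * Complex.I))
    (k1.comp (f := fun w => w + 2 * Real.pi * Complex.I) (by fun_prop) hsh) k1
    (fun w hw => by
      simp only [Pi.pow_apply]
      rw [k2 _ (hsh w hw), k2 w hw, hF]
      simp only [Complex.exp_periodic w])
    (fun {w} hw e => hF0 w hw (by rw [← k2 w hw, e]; simp)) with e | e
  · exfalso
    have m1 := descend hρ k1 fun w hw => e hw
    obtain ⟨δ, hδ, hδb⟩ := nhds_basis_closedBall.mem_iff.1
      ((h.isOpen_inter_preimage_symm (isOpen_ball (x := o) (ε := ρ))).mem_nhds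
        ⟨h.map_source ho, by simpa [h.left_inv ho] using hρ⟩)
    set y : I → ℂ := fun t => h o + Complex.exp (Real.pi * Complex.I * (t : ℝ)) ^ 2 * δ with hy
    have y1 : ∀ t, y t ∈ closedBall (h o) δ := fun t => by
      simp [hy, Complex.norm_exp, abs_of_pos hδ]
    have y0 : ∀ t : I, Complex.exp (Real.pi * Complex.I * (t : ℝ)) ^ 2 * δ ≠ 0 := fun t =>
      mul_ne_zero (pow_ne_zero _ (Complex.exp_ne_zero _)) (by exact_mod_cast hδ.ne')
    have y2 : ∀ t, h.symm (y t) - o ∈ ball (0 : ℂ) ρ \ {0} := fun t => by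
      refine ⟨mem_ball_zero_iff.2 (mem_ball_iff_norm.1 (hδb (y1 t)).2), fun c => y0 t ?_⟩
      have := h.right_inv (hδb (y1 t)).1
      rw [sub_eq_zero.1 c] at this
      simpa [hy] using this
    have y3 : Continuous fun t => h.symm (y t) - o :=
      (h.continuousOn_symm.comp_continuous (by fun_prop) fun t => (hδb (y1 t)).1).sub
        continuous_const
    have a1 := eps_eq (k := 1) (u := fun t => k (Complex.log (h.symm (y t) - o)))
      (m1.comp_continuous y3 y2) y0 fun t => by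
      rw [k2 _ (hlog _ (y2 t)), hF]
      simp only [Complex.exp_log (y2 t).2, add_sub_cancel, h.right_inv (hδb (y1 t)).1]
      simp [hy]
    have a2 := eps_eq (k := δ) (u := fun t : I => Complex.exp (Real.pi * Complex.I * (t : ℝ)))
      (by fun_prop) y0 fun t => rfl
    have a3 : y 1 = y 0 := by simp [hy]
    rw [a3, div_self fun c => hF0 _ (hlog _ (y2 0)) (by rw [← k2 _ (hlog _ (y2 0)), c]; simp),
      a2] at a1
    norm_num at a1
  · refine ⟨_, descend (k := fun w => k w * Complex.exp (-w / 2)) hρ (k1.mul (by fun_prop))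
      fun w hw => ?_, fun z hz => ?_⟩
    · have e1 : k (w + 2 * Real.pi * Complex.I) = -k w := e hw
      rw [e1, show -(w + 2 * Real.pi * Complex.I) / 2 = -w / 2 - Real.pi * Complex.I by ring,
        Complex.exp_sub, Complex.exp_pi_mul_I]
      ring
    · rw [mul_pow, k2 _ (hlog z hz), sq, ← Complex.exp_add, add_halves, Complex.exp_neg, hF]
      simp only [Complex.exp_log hz.2]
      rw [mul_assoc, inv_mul_cancel₀ hz.2, mul_one]

/-- A change of charts acts on differences of points by a square. -/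
theorem conf_sqrt (h : OpenPartialHomeomorph ℂ ℂ) {o : ℂ} {ρ : ℝ} (hρ : 0 < ρ)
    (hb : ball o ρ ⊆ h.source) : ∃ R : ℂ × ℂ → ℂ,
      ContinuousOn R {x | x.1 ∈ ball o ρ ∧ x.2 ∈ ball o ρ ∧ x.1 ≠ x.2} ∧
      ∀ x ∈ ball o ρ, ∀ y ∈ ball o ρ, x ≠ y → R (x, y) ^ 2 * (x - y) = h x - h y := by
  classical
  obtain ⟨m, m1, m2⟩ := punct_sqrt h hρ hb
  set P : Set (ℂ × ℂ) := {x | x.1 ∈ ball o ρ ∧ x.2 ∈ ball o ρ ∧ x.1 ≠ x.2} with hP
  have h1 : ∀ x ∈ P, (x.1 - x.2) / 2 ∈ ball (0 : ℂ) ρ \ {0} := fun x hx => by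
    refine ⟨?_, div_ne_zero (sub_ne_zero.2 hx.2.2) two_ne_zero⟩
    have a1 := mem_ball.1 hx.1
    have a2 := mem_ball.1 hx.2.1
    have a3 := dist_triangle_right x.1 x.2 o
    rw [mem_ball_zero_iff, norm_div, ← dist_eq_norm]
    simp only [Complex.norm_ofNat]
    linarith
  set X : I × P → ℂ := fun x => o + (x.2.1.1 - x.2.1.2) / 2 +
    (x.1 : ℝ) • (x.2.1.1 - (o + (x.2.1.1 - x.2.1.2) / 2)) with hX
  set Y : I × P → ℂ := fun x => o + (x.1 : ℝ) • (x.2.1.2 - o) with hY
  have x1 : ∀ x, X x ∈ h.source := fun x => hb ((convex_ball o ρ).add_smul_sub_mem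
    (by simpa using (h1 _ x.2.2).1) x.2.2.1 x.1.2)
  have y1 : ∀ x, Y x ∈ h.source := fun x => hb ((convex_ball o ρ).add_smul_sub_mem
    (mem_ball_self hρ) x.2.2.2.1 x.1.2)
  obtain ⟨g, g1, -, g3⟩ := exists_sqrt (A := P) (fun x => h (X x) - h (Y x))
    ((h.continuousOn.comp_continuous (by fun_prop) x1).sub
      (h.continuousOn.comp_continuous (by fun_prop) y1)) fun x e => by
      have e1 := h.injOn (x1 x) (y1 x) (sub_eq_zero.1 e)
      have e2 : (x.2.1.1 - x.2.1.2) * (((1 + x.1 : ℝ) : ℂ)) = 2 * (X x - Y x) := by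
        simp only [hX, hY, Complex.real_smul]
        push_cast
        ring
      rw [e1, sub_self, mul_zero] at e2
      have := x.1.2.1
      exact mul_ne_zero (sub_ne_zero.2 x.2.2.2.2) (by exact_mod_cast (by linarith)) e2
  obtain ⟨c, hc⟩ := IsAlgClosed.exists_pow_nat_eq (1 / 2 : ℂ) two_pos
  refine ⟨fun x => if hx : x ∈ P then g (1, ⟨x, hx⟩) * m ((x.1 - x.2) / 2) * c else 0, ?_,
    fun x hx y hy hxy => ?_⟩
  · rw [continuousOn_iff_continuous_domRestrict]
    have : P.domRestrict (fun x => if hx : x ∈ P then g (1, ⟨x, hx⟩) * m ((x.1 - x.2) / 2) * c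
      else 0) = fun x => g (1, x) * m ((x.1.1 - x.1.2) / 2) * c := funext fun w => dif_pos w.2
    rw [this]
    exact ((by fun_prop : Continuous fun x : P => g (1, x)).mul
      (m1.comp_continuous (by fun_prop) fun x => h1 _ x.2)).mul continuous_const
  · have hxy' : (x, y) ∈ P := ⟨hx, hy, hxy⟩
    have a1 := g3 1 ⟨_, hxy'⟩
    have a2 := m2 _ (h1 _ hxy')
    simp only [hX, hY, Icc.coe_zero, zero_smul, add_zero, Icc.coe_one, one_smul,
      add_sub_cancel] at a1 a2
    simp only [dif_pos hxy']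
    rw [← a1, ← a2, mul_pow, mul_pow, hc]
    ring

end Pool.Agent.Lib.OG59
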