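import Mathlib
import Pool.Agent.Lib.OG59.Sq

set_option autoImplicit false

open Set Function unitInterval Metric Topology Filter

namespace Pool.Agent.Lib.OG59

variable {S : Type*} [TopologicalSpace S]

theorem isCompact_dsc (φ : OpenPartialHomeomorph S ℂ) {o : ℂ} {r : ℝ}
    (h : closedBall o r ⊆ φ.target) : IsCompact (φ.source ∩ φ ⁻¹' closedBall o r) := by
  rw [← φ.symm_image_eq_source_inter_preimage h]
  exact (isCompact_closedBall _ _).image_of_continuousOn (φ.continuousOn_symm.mono h)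

theorem exists_dsc (φ : OpenPartialHomeomorph S ℂ) {z : S} (hz : z ∈ φ.source) {O : Set S}
    (hO : IsOpen O) (hzO : z ∈ O) : ∃ r > 0, closedBall (φ z) r ⊆ φ.target ∧
      φ.source ∩ φ ⁻¹' closedBall (φ z) r ⊆ O := by
  obtain ⟨r, hr, hb⟩ := nhds_basis_closedBall.mem_iff.1
    ((φ.isOpen_inter_preimage_symm hO).mem_nhds ⟨φ.map_source hz, by simpa [φ.left_inv hz]⟩)
  exact ⟨r, hr, fun x hx => (hb hx).1, fun x hx => by simpa [φ.left_inv hx.1] using (hb hx.2).2⟩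

/-- A chart with functions on `S` that vanish at `p` and have a pole at `q`. -/
structure Ch (S : Type*) [TopologicalSpace S] where
  φ : OpenPartialHomeomorph S ℂ
  B : Set S
  Φ : S → S → S → ℂ
  opn : IsOpen B
  src : B ⊆ φ.source
  cont : ContinuousOn (fun y : S × S × S => Φ y.1 y.2.1 y.2.2)
    {y | y.1 ∈ B ∧ y.2.1 ∈ B ∧ y.2.2 ≠ y.2.1}
  ne : ∀ p ∈ B, ∀ q ∈ B, ∀ x, x ≠ p → x ≠ q → Φ p q x ≠ 0
  mul : ∀ p, ∀ q ∈ B, ∀ r x, x ≠ q → Φ p q x * Φ q r x = Φ p r x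
  loc : ∀ p q, ∀ x ∈ B, Φ p q x = (φ x - φ p) / (φ x - φ q)

theorem exists_ch [T2Space S] [ChartedSpace (EuclideanSpace ℝ (Fin 2)) S] (z : S) :
    ∃ c : Ch S, z ∈ c.B := by
  classical
  set φ := (chartAt (EuclideanSpace ℝ (Fin 2)) z).transHomeomorph
    Complex.orthonormalBasisOneI.repr.symm.toHomeomorph with hφ
  have hz : z ∈ φ.source := mem_chart_source _ z
  obtain ⟨ρ, hρ, hb, -⟩ := exists_dsc φ hz isOpen_univ (mem_univ _)
  obtain ⟨r, rfl⟩ : ∃ r, ρ = 3 * r := ⟨ρ / 3, by ring⟩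
  have hr : 0 < r := by linarith
  set o := φ z with ho
  set κ : ℂ → ℝ := fun w => max 0 (min 1 (3 - ‖w - o‖ / r)) with hκ
  have k0 : ∀ w, 0 ≤ κ w ∧ κ w ≤ 1 := fun w =>
    ⟨le_max_left _ _, max_le zero_le_one (min_le_left _ _)⟩
  have k1 : ∀ w, ‖w - o‖ ≤ 2 * r → κ w = 1 := fun w hw => by
    have : ‖w - o‖ / r ≤ 2 := (div_le_iff₀ hr).2 hw
    simp only [hκ]
    rw [min_eq_left (by linarith), max_eq_right zero_le_one]
  have k2 : ∀ w, 3 * r ≤ ‖w - o‖ → κ w = 0 := fun w hw => by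
    have : 3 ≤ ‖w - o‖ / r := (le_div_iff₀ hr).2 hw
    exact max_eq_left (min_le_of_right_le (by linarith))
  set N : ℂ → ℂ → ℂ := fun w p => w - o - κ w * (p - o) with hN
  have n0 : ∀ w p, ‖p - o‖ < r → w ≠ p → N w p ≠ 0 := by
    intro w p hp hw e
    by_cases c : ‖w - o‖ ≤ 2 * r
    · simp only [hN, k1 w c] at e
      exact hw (by simpa [sub_eq_zero] using e)
    · have e1 := congrArg norm (sub_eq_zero.1 e)
      rw [norm_mul, Complex.norm_real, Real.norm_of_nonneg (k0 w).1] at e1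
      have := mul_le_of_le_one_left (norm_nonneg (p - o)) (k0 w).2
      linarith
  have n1 : ∀ q ∈ φ.source ∩ φ ⁻¹' ball o r, ∀ x ∈ φ.source, x ≠ q → N (φ x) (φ q) ≠ 0 :=
    fun q hq x hx e => n0 _ _ (mem_ball_iff_norm.1 hq.2) fun c => e (φ.injOn hx hq.1 c)
  refine ⟨⟨φ, φ.source ∩ φ ⁻¹' ball o r,
    fun p q x => if x ∈ φ.source then N (φ x) (φ p) / N (φ x) (φ q) else 1,
    φ.isOpen_inter_preimage isOpen_ball, inter_subset_left, ?_, ?_, ?_, ?_⟩, hz, mem_ball_self hr⟩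
  · rintro ⟨p, q, x⟩ ⟨hp, hq, hx⟩
    refine ContinuousAt.continuousWithinAt ?_
    by_cases c : x ∈ φ.source
    · have a1 : ContinuousAt (fun y : S × S × S => φ y.1) (p, q, x) :=
        (φ.continuousAt hp.1).comp_of_eq continuousAt_fst rfl
      have a2 : ContinuousAt (fun y : S × S × S => φ y.2.1) (p, q, x) :=
        (φ.continuousAt hq.1).comp_of_eq (by fun_prop) rfl
      have a3 : ContinuousAt (fun y : S × S × S => φ y.2.2) (p, q, x) :=
        (φ.continuousAt c).comp_of_eq (by fun_prop) rfl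
      have a4 : Continuous fun w : ℂ × ℂ => N w.1 w.2 := by
        simp only [hN, hκ]
        fun_prop
      refine ContinuousAt.congr (f := fun y : S × S × S => N (φ y.2.2) (φ y.1) /
        N (φ y.2.2) (φ y.2.1)) ((a4.continuousAt.comp (a3.prodMk a1)).div
          (a4.continuousAt.comp (a3.prodMk a2)) (n1 q hq x c hx)) ?_
      filter_upwards [(φ.open_source.preimage (continuous_snd.comp continuous_snd)).mem_nhds c]
        with y hy
      exact (if_pos hy).symm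
    · refine ContinuousAt.congr (f := fun _ => 1) continuousAt_const ?_
      filter_upwards [((isCompact_dsc φ hb).isClosed.isOpen_compl.preimage
        (continuous_snd.comp continuous_snd)).mem_nhds (show (p, q, x) ∈ _ from fun h => c h.1)]
        with y hy
      split_ifs with c'
      · have h1 : 3 * r < ‖φ y.2.2 - o‖ := not_le.1 fun h => hy ⟨c', mem_closedBall_iff_norm.2 h⟩
        simp only [hN, k2 _ h1.le, Complex.ofReal_zero, zero_mul, sub_zero]
        exact (div_self (norm_pos_iff.1 (by linarith))).symm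
      · rfl
  · intro p hp q hq x h1 h2
    split_ifs with c
    · exact div_ne_zero (n1 p hp x c h1) (n1 q hq x c h2)
    · exact one_ne_zero
  · intro p q hq r x h
    split_ifs with c
    · rw [div_mul_div_cancel₀ (n1 q hq x c h)]
    · exact one_mul _
  · intro p q x hx
    have := mem_ball_iff_norm.1 hx.2
    simp only [if_pos hx.1, hN, k1 (φ x) (by linarith)]
    simp

theorem Ch.self (c : Ch S) {p x : S} (hp : p ∈ c.B) (hx : x ≠ p) : c.Φ p p x = 1 :=
  mul_left_cancel₀ (c.ne p hp p hp x hx hx) ((c.mul p p hp p x hx).trans (mul_one _).symm)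

theorem Ch.cont' (c : Ch S) {A : Type*} [TopologicalSpace A] {p q x : A → S} (hp : Continuous p)
    (hq : Continuous q) (hx : Continuous x) (h1 : ∀ a, p a ∈ c.B) (h2 : ∀ a, q a ∈ c.B)
    (h3 : ∀ a, x a ≠ q a) : Continuous fun a => c.Φ (p a) (q a) (x a) :=
  c.cont.comp_continuous (hp.prodMk (hq.prodMk hx)) fun a => ⟨h1 a, h2 a, h3 a⟩

/-- The functions of two charts differ by squares. -/
theorem Ch.compat [T2Space S] (c c' : Ch S) {z : S} (hz : z ∈ c.B) (hz' : z ∈ c'.B) :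
    ∃ Q : Set S, IsOpen Q ∧ z ∈ Q ∧ Q ⊆ c.B ∩ c'.B ∧ ∀ p ∈ Q, ∀ q ∈ Q, ∃ sg : S → ℂ,
      ContinuousOn sg {x | x ≠ p ∧ x ≠ q} ∧
      ∀ x, x ≠ p → x ≠ q → sg x ^ 2 * c.Φ p q x = c'.Φ p q x := by
  classical
  obtain ⟨ρ, hρ, hb, hO⟩ := exists_dsc c.φ (c.src hz) (c.opn.inter c'.opn) ⟨hz, hz'⟩
  set o := c.φ z with ho
  have hsym : ∀ w ∈ closedBall o ρ, c.φ.symm w ∈ c.φ.source ∩ c.φ ⁻¹' {w} := fun w hw =>
    ⟨c.φ.map_target (hb hw), c.φ.right_inv (hb hw)⟩
  obtain ⟨R, R1, R2⟩ := conf_sqrt (c.φ.symm.trans c'.φ) (o := o) hρ fun w hw => by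
    have h1 := hsym w (ball_subset_closedBall hw)
    exact ⟨hb (ball_subset_closedBall hw), c'.src (hO ⟨h1.1, by
      rw [mem_preimage, h1.2]; exact ball_subset_closedBall hw⟩).2⟩
  set V := c.φ.source ∩ c.φ ⁻¹' ball o ρ with hV
  set K := c.φ.source ∩ c.φ ⁻¹' closedBall o (ρ / 2) with hK
  have hsub : closedBall o (ρ / 2) ⊆ ball o ρ := closedBall_subset_ball (by linarith)
  have hKV : K ⊆ V := fun x hx => ⟨hx.1, hsub hx.2⟩
  have hVB : V ⊆ c.B ∩ c'.B := fun x hx => hO ⟨hx.1, ball_subset_closedBall hx.2⟩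
  have hKc : IsClosed K := (isCompact_dsc c.φ ((closedBall_subset_closedBall
    (by linarith)).trans hb)).isClosed
  have R3 : ∀ x ∈ V, ∀ y ∈ V, x ≠ y →
      R (c.φ x, c.φ y) ^ 2 * (c.φ x - c.φ y) = c'.φ x - c'.φ y := fun x hx y hy h => by
    simpa [c.φ.left_inv hx.1, c.φ.left_inv hy.1] using R2 _ hx.2 _ hy.2
      fun e => h (c.φ.injOn hx.1 hy.1 e)
  have R4 : ∀ x ∈ V, ∀ y ∈ V, x ≠ y → R (c.φ x, c.φ y) ≠ 0 := fun x hx y hy h e => by
    have := R3 x hx y hy h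
    rw [e, zero_pow two_ne_zero, zero_mul] at this
    exact h (c'.φ.injOn (c'.src (hVB hx).2) (c'.src (hVB hy).2) (sub_eq_zero.1 this.symm))
  have R5 : ∀ p ∈ V, ∀ q ∈ V, ∀ x ∈ V, x ≠ p → x ≠ q →
      (R (c.φ x, c.φ p) / R (c.φ x, c.φ q)) ^ 2 * c.Φ p q x = c'.Φ p q x := by
    intro p hp q hq x hx h1 h2
    rw [c.loc p q x (hVB hx).1, c'.loc p q x (hVB hx).2, ← R3 x hx p hp h1, ← R3 x hx q hq h2,
      div_pow, div_mul_div_comm]
  have R6 : ContinuousOn (fun a : S × S => R (c.φ a.1, c.φ a.2))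
      {a | a.1 ∈ V ∧ a.2 ∈ V ∧ a.1 ≠ a.2} :=
    R1.comp ((c.φ.continuousOn.comp continuousOn_fst fun a ha => ha.1.1).prodMk
      (c.φ.continuousOn.comp continuousOn_snd fun a ha => ha.2.1.1)) fun a ha => ⟨ha.1.2,
        ha.2.1.2, fun e => ha.2.2 (c.φ.injOn ha.1.1 ha.2.1.1 e)⟩
  refine ⟨c.φ.source ∩ c.φ ⁻¹' ball o (ρ / 2), c.φ.isOpen_inter_preimage isOpen_ball,
    ⟨c.src hz, mem_ball_self (by linarith)⟩,
    fun x hx => hVB (hKV ⟨hx.1, ball_subset_closedBall hx.2⟩), fun p hp q hq => ?_⟩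
  replace hp : p ∈ K := ⟨hp.1, ball_subset_closedBall hp.2⟩
  replace hq : q ∈ K := ⟨hq.1, ball_subset_closedBall hq.2⟩
  have w1 : ∀ t : I, c.φ p + (t : ℝ) • (c.φ q - c.φ p) ∈ closedBall o (ρ / 2) := fun t =>
    (convex_closedBall _ _).add_smul_sub_mem hp.2 hq.2 t.2
  set y : I → S := fun t => c.φ.symm (c.φ p + (t : ℝ) • (c.φ q - c.φ p)) with hy
  have y0 : y 0 = p := by simp [hy, c.φ.left_inv hp.1]
  have y1 : y 1 = q := by simp [hy, c.φ.left_inv hq.1]
  have y2 : Continuous y := c.φ.continuousOn_symm.comp_continuous (by fun_prop) fun t =>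
    hb (ball_subset_closedBall (hsub (w1 t)))
  have y3 : ∀ t, y t ∈ K := fun t => by
    have := hsym _ (ball_subset_closedBall (hsub (w1 t)))
    exact ⟨this.1, by rw [mem_preimage, this.2]; exact w1 t⟩
  have hne : ∀ (x : (Kᶜ : Set S)), ∀ a ∈ K, x.1 ≠ a := fun x a ha e => x.2 (e ▸ ha)
  have hB := fun a ha => hVB (hKV (a := a) ha)
  obtain ⟨g, g1, g2, g3⟩ := exists_sqrt (A := (Kᶜ : Set S))
    (fun x => c'.Φ p (y x.1) x.2 / c.Φ p (y x.1) x.2)
    ((c'.cont' continuous_const (by fun_prop) (by fun_prop) (fun _ => (hB p hp).2)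
      (fun a => (hB _ (y3 _)).2) fun a => hne _ _ (y3 _)).div
      (c.cont' continuous_const (by fun_prop) (by fun_prop) (fun _ => (hB p hp).1)
      (fun a => (hB _ (y3 _)).1) fun a => hne _ _ (y3 _))
      fun a => c.ne p (hB p hp).1 _ (hB _ (y3 _)).1 _ (hne _ _ hp) (hne _ _ (y3 _)))
    fun a => div_ne_zero (c'.ne p (hB p hp).2 _ (hB _ (y3 _)).2 _ (hne _ _ hp) (hne _ _ (y3 _)))
      (c.ne p (hB p hp).1 _ (hB _ (y3 _)).1 _ (hne _ _ hp) (hne _ _ (y3 _)))
  have g4 : ∀ t x, g (t, x) ^ 2 * c.Φ p (y t) x = c'.Φ p (y t) x := fun t x => by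
    have := g3 t x
    simp only [y0, c.self (hB p hp).1 (hne x p hp), c'.self (hB p hp).2 (hne x p hp), div_one,
      mul_one] at this
    rw [this, div_mul_cancel₀ _ (c.ne p (hB p hp).1 _ (hB _ (y3 _)).1 _ (hne _ _ hp)
      (hne _ _ (y3 _)))]
  have g5 : ∀ x : (Kᶜ : Set S), x.1 ∈ V → g (1, x) = R (c.φ x, c.φ p) / R (c.φ x, c.φ q) := by
    intro x hx
    have a1 := fun t => R4 _ hx _ (hKV (y3 t)) (hne x _ (y3 t))
    have a2 := R4 _ hx _ (hKV hp) (hne x _ hp)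
    rw [← y1]
    exact isPreconnected_univ.eq_of_sq_eq (f := fun t => g (t, x))
      (g := fun t => R (c.φ x, c.φ p) / R (c.φ x, c.φ (y t))) (by fun_prop)
      (continuousOn_const.div (R6.comp (f := fun t => (x.1, y t)) (by fun_prop) fun t _ =>
        ⟨hx, hKV (y3 t), hne x _ (y3 t)⟩) fun t _ => a1 t)
      (fun t _ => mul_right_cancel₀ (c.ne p (hB p hp).1 _ (hB _ (y3 t)).1 _ (hne x _ hp)
        (hne x _ (y3 _))) ((g4 t x).trans
          (R5 p (hKV hp) _ (hKV (y3 t)) _ hx (hne x _ hp) (hne x _ (y3 t))).symm))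
      (fun _ => div_ne_zero a2 (a1 _)) (mem_univ 0) (by simp only [g2, y0, div_self a2])
      (mem_univ 1)
  set sg : S → ℂ := fun x => if hx : x ∈ Kᶜ then g (1, ⟨x, hx⟩)
    else R (c.φ x, c.φ p) / R (c.φ x, c.φ q) with hsg
  refine ⟨sg, fun x hx => ?_, fun x h1 h2 => ?_⟩
  · by_cases h : x ∈ Kᶜ
    · have : ContinuousOn sg Kᶜ := by
        rw [continuousOn_iff_continuous_domRestrict]
        have : Kᶜ.domRestrict sg = fun x => g (1, x) := funext fun w => dif_pos w.2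
        rw [this]
        fun_prop
      exact (this.continuousAt (hKc.isOpen_compl.mem_nhds h)).continuousWithinAt
    · have hxV := hKV (not_not.1 h)
      have : ContinuousOn sg ({x | x ≠ p ∧ x ≠ q} ∩ V) := by
        refine ContinuousOn.congr (f := fun x => R (c.φ x, c.φ p) / R (c.φ x, c.φ q))
          ((R6.comp (f := fun x => (x, p)) (by fun_prop) fun a ha => ⟨ha.2, hKV hp, ha.1.1⟩).div
          (R6.comp (f := fun x => (x, q)) (by fun_prop) fun a ha => ⟨ha.2, hKV hq, ha.1.2⟩)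
          fun a ha => R4 _ ha.2 _ (hKV hq) ha.1.2) fun a ha => ?_
        by_cases h' : a ∈ Kᶜ
        · exact (dif_pos h').trans (g5 ⟨a, h'⟩ ha.2)
        · exact dif_neg h'
      exact (continuousWithinAt_inter
        ((c.φ.isOpen_inter_preimage isOpen_ball).mem_nhds hxV)).1 (this x ⟨hx, hxV⟩)
  · by_cases h : x ∈ Kᶜ
    · simp only [hsg, dif_pos h]
      exact y1 ▸ g4 1 ⟨x, h⟩
    · simp only [hsg, dif_neg h]
      exact R5 p (hKV hp) q (hKV hq) x (hKV (not_not.1 h)) h1 h2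

end Pool.Agent.Lib.OG59
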