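import Mathlib
import Pool.Agent.Lib.OG59.Side

set_option autoImplicit false

open Set Function unitInterval Metric Topology Filter

namespace Pool.Agent.Lib.OG59

variable {S : Type*} [TopologicalSpace S]

/-- A closed curve made of two paths. -/
structure Lp (S : Type*) [TopologicalSpace S] where
  f : I → S
  g : I → S
  cf : Continuous f
  cg : Continuous g
  e1 : g 0 = f 1
  e0 : g 1 = f 0

/-- The trace of the curve. -/
def Lp.T (l : Lp S) : Set S := range l.f ∪ range l.g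

/-- The sign that tells whether the curve separates `p` from `q` near the chart. -/
noncomputable def sep (c : Ch S) (l : Lp S) (p q : S) : ℂ :=
  eps (fun t => c.Φ p q (l.f t)) * eps fun t => c.Φ p q (l.g t)

variable {c : Ch S} {l : Lp S} {p q r : S}

theorem Lp.nf (hp : p ∈ c.B \ l.T) (t : I) : l.f t ≠ p := fun e => hp.2 (Or.inl ⟨t, e⟩)

theorem Lp.ng (hp : p ∈ c.B \ l.T) (t : I) : l.g t ≠ p := fun e => hp.2 (Or.inr ⟨t, e⟩)

theorem Ch.pc {f : I → S} (hf : Continuous f) (hp : p ∈ c.B) (hq : q ∈ c.B) (h : ∀ t, f t ≠ q) :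
    Continuous fun t => c.Φ p q (f t) :=
  c.cont' continuous_const continuous_const hf (fun _ => hp) (fun _ => hq) h

theorem sep_sq (hp : p ∈ c.B \ l.T) (hq : q ∈ c.B \ l.T) : sep c l p q ^ 2 = 1 := by
  have n1 := fun t => c.ne p hp.1 q hq.1 _ (Lp.nf hp t) (Lp.nf hq t)
  have h1 := eps_sq (Ch.pc l.cf hp.1 hq.1 (Lp.nf hq)) n1
  have h2 := eps_sq (Ch.pc l.cg hp.1 hq.1 (Lp.ng hq))
    fun t => c.ne p hp.1 q hq.1 _ (Lp.ng hp t) (Lp.ng hq t)
  rw [l.e0, l.e1, ← h1, ← mul_assoc] at h2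
  rw [sep, mul_pow, mul_comm]
  exact mul_right_cancel₀ (n1 0) (h2.trans (one_mul _).symm)

theorem sep_mul (hp : p ∈ c.B \ l.T) (hq : q ∈ c.B \ l.T) (hr : r ∈ c.B \ l.T) :
    sep c l p q * sep c l q r = sep c l p r := by
  have key : ∀ f : I → S, Continuous f → (∀ t, f t ≠ p) → (∀ t, f t ≠ q) → (∀ t, f t ≠ r) →
      eps (fun t => c.Φ p r (f t)) = eps (fun t => c.Φ p q (f t)) * eps fun t => c.Φ q r (f t) :=
    fun f hf a1 a2 a3 => eps_mul (Ch.pc hf hp.1 hq.1 a2)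
      (fun t => c.ne p hp.1 q hq.1 _ (a1 t) (a2 t)) (Ch.pc hf hq.1 hr.1 a3)
      (fun t => c.ne q hq.1 r hr.1 _ (a2 t) (a3 t)) fun t => c.mul p q hq.1 r _ (a2 t)
  simp only [sep]
  rw [key l.f l.cf (Lp.nf hp) (Lp.nf hq) (Lp.nf hr), key l.g l.cg (Lp.ng hp) (Lp.ng hq) (Lp.ng hr)]
  ring

theorem sep_self (hp : p ∈ c.B \ l.T) : sep c l p p = 1 := by
  have h1 := sep_sq hp hp
  rwa [sq, sep_mul hp hp hp] at h1

theorem sep_base {b : S} (hp : p ∈ c.B \ l.T) (hq : q ∈ c.B \ l.T) (hb : b ∈ c.B \ l.T) :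
    sep c l p b * sep c l q b = sep c l p q := by
  rw [← sep_mul hp hq hb, mul_assoc, ← sq, sep_sq hq hb, mul_one]

theorem sep_cont (hq : q ∈ c.B \ l.T) : ContinuousOn (fun p => sep c l p q) (c.B \ l.T) := by
  have key : ∀ f : I → S, Continuous f → (∀ p ∈ c.B \ l.T, ∀ t, f t ≠ p) →
      Continuous fun p : (c.B \ l.T : Set S) => eps fun t => c.Φ p q (f t) := fun f hf h =>
    eps_par (fun x : I × (c.B \ l.T : Set S) => c.Φ x.2 q (f x.1))
      (c.cont' (by fun_prop) continuous_const (by fun_prop) (fun a => a.2.2.1) (fun _ => hq.1)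
        fun a => h q hq _) fun a => c.ne _ a.2.2.1 q hq.1 _ (h _ a.2.2 _) (h q hq _)
  rw [continuousOn_iff_continuous_domRestrict]
  exact (key l.f l.cf fun p hp => Lp.nf hp).mul (key l.g l.cg fun p hp => Lp.ng hp)

theorem sep_conn {O : Set S} (hO : IsPreconnected O) (h : O ⊆ c.B \ l.T) (hp : p ∈ O)
    (hq : q ∈ O) : sep c l p q = 1 :=
  hO.eq_of_sq_eq (g := fun _ => 1) ((sep_cont (h hq)).mono h) continuousOn_const
    (fun x hx => by simpa using sep_sq (h hx) (h hq)) (fun _ => one_ne_zero) hq (sep_self (h hq))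
    hp

theorem sep_compat {c' : Ch S} (hp : p ∈ c.B \ l.T) (hq : q ∈ c.B \ l.T) (hp' : p ∈ c'.B)
    (hq' : q ∈ c'.B) {s : S → ℂ} (hs : ContinuousOn s {x | x ≠ p ∧ x ≠ q})
    (h : ∀ x, x ≠ p → x ≠ q → s x ^ 2 * c.Φ p q x = c'.Φ p q x) :
    sep c' l p q = sep c l p q := by
  have s0 : ∀ x, x ≠ p → x ≠ q → s x ≠ 0 := fun x a1 a2 e =>
    c'.ne p hp' q hq' x a1 a2 (by rw [← h x a1 a2, e]; simp)
  have key : ∀ f : I → S, Continuous f → (∀ t, f t ≠ p) → (∀ t, f t ≠ q) →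
      eps (fun t => c'.Φ p q (f t)) = s (f 1) / s (f 0) * eps fun t => c.Φ p q (f t) := by
    intro f hf a1 a2
    have b1 : Continuous fun t => s (f t) := hs.comp_continuous hf fun t => ⟨a1 t, a2 t⟩
    have b2 : ∀ t, s (f t) ^ 2 ≠ 0 := fun t => pow_ne_zero _ (s0 _ (a1 t) (a2 t))
    rw [eps_mul (f := fun t => s (f t) ^ 2) (b1.pow 2) b2 (Ch.pc hf hp.1 hq.1 a2)
      (fun t => c.ne p hp.1 q hq.1 _ (a1 t) (a2 t)) fun t => h _ (a1 t) (a2 t),
      eps_eq (k := 1) b1 b2 fun t => mul_one _]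
  have a1 := s0 _ (Lp.nf hp 0) (Lp.nf hq 0)
  have a2 := s0 _ (Lp.nf hp 1) (Lp.nf hq 1)
  simp only [sep]
  rw [key l.f l.cf (Lp.nf hp) (Lp.nf hq), key l.g l.cg (Lp.ng hp) (Lp.ng hq), l.e0, l.e1]
  field_simp

theorem circ_line {o a e p : ℂ} {r s : ℝ} (ha : a ∈ sphere o r) (he : e ∈ sphere o r)
    (hp : p ∈ closedBall o r) (hs : 0 ≤ s) (h : e = p + s • (a - p)) : e = a ∨ e = p := by
  rw [mem_sphere_iff_norm] at ha he
  rw [mem_closedBall_iff_norm] at hp
  have h1 : ‖p - o‖ ^ 2 ≤ r ^ 2 := pow_le_pow_left₀ (norm_nonneg _) hp 2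
  have h2 : ‖a - o‖ ^ 2 = r ^ 2 := by rw [ha]
  have h3 : ‖e - o‖ ^ 2 = r ^ 2 := by rw [he]
  have h4 : (1 - s) * (r ^ 2 - ‖p - o‖ ^ 2 + s * ‖a - p‖ ^ 2) = 0 := by
    rw [h] at h3
    simp only [Complex.sq_norm, Complex.normSq_apply, Complex.sub_re, Complex.sub_im,
      Complex.add_re, Complex.add_im, Complex.smul_re, Complex.smul_im, smul_eq_mul] at *
    linear_combination s * h2 - h3
  rcases mul_eq_zero.1 h4 with h5 | h5
  · left
    rw [h, show s = 1 by linarith]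
    simp
  · have h6 : s * ‖a - p‖ ^ 2 = 0 := by
      have := mul_nonneg hs (sq_nonneg ‖a - p‖)
      linarith
    right
    rcases mul_eq_zero.1 h6 with h7 | h7
    · simp [h, h7]
    · simp [h, norm_eq_zero.1 (pow_eq_zero_iff two_ne_zero |>.1 h7)]

theorem circ_conj {o a e b : ℂ} {r : ℝ} (hr : 0 < r) (ha : a ∈ sphere o r) (he : e ∈ sphere o r)
    (hb : b ∈ sphere o r) (hab : a ≠ b) :
    (starRingEnd ℂ) ((e - b) / (a - b)) = (e - b) / (a - b) * ((a - o) / (e - o)) := by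
  have key : ∀ z ∈ sphere o r, z - o ≠ 0 ∧ (starRingEnd ℂ) (z - o) = r ^ 2 / (z - o) := by
    intro z hz
    rw [mem_sphere_iff_norm] at hz
    have h0 : z - o ≠ 0 := norm_pos_iff.1 (by linarith)
    exact ⟨h0, by rw [eq_div_iff h0, Complex.conj_mul', hz]⟩
  obtain ⟨a0, a1⟩ := key a ha
  obtain ⟨e0, e1⟩ := key e he
  obtain ⟨b0, b1⟩ := key b hb
  have h1 : ∀ z, z - b = (z - o) - (b - o) := fun z => by ring
  have h2 : a - o - (b - o) ≠ 0 := by rw [← h1]; exact sub_ne_zero.2 hab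
  have h3 : b - o - (a - o) ≠ 0 := fun c => h2 (by linear_combination -c)
  have h4 : (r : ℂ) ≠ 0 := by exact_mod_cast hr.ne'
  rw [h1 e, h1 a, map_div₀, map_sub _ (e - o), map_sub _ (a - o), a1, e1, b1]
  generalize a - o = A at *
  generalize e - o = E at *
  generalize b - o = B at *
  field_simp
  ring

/-- The points `b` and `d` lie on different sides of the line through `a` and `e`. -/
def Opp (a e b d : ℂ) : Prop := ((e - b) / (a - b)).im * ((e - d) / (a - d)).im < 0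

theorem circ_ratio {o a e b d : ℂ} {r : ℝ} (hr : 0 < r) (ha : a ∈ sphere o r)
    (he : e ∈ sphere o r) (hb : b ∈ sphere o r) (hd : d ∈ sphere o r) (hae : a ≠ e) (hab : a ≠ b)
    (had : a ≠ d) (hed : e ≠ d) : ∃ x : ℝ, x * ((a - b) * (e - d)) = (a - d) * (e - b) ∧
      (x < 0 → Opp a e b d) := by
  have h1 := circ_conj hr ha he hb hab
  have h2 := circ_conj hr ha he hd had
  have a0 : a - o ≠ 0 := norm_pos_iff.1 (by rw [mem_sphere_iff_norm.1 ha]; exact hr)
  have e0 : e - o ≠ 0 := norm_pos_iff.1 (by rw [mem_sphere_iff_norm.1 he]; exact hr)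
  have n1 := sub_ne_zero.2 hab
  have n2 := sub_ne_zero.2 had
  have n3 := sub_ne_zero.2 hed
  have n4 := div_ne_zero n3 n2
  obtain ⟨x, hx⟩ := Complex.conj_eq_iff_real.1
    (show (starRingEnd ℂ) ((e - b) / (a - b) / ((e - d) / (a - d))) = _ by
      rw [map_div₀, h1, h2, mul_div_mul_right _ _ (div_ne_zero a0 e0)])
  refine ⟨x, by rw [← hx]; field_simp, fun h => ?_⟩
  have h3 : ((e - d) / (a - d)).im ≠ 0 := fun c => by
    rw [Complex.conj_eq_iff_im.2 c, left_eq_mul₀ n4, div_eq_one_iff_eq e0] at h2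
    exact hae (sub_left_injective h2)
  rw [Opp, (div_eq_iff n4).1 hx, Complex.im_ofReal_mul, mul_assoc]
  exact mul_neg_of_neg_of_pos h (mul_self_pos.2 h3)

theorem circ_opp {o a e b d : ℂ} {r : ℝ} (hr : 0 < r) (ha : a ∈ sphere o r)
    (he : e ∈ sphere o r) (hb : b ∈ sphere o r) (hd : d ∈ sphere o r) (hae : a ≠ e) (hab : a ≠ b)
    (had : a ≠ d) (heb : e ≠ b) (hed : e ≠ d) (hbd : b ≠ d) :
    Opp a e b d ∨ Opp a b e d ∨ Opp a d b e := by
  obtain ⟨x, x1, x2⟩ := circ_ratio hr ha he hb hd hae hab had hed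
  obtain ⟨y, y1, y2⟩ := circ_ratio hr ha hb he hd hab hae had hbd
  obtain ⟨z, z1, z2⟩ := circ_ratio hr ha hd hb he had hab hae hed.symm
  have n1 := mul_ne_zero (sub_ne_zero.2 hab) (sub_ne_zero.2 hed)
  have h1 : x + z = 1 := by
    have : ((x + z : ℝ) : ℂ) = 1 := mul_right_cancel₀ n1 (by
      push_cast
      linear_combination x1 - z1)
    exact_mod_cast this
  have h2 : y * z = -x := by
    have : ((y * z : ℝ) : ℂ) = ((-x : ℝ) : ℂ) := mul_right_cancel₀ n1 (by
      push_cast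
      linear_combination x1 - y * z1 + y1)
    exact_mod_cast this
  have h3 : x ≠ 0 := by
    rintro rfl
    exact mul_ne_zero (sub_ne_zero.2 had) (sub_ne_zero.2 heb) (by simpa using x1.symm)
  by_contra c
  push Not at c
  have b1 := not_lt.1 fun h => c.1 (x2 h)
  have b2 := not_lt.1 fun h => c.2.1 (y2 h)
  have b3 := not_lt.1 fun h => c.2.2 (z2 h)
  have := mul_nonneg b2 b3
  exact h3 (by linarith)

/-- The principal square root. -/
noncomputable def sr (z : ℂ) : ℂ := Complex.exp (Complex.log z / 2)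

theorem sr_sq {z : ℂ} (h : z ∈ Complex.slitPlane) : sr z ^ 2 = z := by
  rw [sq, sr, ← Complex.exp_add, add_halves, Complex.exp_log (Complex.slitPlane_ne_zero h)]

theorem sr_cont {f : I → ℂ} (hf : Continuous f) (h : ∀ t, f t ∈ Complex.slitPlane) :
    Continuous fun t => sr (f t) :=
  ((hf.clog h).div_const 2).cexp

theorem sr_neg {z w : ℂ} (h : z.im * w.im < 0) : sr z / sr w * (sr (-w) / sr (-z)) = -1 := by
  have k1 : ∀ z : ℂ, 0 < z.im → Complex.log (-z) = Complex.log z - Real.pi * Complex.I :=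
    fun z hz => by
      simp only [Complex.log, norm_neg, Complex.arg_neg_eq_arg_sub_pi_of_im_pos hz]
      push_cast
      ring
  have k2 : ∀ z : ℂ, z.im < 0 → Complex.log (-z) = Complex.log z + Real.pi * Complex.I :=
    fun z hz => by
      simp only [Complex.log, norm_neg, Complex.arg_neg_eq_arg_add_pi_of_im_neg hz]
      push_cast
      ring
  simp only [sr, ← Complex.exp_sub, ← Complex.exp_add]
  rcases mul_neg_iff.1 h with ⟨a1, a2⟩ | ⟨a1, a2⟩
  · rw [k1 z a1, k2 w a2, ← Complex.exp_pi_mul_I]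
    exact congrArg _ (by ring)
  · rw [k2 z a1, k1 w a2, ← Complex.exp_neg_pi_mul_I]
    exact congrArg _ (by ring)

/-- A chord of a disc separates boundary points on opposite sides. -/
theorem sep_cross {o a e b d : ℂ} {r : ℝ} (hK : closedBall o r ⊆ c.φ.target)
    (hB : c.φ.source ∩ c.φ ⁻¹' closedBall o r ⊆ c.B) (ha : a ∈ sphere o r) (he : e ∈ sphere o r)
    (hb : b ∈ sphere o r) (hd : d ∈ sphere o r) (hae : a ≠ e) (hab : a ≠ b) (had : a ≠ d)
    (heb : e ≠ b) (hed : e ≠ d) (hf : ∀ t, l.f t = c.φ.symm (a + (t : ℝ) • (e - a)))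
    (hg : ∀ t, ∀ z ∈ closedBall o r, l.g t = c.φ.symm z → z = a ∨ z = e) (h : Opp a e b d) :
    sep c l (c.φ.symm b) (c.φ.symm d) = -1 := by
  have sb := @sphere_subset_closedBall _ _ o r
  have h1 : ∀ z ∈ closedBall o r, c.φ (c.φ.symm z) = z := fun z hz => c.φ.right_inv (hK hz)
  have h2 : ∀ z ∈ closedBall o r, c.φ.symm z ∈ c.B := fun z hz =>
    hB ⟨c.φ.map_target (hK hz), by rwa [mem_preimage, h1 z hz]⟩
  have h3 : ∀ z ∈ closedBall o r, ∀ p ∈ closedBall o r,
      c.Φ (c.φ.symm p) (c.φ.symm d) (c.φ.symm z) = (z - p) / (z - d) := fun z hz p hp => by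
    rw [c.loc _ _ _ (h2 z hz), h1 z hz, h1 p hp, h1 d (sb hd)]
  set u : ℂ → ℂ := fun p => (e - p) / (a - p) with hu
  have n1 := sub_ne_zero.2 hab
  have n2 := sub_ne_zero.2 had
  have n3 := sub_ne_zero.2 hed
  have i1 : ∀ z : ℂ, z.im ≠ 0 → ∀ t : I, 1 + (t : ℝ) • (z - 1) ∈ Complex.slitPlane := by
    intro z hz t
    rw [Complex.mem_slitPlane_iff]
    by_cases c : (t : ℝ) = 0
    · simp [c]
    · simp [c, hz]
  have i2 := i1 (u b) (left_ne_zero_of_mul h.ne)
  have i3 := i1 (u d) (right_ne_zero_of_mul h.ne)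
  have E1 : eps (fun t => c.Φ (c.φ.symm b) (c.φ.symm d) (l.f t)) = sr (u b) / sr (u d) := by
    have k1 : ∀ t : I, (sr (1 + (t : ℝ) • (u b - 1)) / sr (1 + (t : ℝ) • (u d - 1))) ^ 2 *
        ((a - b) / (a - d)) = c.Φ (c.φ.symm b) (c.φ.symm d) (l.f t) := fun t => by
      rw [hf, h3 _ ((convex_closedBall o r).add_smul_sub_mem (sb ha) (sb he) t.2) b (sb hb),
        div_pow, sr_sq (i2 t), sr_sq (i3 t), div_mul_div_comm]
      simp only [hu, Complex.real_smul]
      refine congrArg₂ _ ?_ ?_ <;> field_simp <;> ring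
    rw [eps_eq ((sr_cont (by fun_prop) i2).div (sr_cont (by fun_prop) i3)
      fun t => Complex.exp_ne_zero _) (fun t => k1 t ▸ mul_ne_zero (pow_ne_zero _ (div_ne_zero
        (Complex.exp_ne_zero _) (Complex.exp_ne_zero _))) (div_ne_zero n1 n2)) k1]
    simp [sr]
  set P : I → ℂ := fun s => d + (s : ℝ) • (b - d) with hP
  have p1 : ∀ s, P s ∈ closedBall o r := fun s =>
    (convex_closedBall o r).add_smul_sub_mem (sb hd) (sb hb) s.2
  have p2 : ∀ s, a ≠ P s := fun s c => (circ_line hb ha (sb hd) s.2.1 c).elim hab had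
  have p3 : ∀ s, e ≠ P s := fun s c => (circ_line hb he (sb hd) s.2.1 c).elim heb hed
  have p4 : ∀ s, -u (P s) ∈ Complex.slitPlane := fun s => by
    by_contra c
    rw [Complex.mem_slitPlane_iff, not_or, not_lt, not_not, Complex.neg_re, Complex.neg_im,
      neg_nonpos, neg_eq_zero] at c
    refine (circ_line ha he (p1 s) c.1 ?_).elim hae.symm (p3 s)
    rw [Complex.real_smul, show (((u (P s)).re : ℝ) : ℂ) = u (P s) from
      Complex.ext rfl c.2.symm, hu]
    simp only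
    rw [div_mul_cancel₀ _ (sub_ne_zero.2 (p2 s)), add_sub_cancel]
  have p5 : ∀ s t, l.g t ≠ c.φ.symm (P s) := fun s t c =>
    (hg t _ (p1 s) c).elim (p2 s).symm (p3 s).symm
  have p0 : P 0 = d := by simp [hP]
  have p6 : ∀ t, l.g t ≠ c.φ.symm d := p0 ▸ p5 0
  have p7 := fun s t => c.ne _ (h2 _ (p1 s)) _ (h2 _ (sb hd)) _ (p5 s t) (p6 t)
  have p8 : Continuous fun s => c.φ.symm (P s) :=
    c.φ.continuousOn_symm.comp_continuous (by fun_prop) fun s => hK (p1 s)
  have p9 : Continuous fun s => -u (P s) :=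
    (Continuous.div (by fun_prop) (by fun_prop) fun s => sub_ne_zero.2 (p2 s)).neg
  have E2 := isPreconnected_univ.eq_of_sq_eq
    (f := fun s => eps fun t => c.Φ (c.φ.symm (P s)) (c.φ.symm d) (l.g t))
    (g := fun s => sr (-u d) / sr (-u (P s)))
    (eps_par (fun x : I × I => c.Φ (c.φ.symm (P x.2)) (c.φ.symm d) (l.g x.1))
      (c.cont' (p8.comp continuous_snd) continuous_const (l.cg.comp continuous_fst)
        (fun x => h2 _ (p1 _)) (fun _ => h2 _ (sb hd)) fun x => p6 _)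
      fun x => p7 _ _).continuousOn
    (continuous_const.div (sr_cont p9 p4) fun _ => Complex.exp_ne_zero _).continuousOn
    (fun s _ => by
      have := eps_sq (Ch.pc l.cg (h2 _ (p1 s)) (h2 _ (sb hd)) p6) (p7 s)
      have n4 := sub_ne_zero.2 (p2 s)
      have n5 := sub_ne_zero.2 (p3 s)
      rw [l.e0, l.e1, hf, hf, Icc.coe_zero, Icc.coe_one, zero_smul, add_zero, one_smul,
        add_sub_cancel, h3 a (sb ha) _ (p1 s), h3 e (sb he) _ (p1 s)] at this
      simp only [Pi.pow_apply]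
      rw [div_pow, sr_sq (p4 s), sr_sq (p0 ▸ p4 0), eq_div_of_mul_eq (div_ne_zero n5 n3) this]
      simp only [hu]
      field_simp)
    (fun _ => div_ne_zero (Complex.exp_ne_zero _) (Complex.exp_ne_zero _)) (mem_univ 0)
    (by
      simp only [p0]
      rw [eps_eq (u := fun _ => 1) (k := 1) continuous_const (p0 ▸ p7 0) fun t => by
        rw [c.self (h2 _ (sb hd)) (p6 t)]
        simp, div_self one_ne_zero, sr, div_self (Complex.exp_ne_zero _)]) (mem_univ 1)
  simp only [show P 1 = b by simp [hP]] at E2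
  rw [sep, E1, E2]
  exact sr_neg h

end Pool.Agent.Lib.OG59
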