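import Mathlib
import Pool.Agent.Lib.OG59.Main
import Pool.Agent.Lib.OG59.Sep

set_option autoImplicit false

open Set Function unitInterval Metric Topology Filter

namespace Pool.Agent.Lib.OG59

open Pool.Agent.Lib.MP_15a8b6_co Pool.Agent.Lib.EU59

variable {S : Type*} [TopologicalSpace S]

theorem sgn_swap {a b c d : ℂ} (hb : b ^ 2 = 1) (hc : c ^ 2 = 1) (h : a * b = c * d) :
    a * c = b * d := by
  linear_combination (-a * c) * hb + c * b * h + b * d * hc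

/-- Among many closed curves on a compact surface two separate in the same way. -/
theorem exists_cover [T2Space S] [CompactSpace S] [ChartedSpace E2 S] :
    ∃ (k : ℕ) (N : S → Set S) (c : S → Ch S), (∀ z, N z ∈ 𝓝 z ∧ N z ⊆ (c z).B) ∧
      ∀ l : Fin (k + 1) → Lp S, ∃ t t', t ≠ t' ∧ ∀ O, IsPreconnected O → Disjoint O (l t).T →
        Disjoint O (l t').T → ∀ z, ∀ x ∈ O ∩ N z, ∀ y ∈ O ∩ N z,
          sep (c z) (l t) x y = sep (c z) (l t') x y := by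
  classical
  choose c hc using exists_ch (S := S)
  have h1 : ∀ z, ∃ C, IsCompact C ∧ C ⊆ (c z).B ∧ C ∈ 𝓝 z := fun z => by
    obtain ⟨r, hr, a1, a2⟩ := exists_dsc (c z).φ ((c z).src (hc z)) (c z).opn (hc z)
    exact ⟨_, isCompact_dsc _ a1, a2, mem_of_superset (((c z).φ.isOpen_inter_preimage
      isOpen_ball).mem_nhds ⟨(c z).src (hc z), mem_ball_self hr⟩)
      fun x hx => ⟨hx.1, ball_subset_closedBall hx.2⟩⟩
  choose C c1 c2 c3 using h1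
  obtain ⟨A, -, hA⟩ := isCompact_univ.elim_nhds_subcover (fun z => interior (C z))
    fun z _ => interior_mem_nhds.2 (c3 z)
  have h2 : ∀ z, ∃ a ∈ A, C a ∈ 𝓝 z := fun z => by
    simpa [mem_interior_iff_mem_nhds] using hA (mem_univ z)
  choose a a1 a2 using h2
  have h3 : ∀ a b z, ∃ Q : Set S, (z ∈ C a ∩ C b → Q ∈ 𝓝 z) ∧ Q ⊆ (c a).B ∩ (c b).B ∧
      ∀ l : Lp S, ∀ p ∈ Q \ l.T, ∀ q ∈ Q \ l.T, sep (c b) l p q = sep (c a) l p q := by
    intro a b z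
    by_cases h : z ∈ C a ∩ C b
    · obtain ⟨Q, q1, q2, q3, q4⟩ := (c a).compat (c b) (c2 a h.1) (c2 b h.2)
      refine ⟨Q, fun _ => q1.mem_nhds q2, q3, fun l p hp q hq => ?_⟩
      obtain ⟨s, s1, s2⟩ := q4 p hp.1 q hq.1
      exact sep_compat ⟨(q3 hp.1).1, hp.2⟩ ⟨(q3 hq.1).1, hq.2⟩ (q3 hp.1).2 (q3 hq.1).2 s1 s2
    · exact ⟨∅, fun h' => absurd h' h, empty_subset _, fun _ _ h => h.1.elim⟩
  choose Q q1 q2 q3 using h3
  choose Z _ hZ using fun a b => ((c1 a).inter (c1 b)).elim_nhds_subcover (Q a b) (q1 a b)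
  set J : Finset (S × S × S) := (A ×ˢ A).biUnion fun x => (Z x.1 x.2).image fun z => (x.1, x.2, z)
    with hJ
  have h4 : ∀ (l : Lp S) a, ∃ b, ∀ p ∈ (c a).B \ l.T, b ∈ (c a).B \ l.T := fun l a => by
    by_cases h : ((c a).B \ l.T).Nonempty
    · exact ⟨_, fun _ _ => h.some_mem⟩
    · exact ⟨a, fun p hp => absurd ⟨p, hp⟩ h⟩
  choose bs hbs using h4
  set s : Lp S → S → S → ℂ := fun l a p => sep (c a) l p (bs l a) with hs
  have s1 : ∀ l a, ∀ p ∈ (c a).B \ l.T, s l a p ^ 2 = 1 := fun l a p hp => sep_sq hp (hbs l a p hp)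
  have s2 : ∀ l a, ∀ p ∈ (c a).B \ l.T, ∀ q ∈ (c a).B \ l.T,
      s l a p * s l a q = sep (c a) l p q := fun l a p hp q hq => sep_base hp hq (hbs l a p hp)
  set g : Lp S → S × S × S → Prop := fun l j => ∀ p ∈ Q j.1 j.2.1 j.2.2 \ l.T,
    s l j.1 p * s l j.2.1 p = 1 with hg
  have s3 : ∀ l a b z, ∀ p ∈ Q a b z \ l.T,
      s l a p * s l b p = if g l (a, b, z) then 1 else -1 := by
    intro l a b z p hp
    have m1 : ∀ p ∈ Q a b z \ l.T, p ∈ (c a).B \ l.T := fun p hp => ⟨(q2 a b z hp.1).1, hp.2⟩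
    have m2 : ∀ p ∈ Q a b z \ l.T, p ∈ (c b).B \ l.T := fun p hp => ⟨(q2 a b z hp.1).2, hp.2⟩
    split_ifs with h
    · exact h p hp
    · refine (sq_eq_one_iff.1 (by rw [mul_pow, s1 l a p (m1 p hp), s1 l b p (m2 p hp),
        one_mul])).resolve_left fun e => h fun q hq => ?_
      rw [← e]
      exact (sgn_swap (s1 l a q (m1 q hq)) (s1 l b p (m2 p hp)) (by
        rw [s2 l a p (m1 p hp) q (m1 q hq), s2 l b p (m2 p hp) q (m2 q hq),
          q3 a b z l p hp q hq])).symm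
  refine ⟨J.powerset.card, fun z => C (a z), fun z => c (a z), fun z => ⟨a2 z, c2 _⟩, fun l => ?_⟩
  obtain ⟨t, -, t', -, htt, e⟩ := Finset.exists_ne_map_eq_of_card_lt_of_maps_to
    (s := Finset.univ) (t := J.powerset) (by simp) (f := fun t => J.filter (g (l t)))
    fun t _ => Finset.mem_coe.2 (Finset.mem_powerset.2 (Finset.filter_subset _ _))
  refine ⟨t, t', htt, fun O hO d1 d2 => ?_⟩
  have m1 : ∀ b, ∀ x ∈ O ∩ C b, x ∈ (c b).B \ (l t).T := fun b x hx =>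
    ⟨c2 b hx.2, disjoint_left.1 d1 hx.1⟩
  have m2 : ∀ b, ∀ x ∈ O ∩ C b, x ∈ (c b).B \ (l t').T := fun b x hx =>
    ⟨c2 b hx.2, disjoint_left.1 d2 hx.1⟩
  set δ : S → ℂ := fun x => s (l t) (a x) x * s (l t') (a x) x with hδ
  have e1 : ∀ z, ∀ x ∈ O ∩ C (a z), δ x = s (l t) (a z) x * s (l t') (a z) x := by
    intro z x hx
    have hx' : x ∈ O ∩ C (a x) := ⟨hx.1, mem_of_mem_nhds (a2 x)⟩
    obtain ⟨w, w1, w2⟩ := mem_iUnion₂.1 (hZ (a x) (a z) ⟨hx'.2, hx.2⟩)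
    have hj : (a x, a z, w) ∈ J := Finset.mem_biUnion.2 ⟨(a x, a z),
      Finset.mem_product.2 ⟨a1 x, a1 z⟩, Finset.mem_image.2 ⟨w, w1, rfl⟩⟩
    have hiff : g (l t) (a x, a z, w) ↔ g (l t') (a x, a z, w) := by
      simpa [hj] using Finset.ext_iff.1 e (a x, a z, w)
    exact sgn_swap (s1 _ _ x (m1 _ x hx)) (s1 _ _ x (m2 _ x hx')) (by
      rw [s3 _ _ _ w x ⟨w2, (m1 _ x hx).2⟩, s3 _ _ _ w x ⟨w2, (m2 _ x hx).2⟩]
      exact if_congr hiff rfl rfl)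
  have e2 : ContinuousOn δ O := fun x hx => by
    have hx' : x ∈ O ∩ C (a x) := ⟨hx, mem_of_mem_nhds (a2 x)⟩
    exact (continuousWithinAt_inter (a2 x)).1 ((((sep_cont (hbs _ _ x (m1 _ x hx'))).mono
      (m1 _)).mul ((sep_cont (hbs _ _ x (m2 _ x hx'))).mono (m2 _))).congr (e1 x) x hx')
  have e3 : ∀ x ∈ O, δ x ^ 2 = 1 := fun x hx => by
    have hx' : x ∈ O ∩ C (a x) := ⟨hx, mem_of_mem_nhds (a2 x)⟩
    rw [hδ, mul_pow, s1 _ _ x (m1 _ x hx'), s1 _ _ x (m2 _ x hx'), one_mul]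
  intro z x hx y hy
  have e4 : δ x = δ y := hO.eq_of_sq_eq (g := fun _ => δ y) e2 continuousOn_const
    (fun w hw => (e3 w hw).trans (e3 y hy.1).symm)
    (fun _ c => by simpa [c] using e3 y hy.1) hy.1 rfl hx.1
  rw [e1 z x hx, e1 z y hy] at e4
  rw [← s2 _ _ x (m1 _ x hx) y (m1 _ y hy), ← s2 _ _ x (m2 _ x hx) y (m2 _ y hy)]
  exact sgn_swap (s1 _ _ x (m2 _ x hx)) (s1 _ _ y (m1 _ y hy)) e4

theorem arc_joined {A : Set S} {p q : S} (h : IsArc A p q) : JoinedIn A p q := by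
  obtain ⟨γ, -, rfl⟩ := h
  exact ⟨γ, fun t => ⟨t, rfl⟩⟩

/-- Two triangles of an embedded `K₅` through the vertex `v` cross there. -/
theorem local_cross [T2Space S] (c : Ch S) {v : S} {N Ω : Set S} (hN : N ∈ 𝓝 v) (hB : N ⊆ c.B)
    (hΩ : IsOpen Ω) (p : Fin 4 → S) (A0 : Fin 4 → Set S) (A : Fin 4 → Fin 4 → Set S)
    (h0 : ∀ i, IsArc (A0 i) (p i) v ∧ A0 i ⊆ Ω)
    (h1 : ∀ i j, i ≠ j → IsArc (A i j) (p i) (p j) ∧ A i j ⊆ Ω ∧ v ∉ A i j)
    (d0 : ∀ i j, i ≠ j → A0 i ∩ A0 j ⊆ {v})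
    (d1 : ∀ i j k, i ≠ j → k ≠ i → k ≠ j → Disjoint (A0 k) (A i j))
    (d2 : ∀ i j k m, i ≠ j → k ≠ m → k ≠ i → k ≠ j → m ≠ i → m ≠ j → Disjoint (A i j) (A k m)) :
    ∃ (l : Lp S) (x y : S) (O O' : Set S), l.T ⊆ Ω ∧ O ⊆ Ω ∧ IsPreconnected O ∧ Disjoint O l.T ∧
      x ∈ O ∩ N ∧ y ∈ O ∩ N ∧ O' ⊆ Ω ∩ c.B ∧ IsPreconnected O' ∧ x ∈ O' ∧ y ∈ O' ∧
      sep c l x y = -1 := by
  have hv := c.src (hB (mem_of_mem_nhds hN))
  have hcl : IsClosed (⋃ i, ⋃ j, ⋃ (_ : i ≠ j), A i j) := isClosed_iUnion_of_finite fun i =>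
    isClosed_iUnion_of_finite fun j => isClosed_iUnion_of_finite fun h =>
      (isArc_compact (h1 i j h).1).isClosed
  obtain ⟨r, hr, hK, hO⟩ := exists_dsc c.φ hv ((isOpen_interior.inter hΩ).inter hcl.isOpen_compl)
    ⟨⟨mem_interior_iff_mem_nhds.2 hN, (h0 0).2 (h0 0).1.right_mem⟩, by
      simp only [mem_compl_iff, mem_iUnion, not_exists]
      exact fun i j h => (h1 i j h).2.2⟩
  set o := c.φ v with ho
  set K := c.φ.source ∩ c.φ ⁻¹' closedBall o r with hKd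
  have k1 : ∀ i j, i ≠ j → ∀ x ∈ A i j, x ∉ K := fun i j h x hx e =>
    (hO e).2 (mem_iUnion.2 ⟨i, mem_iUnion.2 ⟨j, mem_iUnion.2 ⟨h, hx⟩⟩⟩)
  have k2 : K ⊆ N := fun x hx => interior_subset (hO hx).1.1
  have k3 : K ⊆ Ω := fun x hx => (hO hx).1.2
  have hvU : v ∈ c.φ.source ∩ c.φ ⁻¹' ball o r := ⟨hv, mem_ball_self hr⟩
  choose q B q1 q2 q3 q4 q5 using fun i => (h0 i).1.first_hit (isCompact_dsc c.φ hK).isClosed
    (c.φ.isOpen_inter_preimage isOpen_ball) (fun x hx => ⟨hx.1, ball_subset_closedBall hx.2⟩)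
    (k1 i (i + 1) (by simp) _ (h1 i (i + 1) (by simp)).1.left_mem) hvU
  set z : Fin 4 → ℂ := fun i => c.φ (q i) with hz
  have z1 : ∀ i, z i ∈ sphere o r := fun i =>
    le_antisymm (q1 i).2 (not_lt.1 fun h => q2 i ⟨(q1 i).1, h⟩)
  have z2 : ∀ i, c.φ.symm (z i) = q i := fun i => c.φ.left_inv (q1 i).1
  have dB : ∀ i j, i ≠ j → Disjoint (B i) (B j) := fun i j h => disjoint_left.2 fun x a1 a2 => by
    obtain rfl : x = v := d0 i j h ⟨q4 i a1, q4 j a2⟩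
    exact q2 i (q5 i ⟨a1, hvU.1, ball_subset_closedBall hvU.2⟩ ▸ hvU)
  have z3 : ∀ i j, i ≠ j → z i ≠ z j := fun i j h e => disjoint_left.1 (dB i j h) (q3 i).right_mem
    (c.φ.injOn (q1 i).1 (q1 j).1 e ▸ (q3 j).right_mem)
  have out : ∀ i j, i ≠ j → ∃ γ : Path (q i) (q j), ∀ t, γ t ∈ B i ∪ A i j ∪ B j := fun i j h =>
    (((arc_joined (q3 i).symm).mono fun _ h => Or.inl (Or.inl h)).trans
      ((arc_joined (h1 i j h).1).mono fun _ h => Or.inl (Or.inr h))).trans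
      ((arc_joined (q3 j)).mono fun _ h => Or.inr h)
  have o1 : ∀ i j, i ≠ j → B i ∪ A i j ∪ B j ⊆ Ω := fun i j h => union_subset (union_subset
    ((q4 i).trans (h0 i).2) (h1 i j h).2.1) ((q4 j).trans (h0 j).2)
  have o2 : ∀ i j, i ≠ j → ∀ x ∈ B i ∪ A i j ∪ B j, x ∈ K → x = q i ∨ x = q j := by
    rintro i j h x ((a1 | a1) | a1) a2
    · exact Or.inl (q5 i ⟨a1, a2⟩)
    · exact absurd a2 (k1 i j h x a1)
    · exact Or.inr (q5 j ⟨a1, a2⟩)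
  have hsym : ∀ w ∈ closedBall o r, c.φ.symm w ∈ K := fun w hw =>
    ⟨c.φ.map_target (hK hw), by rwa [mem_preimage, c.φ.right_inv (hK hw)]⟩
  have ch1 : ∀ i j (t : I), z i + (t : ℝ) • (z j - z i) ∈ closedBall o r := fun i j t =>
    (convex_closedBall o r).add_smul_sub_mem (sphere_subset_closedBall (z1 i))
      (sphere_subset_closedBall (z1 j)) t.2
  have ch2 : ∀ i j, Continuous fun t : I => c.φ.symm (z i + (t : ℝ) • (z j - z i)) := fun i j =>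
    c.φ.continuousOn_symm.comp_continuous (by fun_prop) fun t => hK (ch1 i j t)
  have key : ∀ i j k m, i ≠ j → k ≠ m → k ≠ i → k ≠ j → m ≠ i → m ≠ j →
      Opp (z i) (z j) (z k) (z m) →
      ∃ (l : Lp S) (x y : S) (O O' : Set S), l.T ⊆ Ω ∧ O ⊆ Ω ∧ IsPreconnected O ∧ Disjoint O l.T ∧
        x ∈ O ∩ N ∧ y ∈ O ∩ N ∧ O' ⊆ Ω ∩ c.B ∧ IsPreconnected O' ∧ x ∈ O' ∧ y ∈ O' ∧
        sep c l x y = -1 := by
    intro i j k m n1 n2 n3 n4 n5 n6 h
    obtain ⟨γ, hγ⟩ := out j i n1.symm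
    obtain ⟨η, hη⟩ := out k m n2
    refine ⟨⟨_, γ, ch2 i j, γ.continuous, by simp [z2], by simp [z2]⟩, q k, q m, range η, range _,
      ?_, ?_, isPreconnected_range η.continuous, ?_, ⟨⟨0, η.source⟩, k2 (q1 k)⟩,
      ⟨⟨1, η.target⟩, k2 (q1 m)⟩, ?_, isPreconnected_range (ch2 k m), ⟨0, by simp [z2]⟩,
      ⟨1, by simp [z2]⟩, ?_⟩
    · rintro _ (⟨t, rfl⟩ | ⟨t, rfl⟩)
      · exact k3 (hsym _ (ch1 i j t))
      · exact o1 j i n1.symm (hγ t)
    · rintro _ ⟨t, rfl⟩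
      exact o1 k m n2 (hη t)
    · refine disjoint_left.2 ?_
      rintro _ ⟨s, rfl⟩ (⟨t, e⟩ | ⟨t, e⟩)
      · have e' : c.φ.symm (z i + (t : ℝ) • (z j - z i)) = η s := e
        have key : ∀ w, w ≠ i → w ≠ j → η s ≠ q w := fun w a1 a2 a3 => by
          have := congrArg c.φ (e'.trans a3)
          rw [c.φ.right_inv (hK (ch1 i j t))] at this
          exact (circ_line (z1 j) (z1 w) (sphere_subset_closedBall (z1 i)) t.2.1 this.symm).elim
            (z3 w j a2) (z3 w i a1)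
        exact (o2 k m n2 _ (hη s) (e' ▸ hsym _ (ch1 i j t))).elim (key k n3 n4) (key m n5 n6)
      · have e' : γ t = η s := e
        have a1 := hγ t
        rw [e'] at a1
        have hd : Disjoint (B j ∪ A j i ∪ B i) (B k ∪ A k m ∪ B m) := by
          simp only [disjoint_union_left, disjoint_union_right]
          exact ⟨⟨⟨⟨dB _ _ n4.symm, ((d1 j i k n1.symm n4 n3).mono_left (q4 k)).symm⟩,
            dB _ _ n3.symm⟩, ⟨(d1 k m j n2 n4.symm n6.symm).mono_left (q4 j),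
              d2 j i k m n1.symm n2 n4 n3 n6 n5⟩, (d1 k m i n2 n3.symm n5.symm).mono_left (q4 i)⟩,
            ⟨dB _ _ n6.symm, ((d1 j i m n1.symm n6 n5).mono_left (q4 m)).symm⟩, dB _ _ n5.symm⟩
        exact disjoint_left.1 hd a1 (hη s)
    · rintro _ ⟨t, rfl⟩
      exact ⟨k3 (hsym _ (ch1 k m t)), hB (k2 (hsym _ (ch1 k m t)))⟩
    · rw [← z2 k, ← z2 m]
      refine sep_cross hK (k2.trans hB) (z1 i) (z1 j) (z1 k) (z1 m) (z3 _ _ n1) (z3 _ _ n3.symm)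
        (z3 _ _ n5.symm) (z3 _ _ n4.symm) (z3 _ _ n6.symm) (fun t => rfl) (fun t w hw e => ?_) h
      have e' : γ t = c.φ.symm w := e
      have a1 : c.φ (γ t) = w := by rw [e', c.φ.right_inv (hK hw)]
      rcases o2 j i n1.symm _ (hγ t) (e' ▸ hsym w hw) with a2 | a2
      · exact Or.inr (by rw [← a1, a2])
      · exact Or.inl (by rw [← a1, a2])
  rcases circ_opp hr (z1 0) (z1 1) (z1 2) (z1 3) (z3 _ _ (by decide)) (z3 _ _ (by decide))
    (z3 _ _ (by decide)) (z3 _ _ (by decide)) (z3 _ _ (by decide)) (z3 _ _ (by decide))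
    with h | h | h
  all_goals refine key _ _ _ _ ?_ ?_ ?_ ?_ ?_ ?_ h <;> decide

/-- A compact surface contains only boundedly many disjoint copies of `K₅`. -/
theorem exists_bound [T2Space S] [CompactSpace S] [ChartedSpace E2 S] : ∃ k : ℕ,
    ¬ ∃ D : Drawing (SimpleGraph.fromRel fun a b : Fin (k + 1) × Fin 5 => a.1 = b.1) S,
      ∀ e f, e ≠ f → ¬ D.Meet e f := by
  classical
  obtain ⟨k, N, c, hN, hc⟩ := exists_cover (S := S)
  refine ⟨k, ?_⟩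
  set G := SimpleGraph.fromRel fun a b : Fin (k + 1) × Fin 5 => a.1 = b.1 with hG
  rintro ⟨D, hD⟩
  have hadj : ∀ t i j, i ≠ j → s((t, i), (t, j)) ∈ G.edgeSet := fun t i j h => by
    simp [hG, h]
  set Ar : Fin (k + 1) → Fin 5 → Fin 5 → Set S := fun t i j =>
    ⋃ h : i ≠ j, range (D.arc ⟨_, hadj t i j h⟩) with hAr
  have r0 : ∀ t i j (h : i ≠ j), Ar t i j = range (D.arc ⟨_, hadj t i j h⟩) := fun t i j h => by
    simp [hAr, h]
  have r1 : ∀ t i j, i ≠ j → IsArc (Ar t i j) (D.pos (t, i)) (D.pos (t, j)) := by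
    intro t i j h
    obtain ⟨u, v, a1, a2, a3⟩ := D.ends ⟨_, hadj t i j h⟩
    have : IsArc (Ar t i j) (D.pos u) (D.pos v) := ⟨⟨D.arc _, a2, a3⟩, D.arc_inj _, (r0 t i j h).symm⟩
    rcases Sym2.eq_iff.1 a1 with ⟨rfl, rfl⟩ | ⟨rfl, rfl⟩
    · exact this
    · exact this.symm
  have r2 : ∀ t i j t' i' j', s((t, i), (t, j)) ≠ s((t', i'), (t', j')) → ∀ x ∈ Ar t i j,
      x ∈ Ar t' i' j' → ∃ w, x = D.pos (t, w) ∧ t = t' ∧ (w = i ∨ w = j) ∧ (w = i' ∨ w = j') := by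
    intro t i j t' i' j' hne x h1 h2
    obtain ⟨h, s, rfl⟩ := mem_iUnion.1 h1
    obtain ⟨h', s', e⟩ := mem_iUnion.1 h2
    have key : ∀ (g : G.edgeSet) s, s = 0 ∨ s = 1 → ∃ w ∈ (g : Sym2 _), D.arc g s = D.pos w := by
      intro g s hs
      obtain ⟨u, v, a1, a2, a3⟩ := D.ends g
      rcases hs with rfl | rfl
      · exact ⟨u, by simp [a1], a2⟩
      · exact ⟨v, by simp [a1], a3⟩
    have hs : (s = 0 ∨ s = 1) ∧ (s' = 0 ∨ s' = 1) := by
      by_cases c1 : s = 0 ∨ s = 1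
      · obtain ⟨w, -, hw⟩ := key ⟨_, hadj t i j h⟩ s c1
        exact ⟨c1, D.avoid _ s' w (e.trans hw)⟩
      by_cases c2 : s' = 0 ∨ s' = 1
      · obtain ⟨w, -, hw⟩ := key ⟨_, hadj t' i' j' h'⟩ s' c2
        exact absurd (D.avoid _ s w (e.symm.trans hw)) c1
      rw [not_or] at c1 c2
      exact (hD ⟨_, hadj t i j h⟩ ⟨_, hadj t' i' j' h'⟩ (fun c => hne (congrArg Subtype.val c))
        ⟨s, s', c1.1, c1.2, c2.1, c2.2, e.symm⟩).elim
    obtain ⟨w, w1, w2⟩ := key ⟨_, hadj t i j h⟩ s hs.1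
    obtain ⟨w', w1', w2'⟩ := key ⟨_, hadj t' i' j' h'⟩ s' hs.2
    obtain rfl := D.pos_inj (w2.symm.trans (e.symm.trans w2'))
    obtain ⟨a, b⟩ := w
    simp only [Sym2.mem_iff, Prod.mk.injEq, ← and_or_left] at w1 w1'
    exact ⟨b, by rw [w2, w1.1], w1.1.symm.trans w1'.1, w1.2, w1'.2⟩
  obtain ⟨Ω, hΩ, hΩd⟩ := exists_sep (fun t => ⋃ i, ⋃ j, Ar t i j)
    (fun t => isCompact_iUnion fun i => isCompact_iUnion fun j => isCompact_iUnion fun h =>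
      isCompact_range (D.arc _).continuous) fun t t' h => by
      simp only [disjoint_iUnion_left, disjoint_iUnion_right]
      refine fun i j i' j' => disjoint_left.2 fun x a1 a2 => ?_
      obtain ⟨-, -, e, -⟩ := r2 _ _ _ _ _ _ (by simp [h]) x a1 a2
      exact h e
  have r3 : ∀ t i j, Ar t i j ⊆ Ω t := fun t i j x hx =>
    (hΩ t).2 (mem_iUnion.2 ⟨i, mem_iUnion.2 ⟨j, hx⟩⟩)
  have r4 : ∀ t i j i' j', i' ≠ i → i' ≠ j → j' ≠ i → j' ≠ j →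
      Disjoint (Ar t i j) (Ar t i' j') := fun t i j i' j' a1 a2 a3 a4 =>
    disjoint_left.2 fun x b1 b2 => by
      obtain ⟨w, -, -, e1, e2⟩ := r2 _ _ _ _ _ _ (by simp [a1.symm, a2.symm]) x b1 b2
      rcases e1 with rfl | rfl <;> rcases e2 with rfl | rfl <;> contradiction
  have sn := fun i : Fin 4 => i.succ_ne_zero
  have si : ∀ i j : Fin 4, i ≠ j → i.succ ≠ j.succ := fun i j h e => h (Fin.succ_injective _ e)
  choose l x y O O' l1 l2 l3 l4 l5 l6 l7 l8 l9 l10 l11 using fun t => local_cross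
    (c (D.pos (t, 0))) (hN _).1 (hN _).2 (hΩ t).1 (fun i => D.pos (t, i.succ))
    (fun i => Ar t i.succ 0) (fun i j => Ar t i.succ j.succ)
    (fun i => ⟨r1 t _ _ (sn i), r3 t _ _⟩)
    (fun i j h => ⟨r1 t _ _ (si i j h), r3 t _ _, fun e => by
      obtain ⟨w, e1, -, e2, -⟩ := r2 _ _ _ _ _ _ (by simp [sn]) _ e (r1 t _ _ (sn i)).right_mem
      obtain rfl : 0 = w := congrArg Prod.snd (D.pos_inj e1)
      exact e2.elim (sn i).symm (sn j).symm⟩)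
    (fun i j h x hx => by
      obtain ⟨w, e1, -, e2, e3⟩ := r2 _ _ _ _ _ _ (by simp [sn, h]) x hx.1 hx.2
      rcases e2 with rfl | rfl
      · exact absurd e3 (not_or.2 ⟨si i j h, sn i⟩)
      · exact e1)
    (fun i j m h a1 a2 => r4 t _ _ _ _ (si _ _ a1.symm) (sn i) (si _ _ a2.symm) (sn j))
    fun i j m n _ _ a1 a2 a3 a4 => r4 t _ _ _ _ (si _ _ a1) (si _ _ a2) (si _ _ a3) (si _ _ a4)
  obtain ⟨t, t', htt, h⟩ := hc l
  have h1 := h (O t) (l3 t) (l4 t) ((hΩd t t' htt).mono (l2 t) (l1 t')) _ _ (l5 t) _ (l6 t)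
  rw [l11, sep_conn (l8 t) (fun w hw => ⟨(l7 t hw).2, fun e => disjoint_left.1 (hΩd t t' htt)
    (l7 t hw).1 (l1 t' e)⟩) (l9 t) (l10 t)] at h1
  norm_num at h1

end Pool.Agent.Lib.OG59
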